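import Pool.Agent.PPI.Stmts

/-!
# PPI module AND: the Andreief identity on the product of balls
-/

set_option autoImplicit false

namespace PPI

open MeasureTheory Set
open scoped ENNReal

namespace AND_

/-- determinant of `n` vectors as a sum over permutations, one factor for each vector -/
lemma dt_eq {n : ℕ} (x : Fin n → EE n) :
    dt x = ∑ σ : Equiv.Perm (Fin n), ((Equiv.Perm.sign σ : ℤ) : ℝ) * ∏ k, x k (σ k) := by
  unfold dt
  rw [← Matrix.det_transpose, Matrix.det_apply']
  rfl

/-- the restricted volume on the product of balls -/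
lemma restrict_eq (n : ℕ) :
    (volume : Measure (Fin n → EE n)).restrict (Bp n) =
      Measure.pi (fun _ : Fin n => (volume : Measure (EE n)).restrict (Bn n)) := by
  rw [volume_pi]
  exact Measure.restrict_pi_pi (μ := fun _ : Fin n => (volume : Measure (EE n)))
    (fun _ => Bn n)

lemma compact_Bp (n : ℕ) : IsCompact (Bp n) :=
  isCompact_univ_pi fun _ => isCompact_closedBall _ _

lemma integral_term {n : ℕ} (g : EE n → EE n) (σ τ : Equiv.Perm (Fin n)) :
    ∫ x in Bp n, ∏ k, (x k (σ k) * g (x k) (τ k)) =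
      ∏ k, ∫ x in Bn n, x (σ k) * g x (τ k) := by
  rw [restrict_eq]
  exact integral_fintype_prod_eq_prod (μ := fun _ : Fin n =>
    (volume : Measure (EE n)).restrict (Bn n))
    (fun (k : Fin n) (x : EE n) => x (σ k) * g x (τ k))

lemma cont_coord {n : ℕ} (i : Fin n) : Continuous fun x : EE n => x i :=
  (EuclideanSpace.proj (𝕜 := ℝ) i).continuous

lemma integrable_term {n : ℕ} (g : EE n → EE n) (hg : Continuous g)
    (σ τ : Equiv.Perm (Fin n)) (c : ℝ) :
    Integrable (fun x : Fin n → EE n => c * ∏ k, (x k (σ k) * g (x k) (τ k)))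
      (volume.restrict (Bp n)) := by
  have hc : Continuous (fun x : Fin n → EE n => c * ∏ k, (x k (σ k) * g (x k) (τ k))) := by
    refine continuous_const.mul (continuous_finsetProd _ fun k _ => ?_)
    exact ((cont_coord (σ k)).comp (continuous_apply k)).mul
      ((cont_coord (τ k)).comp (hg.comp (continuous_apply k)))
  exact hc.continuousOn.integrableOn_compact (compact_Bp n)

/-- the integral of the product of two determinants -/
lemma integral_eq {n : ℕ} (g : EE n → EE n) (hg : Continuous g) :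
    ∫ x in Bp n, dt x * dt (fun k => g (x k)) =
      (n.factorial : ℝ) *
        Matrix.det (Matrix.of fun k l : Fin n => ∫ x in Bn n, x k * g x l) := by
  set A : Matrix (Fin n) (Fin n) ℝ := Matrix.of fun k l => ∫ x in Bn n, x k * g x l with hA
  have e1 : ∀ x : Fin n → EE n, dt x * dt (fun k => g (x k)) =
      ∑ σ : Equiv.Perm (Fin n), ∑ τ : Equiv.Perm (Fin n),
        (((Equiv.Perm.sign σ : ℤ) : ℝ) * ((Equiv.Perm.sign τ : ℤ) : ℝ)) *
          ∏ k, (x k (σ k) * g (x k) (τ k)) := by
    intro x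
    rw [dt_eq, dt_eq, Finset.sum_mul_sum]
    refine Finset.sum_congr rfl fun σ _ => Finset.sum_congr rfl fun τ _ => ?_
    rw [Finset.prod_mul_distrib]
    ring
  simp_rw [e1]
  rw [integral_finsetSum _ (fun σ _ => integrable_finsetSum _ fun τ _ =>
    integrable_term g hg σ τ _)]
  have e2 : ∀ σ : Equiv.Perm (Fin n),
      ∫ x in Bp n, ∑ τ : Equiv.Perm (Fin n),
        (((Equiv.Perm.sign σ : ℤ) : ℝ) * ((Equiv.Perm.sign τ : ℤ) : ℝ)) *
          ∏ k, (x k (σ k) * g (x k) (τ k)) = A.det := by
    intro σ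
    rw [integral_finsetSum _ (fun τ _ => integrable_term g hg σ τ _)]
    have e3 : ∀ τ : Equiv.Perm (Fin n),
        ∫ x in Bp n, (((Equiv.Perm.sign σ : ℤ) : ℝ) * ((Equiv.Perm.sign τ : ℤ) : ℝ)) *
          ∏ k, (x k (σ k) * g (x k) (τ k)) =
        ((Equiv.Perm.sign σ : ℤ) : ℝ) * (((Equiv.Perm.sign τ : ℤ) : ℝ) *
          ∏ k, A (σ k) (τ k)) := by
      intro τ
      rw [integral_const_mul, integral_term, mul_assoc]
      rfl
    simp_rw [e3]
    rw [← Finset.mul_sum]
    have e4 : ∑ τ : Equiv.Perm (Fin n), (((Equiv.Perm.sign τ : ℤ) : ℝ) *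
          ∏ k, A (σ k) (τ k)) = (A.submatrix σ id).det := by
      rw [← Matrix.det_transpose, Matrix.det_apply']
      rfl
    rw [e4, Matrix.det_permute]
    have e5 : ((Equiv.Perm.sign σ : ℤ) : ℝ) * ((Equiv.Perm.sign σ : ℤ) : ℝ) = 1 := by
      rw [← Int.cast_mul, Int.units_coe_mul_self, Int.cast_one]
    rw [← mul_assoc, e5, one_mul]
  simp_rw [e2]
  rw [Finset.sum_const, Finset.card_univ, Fintype.card_perm, Fintype.card_fin, nsmul_eq_mul]

end AND_

theorem and_proof : Stmt_AND := by
  intro n g _ hg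
  rw [AND_.integral_eq g hg]
  have h1 : (Matrix.of fun k l : Fin n => ave (fun x => x k * g x l)) =
      (kap n)⁻¹ • (Matrix.of fun k l : Fin n => ∫ x in Bn n, x k * g x l) := by
    ext k l
    simp only [Matrix.of_apply, Matrix.smul_apply, smul_eq_mul, ave]
    rw [div_eq_inv_mul]
  rw [h1, Matrix.det_smul, Fintype.card_fin, inv_pow]
  rw [div_eq_mul_inv]
  ring

end PPI
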