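import Pool.Agent.PPI.Stmts

/-!
# PPI, module APX: inner approximation by polytopes
-/

set_option autoImplicit false

namespace PPI

open MeasureTheory Set Filter Topology
open scoped ENNReal Pointwise

noncomputable section

namespace APX_

variable {n : ℕ} {K : Set (EE n)}

/-- for every boundary point there is a separating half-space -/
lemma sep (hc : Convex ℝ K) (hk : IsCompact K) (h0 : 0 ∈ interior K) {r : ℝ} (hr0 : 0 < r)
    (hr1 : r < 1) {y : EE n} (hy : y ∈ frontier K) :
    ∃ v : EE n, (∀ x ∈ r • K, inner ℝ v x < 1) ∧ 1 < inner ℝ v y := by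
  have hyn : y ∉ r • K := by
    rintro ⟨x, hx, hxy⟩
    have h1 : r • x ∈ interior K := by
      have := hc.combo_interior_self_mem_interior h0 hx (a := 1 - r) (b := r) (by linarith)
        hr0.le (by ring)
      simpa using this
    have h2 : y ∈ interior K := by
      rw [← hxy]
      exact h1
    exact hy.2 h2
  have hcr : Convex ℝ (r • K) := hc.smul r
  have hkr : IsCompact (r • K) := hk.smul r
  obtain ⟨f, c, hf1, hf2⟩ := geometric_hahn_banach_closed_point hcr hkr.isClosed hyn
  have h0r : (0 : EE n) ∈ r • K := ⟨0, interior_subset h0, by simp⟩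
  have hcpos : 0 < c := by
    have := hf1 0 h0r
    simpa using this
  refine ⟨c⁻¹ • (InnerProductSpace.toDual ℝ (EE n)).symm f, ?_, ?_⟩
  · intro x hx
    have := hf1 x hx
    rw [inner_smul_left, InnerProductSpace.toDual_symm_apply]
    simp only [conj_trivial]
    rw [inv_mul_lt_iff₀ hcpos, mul_one]
    exact this
  · rw [inner_smul_left, InnerProductSpace.toDual_symm_apply]
    simp only [conj_trivial]
    rw [lt_inv_mul_iff₀ hcpos, mul_one]
    exact hf2

/-- a point outside `K`: some smaller multiple is in the frontier -/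
lemma ray (hk : IsCompact K) (h0 : 0 ∈ interior K) {x : EE n} (hx : x ∉ K) :
    ∃ s : ℝ, 0 < s ∧ s ≤ 1 ∧ s • x ∈ frontier K := by
  by_contra hcon
  push Not at hcon
  have hpre : IsPreconnected ((fun s : ℝ => s • x) '' Icc (0 : ℝ) 1) :=
    (isPreconnected_Icc).image _ (by fun_prop)
  have hsub : (fun s : ℝ => s • x) '' Icc (0 : ℝ) 1 ⊆ interior K ∪ (Kᶜ) := by
    rintro _ ⟨s, hs, rfl⟩
    rcases eq_or_lt_of_le hs.1 with h | h
    · left
      rw [← h]
      simpa using h0
    · have h1 := hcon s h hs.2
      by_cases h2 : s • x ∈ K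
      · left
        by_contra h3
        exact h1 ⟨subset_closure h2, h3⟩
      · right
        exact h2
  have hne := hpre (interior K) (Kᶜ) isOpen_interior hk.isClosed.isOpen_compl hsub
    ⟨0, ⟨0, by simp, by simp⟩, h0⟩ ⟨x, ⟨1, by simp, by simp⟩, hx⟩
  obtain ⟨z, _, hz1, hz2⟩ := hne
  exact hz2 (interior_subset hz1)

end APX_

theorem apx_proof : Stmt_APX := by
  intro n K δ hn hc hk h0 hd0 hd1
  have hr0 : 0 < 1 - δ := by linarith
  have hr1 : 1 - δ < 1 := by linarith
  have hfc : IsCompact (frontier K) := hk.of_isClosed_subset isClosed_frontier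
    (hk.isClosed.frontier_subset)
  choose! v hv1 hv2 using fun y (hy : y ∈ frontier K) => APX_.sep hc hk h0 hr0 hr1 hy
  obtain ⟨t, ht1, ht2⟩ := hfc.elim_nhds_subcover (fun y => {x | 1 < inner ℝ (v y) x}) (by
    intro y hy
    exact (isOpen_lt continuous_const (by fun_prop)).mem_nhds (hv2 y hy))
  have e := t.equivFin
  refine ⟨t.card, fun i => v (t.equivFin.symm i).1, ?_⟩
  have hsub : Pol (fun i => v (t.equivFin.symm i).1) ⊆ K := by
    intro x hx
    by_contra hxK
    obtain ⟨s, hs0, hs1, hs⟩ := APX_.ray hk h0 hxK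
    have h1 := ht2 hs
    simp only [mem_iUnion] at h1
    obtain ⟨y, hyt, hy⟩ := h1
    have h2 := hx (t.equivFin ⟨y, hyt⟩)
    simp only [Equiv.symm_apply_apply] at h2
    have h3 : (1 : ℝ) < inner ℝ (v y) (s • x) := hy
    rw [inner_smul_right] at h3
    have h4 : s * inner ℝ (v y) x ≤ 1 := by
      by_cases h5 : 0 ≤ inner ℝ (v y) x
      · calc s * inner ℝ (v y) x ≤ 1 * 1 := by
              apply mul_le_mul hs1 h2 h5 zero_le_one
          _ = 1 := by ring
      · push Not at h5
        have := mul_neg_of_pos_of_neg hs0 h5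
        linarith
    linarith
  have hcl : IsClosed (Pol (fun i => v (t.equivFin.symm i).1)) := by
    unfold Pol
    simp only [Set.ofPred_forall]
    exact isClosed_iInter fun i => isClosed_le (by fun_prop) continuous_const
  have hcomp : IsCompact (Pol (fun i => v (t.equivFin.symm i).1)) :=
    hk.of_isClosed_subset hcl hsub
  refine ⟨hcomp, hsub, ?_⟩
  have hin : (1 - δ) • K ⊆ Pol (fun i => v (t.equivFin.symm i).1) := by
    intro x hx i
    exact (hv1 _ (ht1 _ (t.equivFin.symm i).2) x hx).le
  have hvol : vl ((1 - δ) • K) = (1 - δ) ^ n * vl K := by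
    unfold vl
    rw [Measure.addHaar_smul, ENNReal.toReal_mul, finrank_euclideanSpace_fin, abs_of_pos (by positivity),
      ENNReal.toReal_ofReal (by positivity)]
  rw [← hvol]
  exact ENNReal.toReal_mono hcomp.measure_lt_top.ne (measure_mono hin)

end

end PPI
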