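import Pool.Agent.PPI.Stmts

/-!
# Squad PPI, module AUE: Auerbach basis by maximal determinant
-/

set_option autoImplicit false

namespace PPI

open MeasureTheory Set Filter Topology
open scoped ENNReal Pointwise

namespace AUE_

/-- the norm on coordinate vectors -/
noncomputable def hn {n : ℕ} {ι : Type} [Fintype ι] (a : ι → ℝ) (v : ι → EE n) (u : Fin n → ℝ) : ℝ :=
  ∑ i, a i * |∑ j, v i j * u j|

variable {n : ℕ} {ι : Type} [Fintype ι] (a : ι → ℝ) (v : ι → EE n)

theorem hn_cont : Continuous (hn a v) := by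
  unfold hn
  fun_prop

theorem hn_smul (t : ℝ) (u : Fin n → ℝ) : hn a v (t • u) = |t| * hn a v u := by
  unfold hn
  rw [Finset.mul_sum]
  refine Finset.sum_congr rfl fun i _ => ?_
  have : ∑ j, v i j * (t • u) j = t * ∑ j, v i j * u j := by
    rw [Finset.mul_sum]
    refine Finset.sum_congr rfl fun j _ => ?_
    simp only [Pi.smul_apply, smul_eq_mul]; ring
  rw [this, abs_mul]; ring

theorem hn_nonneg (ha : ∀ i, 0 < a i) (u : Fin n → ℝ) : 0 ≤ hn a v u :=
  Finset.sum_nonneg fun i _ => mul_nonneg (ha i).le (abs_nonneg _)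

theorem hn_pos (ha : ∀ i, 0 < a i) (hv : ∀ y : EE n, y ≠ 0 → ∃ i, inner ℝ (v i) y ≠ 0)
    (u : Fin n → ℝ) (hu : u ≠ 0) : 0 < hn a v u := by
  have hy : (WithLp.toLp 2 u : EE n) ≠ 0 := by
    intro h
    apply hu
    funext j
    have := congrArg (fun z : EE n => z j) h
    simpa using this
  obtain ⟨i, hi⟩ := hv _ hy
  have e : inner ℝ (v i) (WithLp.toLp 2 u : EE n) = ∑ j, v i j * u j := by
    rw [PiLp.inner_apply]
    refine Finset.sum_congr rfl fun j _ => ?_
    simp [mul_comm]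
  rw [e] at hi
  refine Finset.sum_pos' (fun i _ => mul_nonneg (ha i).le (abs_nonneg _)) ⟨i, Finset.mem_univ _, ?_⟩
  exact mul_pos (ha i) (abs_pos.2 hi)

theorem hn_low (hn1 : 1 ≤ n) (ha : ∀ i, 0 < a i)
    (hv : ∀ y : EE n, y ≠ 0 → ∃ i, inner ℝ (v i) y ≠ 0) :
    ∃ c : ℝ, 0 < c ∧ ∀ u : Fin n → ℝ, c * ‖u‖ ≤ hn a v u := by
  haveI : Nonempty (Fin n) := ⟨⟨0, hn1⟩⟩
  haveI : Nontrivial (Fin n → ℝ) := Function.nontrivial
  obtain ⟨u0, hu0, hmin⟩ := (isCompact_sphere (0 : Fin n → ℝ) 1).exists_isMinOn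
    (NormedSpace.sphere_nonempty.2 zero_le_one) (hn_cont a v).continuousOn
  have hu0' : u0 ≠ 0 := by
    intro h
    rw [h] at hu0
    simp at hu0
  refine ⟨hn a v u0, hn_pos a v ha hv u0 hu0', fun u => ?_⟩
  by_cases hu : u = 0
  · subst hu
    simp [hn_nonneg a v ha]
  · have hnu : 0 < ‖u‖ := norm_pos_iff.2 hu
    have hs : (‖u‖⁻¹ • u) ∈ Metric.sphere (0 : Fin n → ℝ) 1 := by
      simp [norm_smul, hnu.ne']
    have h1 := hmin hs
    simp only [mem_setOf_eq] at h1
    rw [hn_smul, abs_of_pos (inv_pos.2 hnu)] at h1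
    calc hn a v u0 * ‖u‖ ≤ (‖u‖⁻¹ * hn a v u) * ‖u‖ := by gcongr
      _ = hn a v u := by field_simp

theorem compact_K (hn1 : 1 ≤ n) (ha : ∀ i, 0 < a i)
    (hv : ∀ y : EE n, y ≠ 0 → ∃ i, inner ℝ (v i) y ≠ 0) :
    IsCompact {u : Fin n → ℝ | hn a v u ≤ 2} := by
  obtain ⟨c, hc, hlow⟩ := hn_low a v hn1 ha hv
  refine Metric.isCompact_of_isClosed_isBounded
    (isClosed_le (hn_cont a v) continuous_const) ?_
  refine (Metric.isBounded_closedBall (x := (0 : Fin n → ℝ)) (r := 2 / c)).subset ?_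
  intro u hu
  rw [mem_closedBall_zero_iff]
  rw [le_div_iff₀ hc]
  calc ‖u‖ * c = c * ‖u‖ := by ring
    _ ≤ hn a v u := hlow u
    _ ≤ 2 := hu

/-- a maximiser of the determinant -/
theorem exists_max (hn1 : 1 ≤ n) (ha : ∀ i, 0 < a i)
    (hv : ∀ y : EE n, y ≠ 0 → ∃ i, inner ℝ (v i) y ≠ 0) :
    ∃ Y : Matrix (Fin n) (Fin n) ℝ, Y.det ≠ 0 ∧ (∀ k, hn a v (Y k) ≤ 2) ∧
      ∀ Z : Matrix (Fin n) (Fin n) ℝ, (∀ k, hn a v (Z k) ≤ 2) → |Z.det| ≤ |Y.det| := by
  have hS : IsCompact (Set.univ.pi fun _ : Fin n => {u : Fin n → ℝ | hn a v u ≤ 2}) :=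
    isCompact_univ_pi fun _ => compact_K a v hn1 ha hv
  -- a small multiple of the identity
  obtain ⟨C, hC0, hC⟩ : ∃ C : ℝ, 0 < C ∧ ∀ k : Fin n, hn a v (Pi.single k 1) ≤ C := by
    refine ⟨1 + ∑ k : Fin n, hn a v (Pi.single k 1), ?_, fun k => ?_⟩
    · have : 0 ≤ ∑ k : Fin n, hn a v (Pi.single k 1) :=
        Finset.sum_nonneg fun k _ => hn_nonneg a v ha _
      linarith
    · have := Finset.single_le_sum (f := fun k : Fin n => hn a v (Pi.single k 1))
        (fun k _ => hn_nonneg a v ha _) (Finset.mem_univ k)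
      linarith
  set ε : ℝ := 2 / C with hε
  have hε0 : 0 < ε := by positivity
  have hE : ∀ k, hn a v ((ε • (1 : Matrix (Fin n) (Fin n) ℝ)) k) ≤ 2 := by
    intro k
    have e : (ε • (1 : Matrix (Fin n) (Fin n) ℝ)) k = ε • (Pi.single k (1 : ℝ) : Fin n → ℝ) := by
      funext j
      simp [Matrix.smul_apply, Matrix.one_apply, Pi.single_apply, eq_comm]
    rw [e, hn_smul, abs_of_pos hε0, hε]
    calc 2 / C * hn a v (Pi.single k 1) ≤ 2 / C * C := by
          have := hC k
          gcongr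
      _ = 2 := by field_simp
  have hcontF : Continuous fun Y : Fin n → Fin n → ℝ => |Matrix.det (Matrix.of Y)| := by
    refine Continuous.abs ?_
    exact Continuous.matrix_det (by exact continuous_id)
  obtain ⟨Y, hY, hmax⟩ := hS.exists_isMaxOn
    ⟨fun k => (ε • (1 : Matrix (Fin n) (Fin n) ℝ)) k, fun k _ => hE k⟩ hcontF.continuousOn
  have hdetE : |Matrix.det (ε • (1 : Matrix (Fin n) (Fin n) ℝ))| = ε ^ n := by
    rw [Matrix.det_smul, Matrix.det_one, mul_one, Fintype.card_fin, abs_of_pos (by positivity)]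
  refine ⟨Matrix.of Y, ?_, fun k => hY k (Set.mem_univ k), fun Z hZ => ?_⟩
  · intro h0
    have h1 := hmax (a := fun k => (ε • (1 : Matrix (Fin n) (Fin n) ℝ)) k) (fun k _ => hE k)
    simp only [mem_setOf_eq] at h1
    have h2 : |Matrix.det (Matrix.of fun k => (ε • (1 : Matrix (Fin n) (Fin n) ℝ)) k)| = ε ^ n :=
      hdetE
    rw [h2, h0, abs_zero] at h1
    have : 0 < ε ^ n := by positivity
    linarith
  · have h1 := hmax (a := fun k => Z k) (fun k _ => hZ k)
    exact h1

theorem coord_le (ha : ∀ i, 0 < a i) (Y : Matrix (Fin n) (Fin n) ℝ) (hdet : Y.det ≠ 0)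
    (hY : ∀ k, hn a v (Y k) ≤ 2)
    (hmax : ∀ Z : Matrix (Fin n) (Fin n) ℝ, (∀ k, hn a v (Z k) ≤ 2) → |Z.det| ≤ |Y.det|)
    (c : Fin n → ℝ) (k : Fin n) : 2 * |c k| ≤ hn a v (∑ l, c l • Y l) := by
  set w : Fin n → ℝ := ∑ l, c l • Y l with hw
  have key : ∀ t : ℝ, 0 < t → t * hn a v w ≤ 2 → t * |c k| ≤ 1 := by
    intro t ht htw
    have h1 := hmax (Y.updateRow k (∑ l, (t * c l) • Y l)) ?_
    · rw [Matrix.det_updateRow_sum, smul_eq_mul, abs_mul, abs_mul, abs_of_pos ht] at h1
      have hd : 0 < |Y.det| := abs_pos.2 hdet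
      by_contra hcon
      push Not at hcon
      nlinarith
    · intro l
      by_cases hl : l = k
      · subst hl
        have e : (Y.updateRow l (∑ l, (t * c l) • Y l)) l = t • w := by
          rw [Matrix.updateRow_self, hw, Finset.smul_sum]
          refine Finset.sum_congr rfl fun l _ => ?_
          rw [smul_smul]
        rw [e, hn_smul, abs_of_pos ht]
        exact htw
      · have e : (Y.updateRow k (∑ l, (t * c l) • Y l)) l = Y l := by
          rw [Matrix.updateRow_ne hl]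
        rw [e]
        exact hY l
  have hw0 := hn_nonneg a v ha w
  by_contra hcon
  push Not at hcon
  rcases hw0.eq_or_lt with h0 | h0
  · have hck : 0 < |c k| := by
      rw [← h0] at hcon
      linarith
    have := key (2 / |c k|) (by positivity) (by rw [← h0]; simp)
    rw [div_mul_cancel₀ _ hck.ne'] at this
    linarith
  · have := key (2 / hn a v w) (by positivity) (by rw [div_mul_cancel₀ _ h0.ne'])
    rw [div_mul_eq_mul_div, div_le_one h0] at this
    linarith

end AUE_

open AUE_ in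
theorem aue_proof : Stmt_AUE := by
  intro n ι _ a v hn1 ha hv
  obtain ⟨Y, hdet, hY, hmax⟩ := exists_max a v hn1 ha hv
  refine ⟨LinearMap.toContinuousLinearMap (Matrix.toEuclideanLin Y), ?_, ?_, ?_⟩
  · have : (LinearMap.toContinuousLinearMap (Matrix.toEuclideanLin Y)).det = Y.det := by
      rw [ContinuousLinearMap.det, LinearMap.coe_toContinuousLinearMap,
        Matrix.toEuclideanLin_eq_toLin, LinearMap.det_toLin]
    rw [this]
    exact hdet
  · intro k
    have hk : ∑ i, a i * |(LinearMap.toContinuousLinearMap (Matrix.toEuclideanLin Y)) (v i) k| =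
        hn a v (Y k) := by
      unfold hn
      refine Finset.sum_congr rfl fun i _ => ?_
      congr 2
      simp only [LinearMap.coe_toContinuousLinearMap', Matrix.toLpLin_apply,
        Matrix.mulVec, dotProduct]
      refine Finset.sum_congr rfl fun j _ => ?_
      exact mul_comm _ _
    rw [hk]
    refine le_antisymm (hY k) ?_
    have h := coord_le a v ha Y hdet hY hmax (Pi.single k 1) k
    have e : ∑ l, (Pi.single k (1 : ℝ) : Fin n → ℝ) l • Y l = Y k := by
      rw [Finset.sum_eq_single k]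
      · simp
      · intro l _ hl
        simp [Pi.single_apply, hl]
      · simp
    rw [e] at h
    simpa using h
  · intro y k
    have h := coord_le a v ha Y hdet hY hmax (fun l => y l) k
    have hk : ∑ i, a i * |inner ℝ ((LinearMap.toContinuousLinearMap (Matrix.toEuclideanLin Y))
        (v i)) y| = hn a v (∑ l, (y l) • Y l) := by
      unfold hn
      refine Finset.sum_congr rfl fun i _ => ?_
      congr 2
      rw [PiLp.inner_apply]
      simp only [LinearMap.coe_toContinuousLinearMap', Matrix.toLpLin_apply,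
        Matrix.mulVec, dotProduct, Finset.sum_apply, Pi.smul_apply, smul_eq_mul,
        RCLike.inner_apply, conj_trivial, Finset.mul_sum]
      rw [Finset.sum_comm]
      refine Finset.sum_congr rfl fun j _ => ?_
      refine Finset.sum_congr rfl fun l _ => ?_
      ring
    rw [hk]
    exact h

end PPI
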