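import Pool.Agent.PPI.Stmts

/-!
# PPI module AVE: averages over the ball
-/

set_option autoImplicit false

namespace PPI

open MeasureTheory Set

namespace AVE_

lemma cont_coord {n : ℕ} (i : Fin n) : Continuous fun x : EE n => x i :=
  (EuclideanSpace.proj (𝕜 := ℝ) i).continuous

lemma kap_pos (n : ℕ) : 0 < kap n := by
  unfold kap vl Bn
  refine ENNReal.toReal_pos ?_ ?_
  · exact (Metric.measure_closedBall_pos volume (0 : EE n) one_pos).ne'
  · exact (isCompact_closedBall (0 : EE n) 1).measure_lt_top.ne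

lemma intOn {n : ℕ} (f : EE n → ℝ) (hf : Continuous f) : IntegrableOn f (Bn n) :=
  hf.continuousOn.integrableOn_compact (isCompact_closedBall _ _)

/-- invariance of the ball under linear isometries -/
lemma inv {n : ℕ} (L : EE n ≃ₗᵢ[ℝ] EE n) (f : EE n → ℝ) :
    ∫ x in Bn n, f (L x) = ∫ x in Bn n, f x := by
  have h := L.measurePreserving.setIntegral_preimage_emb
    L.toHomeomorph.measurableEmbedding f (Bn n)
  rw [← h]
  congr 2
  ext x
  simp [Bn]

lemma int_coord {n : ℕ} (k : Fin n) : ∫ x in Bn n, (x : EE n) k = 0 := by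
  have h := inv (LinearIsometryEquiv.neg ℝ) (fun x : EE n => x k)
  simp only [LinearIsometryEquiv.coe_neg, PiLp.neg_apply, integral_neg] at h
  linarith

lemma int_mul {n : ℕ} (k l : Fin n) (hkl : k ≠ l) :
    ∫ x in Bn n, (x : EE n) k * x l = 0 := by
  let L : EE n ≃ₗᵢ[ℝ] EE n := LinearIsometryEquiv.piLpCongrRight 2
    (fun i => if i = k then LinearIsometryEquiv.neg ℝ else LinearIsometryEquiv.refl ℝ ℝ)
  have h := inv L (fun x : EE n => x k * x l)
  have e : ∀ x : EE n, (L x) k * (L x) l = - (x k * x l) := by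
    intro x
    simp only [L, LinearIsometryEquiv.piLpCongrRight_apply]
    rw [if_neg hkl.symm]
    simp
  simp only [e, integral_neg] at h
  linarith

lemma int_sq {n : ℕ} (k l : Fin n) :
    ∫ x in Bn n, (x : EE n) k * x k = ∫ x in Bn n, (x : EE n) l * x l := by
  let L : EE n ≃ₗᵢ[ℝ] EE n := LinearIsometryEquiv.piLpCongrLeft 2 ℝ ℝ (Equiv.swap k l)
  have h := inv L (fun x : EE n => x k * x k)
  have e : ∀ x : EE n, (L x) k * (L x) k = x l * x l := by
    intro x
    simp only [L, LinearIsometryEquiv.piLpCongrLeft_apply]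
    simp [Equiv.piCongrLeft']
  simp only [e] at h
  exact h.symm

lemma int_sq_pos {n : ℕ} (k : Fin n) : 0 < ∫ x in Bn n, (x : EE n) k * x k := by
  rw [setIntegral_pos_iff_support_of_nonneg_ae]
  · have hopen : IsOpen ({x : EE n | 0 < x k} ∩ Metric.ball (0 : EE n) 1) :=
      (isOpen_lt continuous_const (cont_coord k)).inter Metric.isOpen_ball
    have hne : ({x : EE n | 0 < x k} ∩ Metric.ball (0 : EE n) 1).Nonempty := by
      refine ⟨EuclideanSpace.single k (1 / 2 : ℝ), ?_, ?_⟩
      · simp
      · rw [mem_ball_zero_iff, EuclideanSpace.norm_single]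
        norm_num
    refine lt_of_lt_of_le (hopen.measure_pos volume hne) (measure_mono ?_)
    rintro x ⟨h1, h2⟩
    refine ⟨?_, Metric.ball_subset_closedBall h2⟩
    have h1' : 0 < x k := h1
    exact (mul_pos h1' h1').ne'
  · exact Filter.Eventually.of_forall fun x => mul_self_nonneg _
  · exact intOn _ ((cont_coord k).mul (cont_coord k))

end AVE_

theorem ave_proof : Stmt_AVE := by
  intro n hn
  have hk := AVE_.kap_pos n
  refine ⟨hk, AVE_.intOn, ?_, ?_, ?_, ?_, ?_, ?_⟩
  · intro f g hf hg
    unfold ave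
    rw [integral_add (AVE_.intOn f hf) (AVE_.intOn g hg), add_div]
  · intro c f
    unfold ave
    rw [integral_const_mul, mul_div_assoc]
  · intro c
    unfold ave
    rw [setIntegral_const, smul_eq_mul]
    have : (volume : Measure (EE n)).real (Bn n) = kap n := rfl
    rw [this, mul_comm, mul_div_assoc, div_self hk.ne', mul_one]
  · intro f g hf hg hfg
    unfold ave
    refine div_le_div_of_nonneg_right ?_ hk.le
    exact setIntegral_mono_on (AVE_.intOn f hf) (AVE_.intOn g hg)
      (Metric.isClosed_closedBall.measurableSet) hfg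
  · intro k
    unfold ave
    rw [AVE_.int_coord, zero_div]
  · refine ⟨ave (fun x : EE n => x ⟨0, hn⟩ * x ⟨0, hn⟩), ?_, ?_⟩
    · exact div_pos (AVE_.int_sq_pos _) hk
    · intro k l
      by_cases h : k = l
      · subst h
        rw [if_pos rfl]
        unfold ave
        rw [AVE_.int_sq k ⟨0, hn⟩]
      · rw [if_neg h]
        unfold ave
        rw [AVE_.int_mul k l h, zero_div]

end PPI
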