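import Pool.Agent.PPI.Stmts

/-!
# PPI, module BOD (assembly): the theorem for bodies
-/

set_option autoImplicit false

namespace PPI

open MeasureTheory Set
open scoped ENNReal Pointwise

theorem bod_proof (hAVE : Stmt_AVE) (hNFM : Stmt_NFM) (hRED : Stmt_RED) (hGEO : Stmt_GEO)
    (hAPX : Stmt_APX) (hMON : Stmt_MON) : Stmt_BOD := by
  intro n q K hn hq hc hK hint
  have hn1 : 1 ≤ n := by omega
  have hnR : (0 : ℝ) < n := by exact_mod_cast hn1
  have hkap : 0 < kap n := (hAVE n hn1).1
  have hfac : (0 : ℝ) < n.factorial := by exact_mod_cast n.factorial_pos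
  have hth : 0 < th n q := by
    unfold th
    have : 0 < (n.factorial : ℝ) / (n : ℝ) ^ n := by positivity
    positivity
  set C0 : ℝ := 8 * Real.exp 1 * (n + 1) * th n q with hC0
  have hC0pos : 0 < C0 := by positivity
  obtain ⟨hfin, hmono, htrans⟩ := hMON n hn
  obtain ⟨z, hz⟩ := hint
  set K0 : Set (EE n) := (fun x => x + (-z)) '' K with hK0
  have hcont : Continuous (fun x : EE n => x + (-z)) := by fun_prop
  have hK0c : IsCompact K0 := hK.image hcont
  have hK0conv : Convex ℝ K0 := by
    rw [hK0, Set.image_add_right]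
    exact hc.translate_preimage_left _
  have hK0int : 0 ∈ interior K0 := by
    have h1 : (fun x : EE n => x + (-z)) '' interior K ⊆ interior K0 := by
      apply interior_maximal
      · exact Set.image_mono interior_subset
      · exact (Homeomorph.addRight (-z)).isOpenMap _ isOpen_interior
    apply h1
    exact ⟨z, hz, by simp⟩
  have hvol : vl K0 = vl K := by
    unfold vl
    congr 1
    rw [hK0, Set.image_add_right]
    exact measure_preimage_add_right _ _ _
  have hvKpos : 0 < vl K := by
    unfold vl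
    apply ENNReal.toReal_pos
    · have h1 : 0 < volume (interior K) := isOpen_interior.measure_pos volume ⟨z, hz⟩
      exact (h1.trans_le (measure_mono interior_subset)).ne'
    · exact hK.measure_lt_top.ne
  have hproj : projBody K0 = projBody K := htrans K (-z)
  -- the inequality up to `δ`
  have key : ∀ δ : ℝ, 0 < δ → δ < 1 →
      kap n * ((1 - δ) ^ n * vl K) ^ (n - 1) ≤ C0 * vl (projBody K) := by
    intro δ h0 h1
    obtain ⟨N, v, hPc, hPK, hPv⟩ := hAPX n K0 δ hn1 hK0conv hK0c hK0int h0 h1
    rw [hvol] at hPv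
    have hd : 0 < (1 - δ) ^ n * vl K := by
      have : 0 < 1 - δ := by linarith
      positivity
    have hPpos : 0 < vl (Pol v) := lt_of_lt_of_le hd hPv
    obtain ⟨ι, _, a, w, hMK, hXT⟩ := hGEO n N v hn hPc hPpos
    have hWpos : 0 < vl (Pol v) ^ (n - 1) := by positivity
    have h2 := hRED n (C0 * (2 * n) ^ n / (kap n * n.factorial)) hn1 (by
      intro ι' _ p' w' W' hNF' hW'
      have h3 := hNFM n q ι' p' w' W' hn hq hNF' hW'
      rw [div_mul_eq_mul_div, le_div_iff₀ (by positivity)]
      exact h3) ι a w _ hMK hWpos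
    rw [div_mul_eq_mul_div, le_div_iff₀ (by positivity)] at h2
    have h2n : (0 : ℝ) < (2 * n) ^ n := by positivity
    have h4 : vl (Pol v) ^ (n - 1) * (kap n * n.factorial) ≤ C0 * XT a w := by
      have h5 : (2 * (n : ℝ)) ^ n * (vl (Pol v) ^ (n - 1) * (kap n * n.factorial)) ≤
          (2 * (n : ℝ)) ^ n * (C0 * XT a w) := by
        calc (2 * (n : ℝ)) ^ n * (vl (Pol v) ^ (n - 1) * (kap n * n.factorial))
            = (2 * (n : ℝ)) ^ n * vl (Pol v) ^ (n - 1) * (kap n * n.factorial) := by ring
          _ ≤ C0 * (2 * (n : ℝ)) ^ n * XT a w := h2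
          _ = (2 * (n : ℝ)) ^ n * (C0 * XT a w) := by ring
      exact le_of_mul_le_mul_left h5 h2n
    have h6 : vl (Pol v) ^ (n - 1) * (kap n * n.factorial) ≤
        C0 * (n.factorial * vl (projBody (Pol v))) :=
      h4.trans (mul_le_mul_of_nonneg_left hXT hC0pos.le)
    have h7 : kap n * vl (Pol v) ^ (n - 1) ≤ C0 * vl (projBody (Pol v)) := by
      have h8 : (n.factorial : ℝ) * (kap n * vl (Pol v) ^ (n - 1)) ≤
          n.factorial * (C0 * vl (projBody (Pol v))) := by
        calc (n.factorial : ℝ) * (kap n * vl (Pol v) ^ (n - 1))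
            = vl (Pol v) ^ (n - 1) * (kap n * n.factorial) := by ring
          _ ≤ C0 * (n.factorial * vl (projBody (Pol v))) := h6
          _ = n.factorial * (C0 * vl (projBody (Pol v))) := by ring
      exact le_of_mul_le_mul_left h8 hfac
    have h9 : vl (projBody (Pol v)) ≤ vl (projBody K) := by
      rw [← hproj]
      unfold vl
      apply ENNReal.toReal_mono (hfin K0 hK0c)
      exact measure_mono (hmono _ _ hPc hK0c hPK)
    calc kap n * ((1 - δ) ^ n * vl K) ^ (n - 1) ≤ kap n * vl (Pol v) ^ (n - 1) := by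
          apply mul_le_mul_of_nonneg_left _ hkap.le
          exact pow_le_pow_left₀ hd.le hPv _
      _ ≤ C0 * vl (projBody (Pol v)) := h7
      _ ≤ C0 * vl (projBody K) := mul_le_mul_of_nonneg_left h9 hC0pos.le
  -- limit
  have hlim : Filter.Tendsto (fun δ : ℝ => kap n * ((1 - δ) ^ n * vl K) ^ (n - 1)) (nhds 0)
      (nhds (kap n * ((1 - 0) ^ n * vl K) ^ (n - 1))) := by
    apply Continuous.tendsto
    fun_prop
  have hlim2 := hlim.mono_left (nhdsWithin_le_nhds (s := Ioi 0))
  have hle := le_of_tendsto hlim2 (by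
    have : ∀ᶠ δ : ℝ in nhdsWithin 0 (Ioi 0), δ < 1 :=
      (gt_mem_nhds (by norm_num : (0:ℝ) < 1)).filter_mono nhdsWithin_le_nhds
    filter_upwards [this, self_mem_nhdsWithin] with δ h1 h0
    exact key δ h0 h1)
  rw [sub_zero, one_pow, one_mul] at hle
  exact hle

end PPI
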