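import Pool.Agent.PPI.Stmts

set_option autoImplicit false

namespace PPI

open MeasureTheory Set Filter Topology
open scoped ENNReal Pointwise

namespace CBS_

lemma step1 (n : ℕ) (ι : Type) [Fintype ι] (α : ι → ℝ) (v : ι → EE n) :
    Matrix.det (Matrix.of fun j l : Fin n => ∑ i, α i * (v i j * v i l)) =
      ∑ f : Fin n → ι, (∏ k, α (f k)) * (∏ k, v (f k) k) * dt (fun k => v (f k)) := by
  classical
  rw [Matrix.det_apply']
  have h1 : ∀ σ : Equiv.Perm (Fin n),
      (∏ k, (Matrix.of fun j l : Fin n => ∑ i, α i * (v i j * v i l)) (σ k) k) =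
        ∑ f : Fin n → ι, ∏ k, (α (f k) * (v (f k) (σ k) * v (f k) k)) := by
    intro σ
    simp only [Matrix.of_apply]
    rw [Finset.prod_univ_sum, Fintype.piFinset_univ]
  simp only [h1, Finset.mul_sum]
  rw [Finset.sum_comm]
  refine Finset.sum_congr rfl fun f _ => ?_
  have h2 : dt (fun k => v (f k)) =
      ∑ σ : Equiv.Perm (Fin n), ((Equiv.Perm.sign σ : ℤ) : ℝ) * ∏ k, v (f k) (σ k) := by
    unfold dt
    rw [← Matrix.det_transpose, Matrix.det_apply']
    rfl
  rw [h2, Finset.mul_sum]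
  refine Finset.sum_congr rfl fun σ _ => ?_
  rw [Finset.prod_mul_distrib, Finset.prod_mul_distrib]
  ring

lemma dt_perm (n : ℕ) (ι : Type) (v : ι → EE n) (f : Fin n → ι) (τ : Equiv.Perm (Fin n)) :
    dt (fun k => v (f (τ k))) = ((Equiv.Perm.sign τ : ℤ) : ℝ) * dt (fun k => v (f k)) := by
  unfold dt
  have := Matrix.det_permute τ (Matrix.of fun k j => (v (f k)) j)
  exact this

lemma step2 (n : ℕ) (ι : Type) [Fintype ι] (α : ι → ℝ) (v : ι → EE n)
    (τ : Equiv.Perm (Fin n)) :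
    ∑ f : Fin n → ι, (∏ k, α (f k)) * (∏ k, v (f k) k) * dt (fun k => v (f k)) =
      ∑ f : Fin n → ι, (∏ k, α (f k)) * dt (fun k => v (f k)) *
        (((Equiv.Perm.sign τ : ℤ) : ℝ) * ∏ k, v (f (τ k)) k) := by
  classical
  rw [← Equiv.sum_comp (Equiv.arrowCongr τ.symm (Equiv.refl ι))]
  refine Finset.sum_congr rfl fun f _ => ?_
  have h0 : ∀ k, (Equiv.arrowCongr τ.symm (Equiv.refl ι)) f k = f (τ k) := fun k => rfl
  simp only [h0]
  rw [dt_perm, Equiv.prod_comp τ (fun k => α (f k))]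
  ring

end CBS_

open CBS_ in
theorem cbs_proof : Stmt_CBS := by
  intro n ι _ α v
  classical
  rw [step1]
  rw [eq_div_iff (by positivity)]
  have h : ∑ τ : Equiv.Perm (Fin n),
      (∑ f : Fin n → ι, (∏ k, α (f k)) * (∏ k, v (f k) k) * dt (fun k => v (f k))) =
      ∑ f : Fin n → ι, (∏ k, α (f k)) * dt (fun k => v (f k)) ^ 2 := by
    rw [Finset.sum_congr rfl (fun τ _ => step2 n ι α v τ), Finset.sum_comm]
    refine Finset.sum_congr rfl fun f _ => ?_
    rw [← Finset.mul_sum]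
    have h2 : dt (fun k => v (f k)) =
        ∑ σ : Equiv.Perm (Fin n), ((Equiv.Perm.sign σ : ℤ) : ℝ) * ∏ k, v (f (σ k)) k := by
      unfold dt
      rw [Matrix.det_apply']
      rfl
    rw [← h2]
    ring
  rw [← h, Finset.sum_const, Finset.card_univ, Fintype.card_perm, Fintype.card_fin,
    nsmul_eq_mul]
  ring

end PPI
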