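import Pool.Agent.PPI.Stmts

set_option autoImplicit false

namespace PPI

open MeasureTheory Set Filter Topology
open scoped ENNReal Pointwise

namespace CEL_

variable {n N : ℕ} {v : Fin N → EE n}

lemma zero_of_nonpos (hc : IsCompact (Pol v)) {x : EE n}
    (hx : ∀ j, inner ℝ (v j) x ≤ 0) : x = 0 := by
  by_contra hne
  have hpos : 0 < ‖x‖ := norm_pos_iff.mpr hne
  obtain ⟨R, hR⟩ := hc.isBounded.exists_norm_le
  have hR0 : 0 ≤ R := by
    have : (0 : EE n) ∈ Pol v := by
      intro i; simp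
    exact (norm_nonneg _).trans (hR _ this)
  have hmem : (((R + 1) / ‖x‖) • x) ∈ Pol v := by
    intro i
    rw [inner_smul_right]
    have h1 : 0 ≤ (R + 1) / ‖x‖ := by positivity
    have := mul_nonpos_of_nonneg_of_nonpos h1 (hx i)
    linarith
  have h2 := hR _ hmem
  rw [norm_smul, Real.norm_of_nonneg (by positivity), div_mul_cancel₀ _ hpos.ne'] at h2
  linarith

lemma meas_cn (i : Fin N) : MeasurableSet (cn v i) := by
  have : cn v i = ⋂ j, ({x | inner ℝ (v j) x ≤ inner ℝ (v i) x} ∩
      {x | j < i → inner ℝ (v j) x < inner ℝ (v i) x}) := by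
    ext x
    simp only [cn, mem_setOf_eq, mem_iInter, mem_inter_iff]
  rw [this]
  refine MeasurableSet.iInter fun j => MeasurableSet.inter ?_ ?_
  · exact measurableSet_le (by fun_prop) (by fun_prop)
  · by_cases hj : j < i
    · simp only [hj, true_implies]
      exact measurableSet_lt (by fun_prop) (by fun_prop)
    · simp only [hj, false_implies, setOf_true, MeasurableSet.univ]

lemma meas_cell (i : Fin N) (s : ℝ) : MeasurableSet (cell v i s) := by
  have : cell v i s = cn v i ∩ {x | inner ℝ (v i) x ≤ s} := rfl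
  rw [this]
  exact (meas_cn i).inter (measurableSet_le (by fun_prop) (by fun_prop))

lemma disj (i j : Fin N) (hij : i ≠ j) : Disjoint (cn v i) (cn v j) := by
  rw [Set.disjoint_left]
  intro x hi hj
  rcases lt_or_gt_of_ne hij with h | h
  · exact absurd ((hj i).2 h) (not_lt.mpr (hi j).1)
  · exact absurd ((hi j).2 h) (not_lt.mpr (hj i).1)

lemma N_pos (hn : 1 ≤ n) (hc : IsCompact (Pol v)) : 0 < N := by
  rcases Nat.eq_zero_or_pos N with h | h
  · exfalso
    subst h
    haveI : Nonempty (Fin n) := ⟨⟨0, hn⟩⟩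
    have h1 : (EuclideanSpace.single (⟨0, hn⟩ : Fin n) (1 : ℝ)) = (0 : EE n) :=
      zero_of_nonpos hc (fun j => j.elim0)
    have h2 := congrArg norm h1
    rw [EuclideanSpace.norm_single] at h2
    simp at h2
  · exact h

lemma exists_cn (hN : 0 < N) (x : EE n) : ∃ i, x ∈ cn v i := by
  classical
  haveI : Nonempty (Fin N) := ⟨⟨0, hN⟩⟩
  let S : Finset (Fin N) := Finset.univ.filter (fun i => ∀ j, inner ℝ (v j) x ≤ inner ℝ (v i) x)
  have hS : S.Nonempty := by
    obtain ⟨i, -, hi⟩ := Finset.exists_max_image (Finset.univ : Finset (Fin N))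
      (fun i => inner ℝ (v i) x) Finset.univ_nonempty
    exact ⟨i, Finset.mem_filter.mpr ⟨Finset.mem_univ _, fun j => hi j (Finset.mem_univ _)⟩⟩
  have hm := Finset.min'_mem S hS
  have hm2 := (Finset.mem_filter.mp hm).2
  refine ⟨S.min' hS, fun j => ⟨hm2 j, fun hj => ?_⟩⟩
  by_contra hlt
  push Not at hlt
  have hjS : j ∈ S := by
    refine Finset.mem_filter.mpr ⟨Finset.mem_univ _, fun k => (hm2 k).trans hlt⟩
  exact absurd (Finset.min'_le S j hjS) (not_le.mpr hj)

lemma vol_zero (hn : 1 ≤ n) : volume ({0} : Set (EE n)) = 0 := by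
  have h := Measure.addHaar_smul (volume : Measure (EE n)) (0 : ℝ) (Metric.closedBall (0 : EE n) 1)
  have h2 : (0 : ℝ) • (Metric.closedBall (0 : EE n) 1) = {0} := by
    rw [Set.zero_smul_set ⟨0, by simp⟩]
    rfl
  rw [h2] at h
  rw [h, finrank_euclideanSpace_fin, zero_pow (by omega)]
  simp

lemma cell_sub_zero (hc : IsCompact (Pol v)) (i : Fin N) {s : ℝ} (hs : s ≤ 0) :
    cell v i s ⊆ {0} := by
  intro x hx
  have h1 : ∀ j, inner ℝ (v j) x ≤ 0 := fun j => ((hx.1 j).1.trans hx.2).trans hs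
  exact zero_of_nonpos hc h1

lemma cell_scale (hn : 1 ≤ n) (hc : IsCompact (Pol v)) (i : Fin N) (s : ℝ) (hs : 0 ≤ s) :
    volume (cell v i s) = ENNReal.ofReal (s ^ n) * volume (cell v i 1) := by
  rcases hs.eq_or_lt with h | h
  · subst h
    rw [zero_pow (by omega)]
    simp only [ENNReal.ofReal_zero, zero_mul]
    exact measure_mono_null (cell_sub_zero hc i le_rfl) (vol_zero hn)
  · have hset : cell v i s = s • cell v i 1 := by
      ext x
      rw [Set.mem_smul_set_iff_inv_smul_mem₀ h.ne']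
      simp only [cell, cn, mem_setOf_eq, inner_smul_right]
      have hinv : 0 < s⁻¹ := inv_pos.mpr h
      constructor
      · rintro ⟨h1, h2⟩
        refine ⟨fun j => ⟨mul_le_mul_of_nonneg_left (h1 j).1 hinv.le,
          fun hj => mul_lt_mul_of_pos_left ((h1 j).2 hj) hinv⟩, ?_⟩
        calc s⁻¹ * inner ℝ (v i) x ≤ s⁻¹ * s := mul_le_mul_of_nonneg_left h2 hinv.le
          _ = 1 := inv_mul_cancel₀ h.ne'
      · rintro ⟨h1, h2⟩
        refine ⟨fun j => ⟨le_of_mul_le_mul_left (h1 j).1 hinv,
          fun hj => lt_of_mul_lt_mul_left ((h1 j).2 hj) hinv.le⟩, ?_⟩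
        have h3 : s⁻¹ * inner ℝ (v i) x ≤ s⁻¹ * s := by
          rw [inv_mul_cancel₀ h.ne']; exact h2
        exact le_of_mul_le_mul_left h3 hinv
    rw [hset, Measure.addHaar_smul, finrank_euclideanSpace_fin, abs_of_nonneg (by positivity)]

lemma cell_sub (i : Fin N) : cell v i 1 ⊆ Pol v := fun x hx j => (hx.1 j).1.trans hx.2

lemma pol_eq (hN : 0 < N) : Pol v = ⋃ i, cell v i 1 := by
  ext x
  constructor
  · intro hx
    obtain ⟨i, hi⟩ := exists_cn (v := v) hN x
    exact mem_iUnion.mpr ⟨i, hi, hx i⟩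
  · intro hx
    obtain ⟨i, hi⟩ := mem_iUnion.mp hx
    exact cell_sub i hi

end CEL_

open CEL_ in
theorem cel_proof : Stmt_CEL := by
  intro n N v hn hc
  have hN := N_pos hn hc
  have hfin : ∀ i, volume (cell v i 1) ≠ ⊤ := fun i =>
    ne_top_of_le_ne_top hc.measure_lt_top.ne (measure_mono (cell_sub i))
  refine ⟨meas_cn, disj, exists_cn hN, fun i s hs => cell_scale hn hc i s hs, cell_sub, hfin,
    ?_, ?_, ?_⟩
  · have hvol : volume (Pol v) = ∑ i, volume (cell v i 1) := by
      rw [pol_eq hN, measure_iUnion ?_ (fun i => meas_cell i 1), tsum_fintype]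
      intro i j hij
      exact (disj i j hij).mono (fun x hx => hx.1) (fun x hx => hx.1)
    have : vl (Pol v) = ∑ i, vl (cell v i 1) := by
      unfold vl
      rw [hvol, ENNReal.toReal_sum (fun i _ => hfin i)]
    rw [this, Finset.mul_sum]
    rfl
  · intro i
    exact mul_nonneg (Nat.cast_nonneg _) ENNReal.toReal_nonneg
  · intro i hi h0
    have hsub : cell v i 1 ⊆ {0} := by
      intro x hx
      have h1 : ∀ j, inner ℝ (v j) x ≤ 0 := fun j => by
        have := (hx.1 j).1
        rw [h0, inner_zero_left] at this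
        exact this
      exact zero_of_nonpos hc h1
    have hz : volume (cell v i 1) = 0 := measure_mono_null hsub (vol_zero hn)
    unfold fa vl at hi
    rw [hz] at hi
    simp at hi

end PPI
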