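import Pool.Agent.PPI.Stmts

/-!
# Squad PPI, module COE: coercivity by a trial coupling
-/

set_option autoImplicit false

namespace PPI

open MeasureTheory Set Filter Topology
open scoped ENNReal Pointwise

namespace COE_

/-- the facts of AVE in dimension `n` -/
structure AV (n : ℕ) (c₂ : ℝ) : Prop where
  add : ∀ f g : EE n → ℝ, Continuous f → Continuous g →
      ave (fun x => f x + g x) = ave f + ave g
  mul : ∀ (c : ℝ) (f : EE n → ℝ), ave (fun x => c * f x) = c * ave f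
  const : ∀ c : ℝ, ave (fun _ : EE n => c) = c
  mono : ∀ f g : EE n → ℝ, Continuous f → Continuous g → (∀ x ∈ Bn n, f x ≤ g x) → ave f ≤ ave g
  x1 : ∀ k : Fin n, ave (fun x : EE n => x k) = 0
  cpos : 0 < c₂
  x2 : ∀ k l : Fin n, ave (fun x : EE n => x k * x l) = if k = l then c₂ else 0

theorem ave_sum {n : ℕ} {c₂ : ℝ} (H : AV n c₂) {κ : Type} (s : Finset κ) (f : κ → EE n → ℝ)
    (hf : ∀ i, Continuous (f i)) : ave (fun x => ∑ i ∈ s, f i x) = ∑ i ∈ s, ave (f i) := by
  classical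
  induction s using Finset.induction_on with
  | empty => simpa using H.const 0
  | insert a s ha ih =>
    rw [Finset.sum_insert ha, ← ih, ← H.add _ _ (hf a) (by fun_prop)]
    congr 1
    funext x
    rw [Finset.sum_insert ha]

/-- the vector `T w` -/
noncomputable def Lk {n : ℕ} (T : Matrix (Fin n) (Fin n) ℝ) (w : EE n) (k : Fin n) : ℝ :=
  ∑ l, T k l * w l

theorem bil_eq {n : ℕ} (T : Matrix (Fin n) (Fin n) ℝ) (x w : EE n) :
    bil T x w = ∑ k, Lk T w k * x k := by
  unfold bil Lk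
  refine Finset.sum_congr rfl fun k _ => ?_
  rw [Finset.sum_mul]
  refine Finset.sum_congr rfl fun l _ => ?_
  ring

theorem bil_cont {n : ℕ} (T : Matrix (Fin n) (Fin n) ℝ) (w : EE n) :
    Continuous fun x : EE n => bil T x w := by
  unfold bil
  fun_prop

theorem ave_bil {n : ℕ} {c₂ : ℝ} (H : AV n c₂) (T : Matrix (Fin n) (Fin n) ℝ) (w : EE n) :
    ave (fun x => bil T x w) = 0 := by
  have e : (fun x : EE n => bil T x w) = fun x => ∑ k, Lk T w k * x k := by
    funext x; exact bil_eq T x w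
  rw [e, ave_sum H _ _ (fun k => by fun_prop)]
  refine Finset.sum_eq_zero fun k _ => ?_
  rw [H.mul, H.x1, mul_zero]

theorem ave_bil_sq {n : ℕ} {c₂ : ℝ} (H : AV n c₂) (T : Matrix (Fin n) (Fin n) ℝ) (w : EE n) :
    ave (fun x => bil T x w ^ 2) = c₂ * ∑ k, Lk T w k ^ 2 := by
  have e : (fun x : EE n => bil T x w ^ 2) =
      fun x => ∑ k, ∑ l, (Lk T w k * Lk T w l) * (x k * x l) := by
    funext x
    rw [bil_eq, sq, Finset.sum_mul_sum]
    refine Finset.sum_congr rfl fun k _ => Finset.sum_congr rfl fun l _ => ?_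
    ring
  rw [e, ave_sum H _ _ (fun k => by fun_prop), Finset.mul_sum]
  refine Finset.sum_congr rfl fun k _ => ?_
  rw [ave_sum H _ _ (fun l => by fun_prop)]
  simp only [H.mul, H.x2, mul_ite, mul_zero]
  rw [Finset.sum_ite_eq Finset.univ k]
  simp only [Finset.mem_univ, if_true]
  ring

theorem bil_bound {n : ℕ} (T : Matrix (Fin n) (Fin n) ℝ) (x w : EE n) (N : ℝ) (hN : 0 ≤ N)
    (hT : ∑ k, ∑ l, T k l ^ 2 ≤ N ^ 2) (hx : x ∈ Bn n) (hw : ∑ k, |w k| ≤ 1) :
    |bil T x w| ≤ N := by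
  have hx2 : ∑ k, x k ^ 2 ≤ 1 := by
    have h1 : ‖x‖ ≤ 1 := by simpa [Bn] using hx
    have h2 : ‖x‖ ^ 2 = ∑ k, x k ^ 2 := by
      rw [EuclideanSpace.norm_sq_eq]
      simp
    rw [← h2]
    nlinarith [norm_nonneg x]
  have hw2 : ∑ k, w k ^ 2 ≤ 1 := by
    have h1 : ∑ k, w k ^ 2 ≤ ∑ k, |w k| := by
      refine Finset.sum_le_sum fun k _ => ?_
      have h3 : |w k| ≤ 1 :=
        (Finset.single_le_sum (f := fun k => |w k|) (fun k _ => abs_nonneg _)
          (Finset.mem_univ k)).trans hw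
      rw [← sq_abs]
      nlinarith [abs_nonneg (w k)]
    linarith
  have key : (bil T x w) ^ 2 ≤ N ^ 2 := by
    have e : bil T x w = ∑ z : Fin n × Fin n, T z.1 z.2 * (x z.1 * w z.2) := by
      rw [Fintype.sum_prod_type]
      unfold bil
      refine Finset.sum_congr rfl fun k _ => Finset.sum_congr rfl fun l _ => ?_
      ring
    rw [e]
    refine (Finset.sum_mul_sq_le_sq_mul_sq _ _ _).trans ?_
    have e1 : ∑ z : Fin n × Fin n, T z.1 z.2 ^ 2 = ∑ k, ∑ l, T k l ^ 2 := by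
      rw [Fintype.sum_prod_type]
    have e2 : ∑ z : Fin n × Fin n, (x z.1 * w z.2) ^ 2 = (∑ k, x k ^ 2) * ∑ l, w l ^ 2 := by
      rw [Fintype.sum_prod_type, Finset.sum_mul_sum]
      refine Finset.sum_congr rfl fun k _ => Finset.sum_congr rfl fun l _ => ?_
      ring
    rw [e1, e2]
    have h0 : 0 ≤ ∑ k, ∑ l, T k l ^ 2 := by positivity
    have h1 : 0 ≤ ∑ k, x k ^ 2 := by positivity
    have h2 : 0 ≤ ∑ l, w l ^ 2 := by positivity
    calc (∑ k, ∑ l, T k l ^ 2) * ((∑ k, x k ^ 2) * ∑ l, w l ^ 2)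
        ≤ N ^ 2 * (1 * 1) := by gcongr
      _ = N ^ 2 := by ring
  exact abs_le_of_sq_le_sq key hN

variable {n : ℕ} {ι : Type} [Fintype ι]

theorem cen_bil {p : ι → ℝ} {w : ι → EE n} (hcen : ∀ k, ∑ i, p i * w i k = 0)
    (T : Matrix (Fin n) (Fin n) ℝ) (x : EE n) : ∑ i, p i * bil T x (w i) = 0 := by
  have e : ∑ i, p i * bil T x (w i) = ∑ k, ∑ l, x k * T k l * ∑ i, p i * w i l := by
    simp only [bil, Finset.mul_sum]
    rw [Finset.sum_comm]
    refine Finset.sum_congr rfl fun k _ => ?_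
    rw [Finset.sum_comm]
    refine Finset.sum_congr rfl fun l _ => Finset.sum_congr rfl fun i _ => ?_
    ring
  rw [e]
  simp [hcen]

theorem main {c₂ : ℝ} (H : AV n c₂) {ε : ℝ} {p : ι → ℝ} {w : ι → EE n}
    (hp : ∀ i, 0 < p i) (hps : ∑ i, p i = 1) (hw : ∀ i, ∑ k, |w i k| ≤ 1)
    (hcen : ∀ k, ∑ i, p i * w i k = 0) (T : Matrix (Fin n) (Fin n) ℝ) (b : ι → ℝ)
    (hph : Continuous (ph ε w T b)) (hge : ∀ x i, bil T x (w i) - b i ≤ ph ε w T b x)
    (N : ℝ) (hN : 0 < N) (hT : ∑ k, ∑ l, T k l ^ 2 ≤ N ^ 2) :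
    c₂ / N * ∑ k, ∑ i, p i * Lk T (w i) k ^ 2 ≤ Fn ε p w T b := by
  have hbc : ∀ i, Continuous fun x : EE n => bil T x (w i) := fun i => bil_cont T (w i)
  have hle : ∀ x ∈ Bn n, (∑ i, (p i * bil T x (w i) + (-(p i * b i) +
      (p i / N * bil T x (w i) ^ 2 + (-(p i * b i / N)) * bil T x (w i))))) ≤ ph ε w T b x := by
    intro x hx
    have hq : ∀ i, 0 ≤ p i * (1 + bil T x (w i) / N) := by
      intro i
      have h1 := bil_bound T x (w i) N hN.le hT hx (hw i)
      have h2 : -1 ≤ bil T x (w i) / N := by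
        rw [le_div_iff₀ hN]
        linarith [(abs_le.1 h1).1]
      exact mul_nonneg (hp i).le (by linarith)
    have hqs : ∑ i, p i * (1 + bil T x (w i) / N) = 1 := by
      have h3 := cen_bil hcen T x
      have e : ∑ i, p i * (1 + bil T x (w i) / N) = ∑ i, p i + (∑ i, p i * bil T x (w i)) / N := by
        rw [Finset.sum_div, ← Finset.sum_add_distrib]
        refine Finset.sum_congr rfl fun i _ => ?_
        ring
      rw [e, hps, h3]; simp
    calc (∑ i, (p i * bil T x (w i) + (-(p i * b i) +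
          (p i / N * bil T x (w i) ^ 2 + (-(p i * b i / N)) * bil T x (w i)))))
        = ∑ i, p i * (1 + bil T x (w i) / N) * (bil T x (w i) - b i) := by
          refine Finset.sum_congr rfl fun i _ => ?_
          field_simp
          ring
      _ ≤ ∑ i, p i * (1 + bil T x (w i) / N) * ph ε w T b x :=
          Finset.sum_le_sum fun i _ => mul_le_mul_of_nonneg_left (hge x i) (hq i)
      _ = ph ε w T b x := by rw [← Finset.sum_mul, hqs, one_mul]
  have hav := H.mono _ _ (by fun_prop) hph hle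
  rw [ave_sum H _ _ (fun i => by fun_prop)] at hav
  have e : ∀ i, ave (fun x : EE n => p i * bil T x (w i) + (-(p i * b i) +
      (p i / N * bil T x (w i) ^ 2 + (-(p i * b i / N)) * bil T x (w i)))) =
      -(p i * b i) + p i / N * (c₂ * ∑ k, Lk T (w i) k ^ 2) := by
    intro i
    rw [H.add _ _ (by fun_prop) (by fun_prop), H.add _ _ (by fun_prop) (by fun_prop),
      H.add _ _ (by fun_prop) (by fun_prop), H.mul, H.mul, H.mul, H.const, ave_bil H,
      ave_bil_sq H]
    ring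
  simp only [e] at hav
  unfold Fn
  rw [Finset.sum_add_distrib, Finset.sum_neg_distrib] at hav
  have e2 : ∑ i, p i / N * (c₂ * ∑ k, Lk T (w i) k ^ 2) =
      c₂ / N * ∑ k, ∑ i, p i * Lk T (w i) k ^ 2 := by
    rw [Finset.sum_comm, Finset.mul_sum]
    refine Finset.sum_congr rfl fun i _ => ?_
    rw [← Finset.mul_sum]
    ring
  rw [e2] at hav
  linarith

end COE_

open COE_ in
theorem coe_proof (h1 : Stmt_AVE) (h2 : Stmt_LSE) : Stmt_COE := by
  intro n ι _ _ ε p w W hn hε hNF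
  obtain ⟨_, _, hadd, hmul, hconst, hmono, hx1, c₂, hc₂, hx2⟩ := h1 n hn
  have H : AV n c₂ := ⟨hadd, hmul, hconst, hmono, hx1, hc₂, hx2⟩
  have hn0 : (0 : ℝ) < n := by exact_mod_cast hn
  -- the rows
  have hrow : ∀ (T : Matrix (Fin n) (Fin n) ℝ) (k l : Fin n),
      T k l ^ 2 ≤ (n : ℝ) ^ 2 * ∑ i, p i * Lk T (w i) k ^ 2 := by
    intro T k l
    have hau := hNF.au (WithLp.toLp 2 (T k)) l
    have e : ∀ i, inner ℝ (w i) (WithLp.toLp 2 (T k) : EE n) = Lk T (w i) k := by
      intro i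
      rw [PiLp.inner_apply]
      unfold Lk
      refine Finset.sum_congr rfl fun j _ => ?_
      simp
    simp only [e] at hau
    have hau' : |T k l| ≤ n * ∑ i, p i * |Lk T (w i) k| := hau
    have hcs : (∑ i, p i * |Lk T (w i) k|) ^ 2 ≤ ∑ i, p i * Lk T (w i) k ^ 2 := by
      have h3 := Finset.sum_mul_sq_le_sq_mul_sq Finset.univ (fun i => √(p i))
        (fun i => √(p i) * |Lk T (w i) k|)
      have e1 : ∑ i, √(p i) * (√(p i) * |Lk T (w i) k|) = ∑ i, p i * |Lk T (w i) k| := by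
        refine Finset.sum_congr rfl fun i _ => ?_
        rw [← mul_assoc, Real.mul_self_sqrt (hNF.ppos i).le]
      have e2 : ∑ i, √(p i) ^ 2 = 1 := by
        rw [← hNF.psum]
        refine Finset.sum_congr rfl fun i _ => Real.sq_sqrt (hNF.ppos i).le
      have e3 : ∑ i, (√(p i) * |Lk T (w i) k|) ^ 2 = ∑ i, p i * Lk T (w i) k ^ 2 := by
        refine Finset.sum_congr rfl fun i _ => ?_
        rw [mul_pow, Real.sq_sqrt (hNF.ppos i).le, sq_abs]
      rw [e1, e2, e3, one_mul] at h3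
      exact h3
    have hs0 : 0 ≤ ∑ i, p i * |Lk T (w i) k| :=
      Finset.sum_nonneg fun i _ => mul_nonneg (hNF.ppos i).le (abs_nonneg _)
    calc T k l ^ 2 = |T k l| ^ 2 := (sq_abs _).symm
      _ ≤ (n * ∑ i, p i * |Lk T (w i) k|) ^ 2 := by gcongr
      _ = (n : ℝ) ^ 2 * (∑ i, p i * |Lk T (w i) k|) ^ 2 := by ring
      _ ≤ (n : ℝ) ^ 2 * ∑ i, p i * Lk T (w i) k ^ 2 := by gcongr
  have hfirst : ∀ (T : Matrix (Fin n) (Fin n) ℝ) (b : ι → ℝ) (k l : Fin n),
      c₂ / (n : ℝ) ^ 3 * |T k l| ≤ Fn ε p w T b := by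
    intro T b k l
    obtain ⟨hge, hcont, _⟩ := h2 n ι ε w T b hε
    have hm := main H hNF.ppos hNF.psum hNF.wl1 hNF.cen T b hcont hge
    by_cases hT : ∑ k, ∑ l, T k l ^ 2 = 0
    · have h4 := hm 1 one_pos (by rw [hT]; norm_num)
      have h5 : 0 ≤ c₂ / 1 * ∑ k, ∑ i, p i * Lk T (w i) k ^ 2 := by
        refine mul_nonneg (by positivity) (Finset.sum_nonneg fun k _ =>
          Finset.sum_nonneg fun i _ => mul_nonneg (hNF.ppos i).le (sq_nonneg _))
      have h6 : T k l = 0 := by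
        have h7 := (Finset.sum_eq_zero_iff_of_nonneg (fun k _ => by positivity)).1 hT k
          (Finset.mem_univ k)
        have h8 := (Finset.sum_eq_zero_iff_of_nonneg (fun l _ => by positivity)).1 h7 l
          (Finset.mem_univ l)
        exact pow_eq_zero_iff (two_ne_zero) |>.1 h8
      rw [h6, abs_zero, mul_zero]
      linarith
    · have hT0 : 0 < ∑ k, ∑ l, T k l ^ 2 :=
        lt_of_le_of_ne (by positivity) (Ne.symm hT)
      set N : ℝ := √(∑ k, ∑ l, T k l ^ 2) with hNdef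
      have hN0 : 0 < N := Real.sqrt_pos.2 hT0
      have hN2 : N ^ 2 = ∑ k, ∑ l, T k l ^ 2 := Real.sq_sqrt hT0.le
      have h4 := hm N hN0 hN2.ge
      have h5 : N ^ 2 ≤ (n : ℝ) ^ 3 * ∑ k, ∑ i, p i * Lk T (w i) k ^ 2 := by
        rw [hN2]
        calc ∑ k, ∑ l, T k l ^ 2
            ≤ ∑ k, ∑ _l : Fin n, (n : ℝ) ^ 2 * ∑ i, p i * Lk T (w i) k ^ 2 :=
              Finset.sum_le_sum fun k _ => Finset.sum_le_sum fun l _ => hrow T k l
          _ = (n : ℝ) ^ 3 * ∑ k, ∑ i, p i * Lk T (w i) k ^ 2 := by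
              simp only [Finset.sum_const, Finset.card_univ, Fintype.card_fin, nsmul_eq_mul]
              rw [← Finset.mul_sum, ← Finset.mul_sum]
              ring
      have h6 : |T k l| ≤ N := by
        apply abs_le_of_sq_le_sq _ hN0.le
        rw [hN2]
        calc T k l ^ 2 ≤ ∑ l, T k l ^ 2 :=
              Finset.single_le_sum (f := fun l => T k l ^ 2) (fun l _ => sq_nonneg _)
                (Finset.mem_univ l)
          _ ≤ ∑ k, ∑ l, T k l ^ 2 :=
              Finset.single_le_sum (f := fun k => ∑ l, T k l ^ 2) (fun k _ => by positivity)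
                (Finset.mem_univ k)
      calc c₂ / (n : ℝ) ^ 3 * |T k l| ≤ c₂ / (n : ℝ) ^ 3 * N := by gcongr
        _ = c₂ / N * (N ^ 2 / (n : ℝ) ^ 3) := by field_simp
        _ ≤ c₂ / N * ∑ k, ∑ i, p i * Lk T (w i) k ^ 2 := by
            have : N ^ 2 / (n : ℝ) ^ 3 ≤ ∑ k, ∑ i, p i * Lk T (w i) k ^ 2 := by
              rw [div_le_iff₀ (by positivity)]
              linarith
            gcongr
        _ ≤ Fn ε p w T b := h4
  refine ⟨⟨c₂ / (n : ℝ) ^ 3, by positivity, hfirst⟩, ?_⟩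
  intro T b hb j
  obtain ⟨hge, hcont, _⟩ := h2 n ι ε w T b hε
  have hF0 : 0 ≤ Fn ε p w T b := by
    have k0 : Fin n := ⟨0, hn⟩
    refine le_trans ?_ (hfirst T b k0 k0)
    positivity
  have hbj : ∀ i, -(Fn ε p w T b) ≤ b i := by
    intro i
    have h3 : ave (fun x : EE n => bil T x (w i) + (-b i)) ≤ ave (ph ε w T b) :=
      H.mono _ _ ((bil_cont T (w i)).add continuous_const) hcont
        (fun x _ => by have := hge x i; linarith)
    rw [H.add _ _ (bil_cont T (w i)) continuous_const, ave_bil H, H.const, zero_add] at h3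
    have h4 : Fn ε p w T b = ave (ph ε w T b) := by unfold Fn; rw [hb, add_zero]
    rw [h4]
    linarith
  refine ⟨hbj j, ?_⟩
  classical
  have h5 : p j * b j = -∑ i ∈ Finset.univ.erase j, p i * b i := by
    have := Finset.add_sum_erase Finset.univ (fun i => p i * b i) (Finset.mem_univ j)
    linarith
  have h6 : ∑ i ∈ Finset.univ.erase j, p i * (-(Fn ε p w T b)) ≤
      ∑ i ∈ Finset.univ.erase j, p i * b i :=
    Finset.sum_le_sum fun i _ => mul_le_mul_of_nonneg_left (hbj i) (hNF.ppos i).le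
  have h7 : p j + ∑ i ∈ Finset.univ.erase j, p i = 1 := by
    rw [Finset.add_sum_erase Finset.univ p (Finset.mem_univ j), hNF.psum]
  rw [← Finset.sum_mul] at h6
  have hpj := hNF.ppos j
  rw [h5]
  nlinarith

end PPI
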