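import Pool.Agent.PPI.Stmts

/-!
# PPI, module DER: derivative of the functional along a line
-/

set_option autoImplicit false

namespace PPI

open MeasureTheory Set Filter Topology
open scoped ENNReal Pointwise

namespace DER_

variable {n : ℕ} {ι : Type} [Fintype ι] [Nonempty ι]

lemma bil_add (T M : Matrix (Fin n) (Fin n) ℝ) (t : ℝ) (x y : EE n) :
    bil (T + t • M) x y = bil T x y + t * bil M x y := by
  unfold bil
  rw [Finset.mul_sum, ← Finset.sum_add_distrib]
  refine Finset.sum_congr rfl fun k _ => ?_
  rw [Finset.mul_sum, ← Finset.sum_add_distrib]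
  refine Finset.sum_congr rfl fun l _ => ?_
  simp only [Matrix.add_apply, Matrix.smul_apply, smul_eq_mul]
  ring

lemma bil_cont (T : Matrix (Fin n) (Fin n) ℝ) (y : EE n) : Continuous fun x : EE n => bil T x y := by
  unfold bil
  fun_prop

lemma sum_pos' (z : ι → ℝ) : 0 < ∑ i, Real.exp (z i) :=
  Finset.sum_pos (fun i _ => Real.exp_pos _) Finset.univ_nonempty

/-- derivative of the log-sum-exp along a line -/
lemma lse_deriv (ε : ℝ) (hε : 0 < ε) (z z' : ι → ℝ) (t : ℝ) :
    HasDerivAt (fun t : ℝ => ε * Real.log (∑ i, Real.exp ((z i + t * z' i) / ε)))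
      (∑ i, Real.exp ((z i + t * z' i) / ε) / (∑ j, Real.exp ((z j + t * z' j) / ε)) * z' i) t := by
  have h1 : ∀ i : ι, HasDerivAt (fun t : ℝ => Real.exp ((z i + t * z' i) / ε))
      (Real.exp ((z i + t * z' i) / ε) * (z' i / ε)) t := by
    intro i
    have h2 : HasDerivAt (fun t : ℝ => (z i + t * z' i) / ε) (z' i / ε) t := by
      have h3 := (((hasDerivAt_id t).mul_const (z' i)).const_add (z i)).div_const ε
      simpa using h3
    exact h2.exp
  have h2 : HasDerivAt (fun t : ℝ => ∑ i, Real.exp ((z i + t * z' i) / ε))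
      (∑ i, Real.exp ((z i + t * z' i) / ε) * (z' i / ε)) t :=
    HasDerivAt.fun_sum fun i _ => h1 i
  have h3 := (h2.log (sum_pos' _).ne').const_mul ε
  have h4 : (∑ i, Real.exp ((z i + t * z' i) / ε) / (∑ j, Real.exp ((z j + t * z' j) / ε)) * z' i) =
      ε * ((∑ i, Real.exp ((z i + t * z' i) / ε) * (z' i / ε)) /
        (∑ i, Real.exp ((z i + t * z' i) / ε))) := by
    rw [Finset.sum_div, Finset.mul_sum]
    refine Finset.sum_congr rfl fun i _ => ?_
    field_simp
  rw [h4]
  exact h3

lemma wt_bound (z z' : ι → ℝ) :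
    |∑ i, Real.exp (z i) / (∑ j, Real.exp (z j)) * z' i| ≤ ∑ i, |z' i| := by
  refine (Finset.abs_sum_le_sum_abs _ _).trans (Finset.sum_le_sum fun i _ => ?_)
  rw [abs_mul]
  have h1 : 0 ≤ Real.exp (z i) / (∑ j, Real.exp (z j)) :=
    div_nonneg (Real.exp_pos _).le (sum_pos' z).le
  have h2 : Real.exp (z i) / (∑ j, Real.exp (z j)) ≤ 1 := by
    rw [div_le_one (sum_pos' z)]
    exact Finset.single_le_sum (f := fun j => Real.exp (z j)) (fun j _ => (Real.exp_pos _).le)
      (Finset.mem_univ i)
  rw [abs_of_nonneg h1]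
  exact mul_le_of_le_one_left (abs_nonneg _) h2

end DER_

open DER_ in
theorem der_proof (h1 : Stmt_AVE) : Stmt_DER := by
  intro n ι _ _ ε p w T M b d hn hε
  obtain ⟨hk, hint, -, -, -, -, -, -⟩ := h1 n hn
  have zc : ∀ (T : Matrix (Fin n) (Fin n) ℝ) (b : ι → ℝ) (i : ι),
      Continuous fun x : EE n => bil T x (w i) - b i := fun T b i =>
    (bil_cont T (w i)).sub continuous_const
  have hphc : ∀ (T : Matrix (Fin n) (Fin n) ℝ) (b : ι → ℝ), Continuous (ph ε w T b) := by
    intro T b
    unfold ph
    refine continuous_const.mul (Continuous.log ?_ fun x => (sum_pos' _).ne')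
    exact continuous_finset_sum _ fun i _ => Real.continuous_exp.comp ((zc T b i).div_const ε)
  have hwsc : ∀ i : ι, Continuous fun x => ws ε w T b x i := by
    intro i
    unfold ws
    refine Continuous.div ?_ ?_ fun x => (sum_pos' _).ne'
    · exact Real.continuous_exp.comp ((zc T b i).div_const ε)
    · exact continuous_finset_sum _ fun i _ => Real.continuous_exp.comp ((zc T b i).div_const ε)
  have key : HasDerivAt (fun t : ℝ => ∫ x in Bn n, ph ε w (T + t • M) (b + t • d) x)
      (∫ x in Bn n, ∑ i, ws ε w T b x i * (bil M x (w i) - d i)) 0 := by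
    have hz : ∀ (t : ℝ) (x : EE n) (i : ι), (bil (T + t • M) x (w i) - (b + t • d) i) =
        (bil T x (w i) - b i) + t * (bil M x (w i) - d i) := by
      intro t x i
      rw [bil_add, Pi.add_apply, Pi.smul_apply, smul_eq_mul]
      ring
    have hD := hasDerivAt_integral_of_dominated_loc_of_deriv_le (μ := volume.restrict (Bn n))
      (F := fun (t : ℝ) (x : EE n) => ph ε w (T + t • M) (b + t • d) x)
      (F' := fun (t : ℝ) (x : EE n) => ∑ i, ws ε w (T + t • M) (b + t • d) x i *
        (bil M x (w i) - d i))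
      (x₀ := (0 : ℝ)) (s := univ) (bound := fun x => ∑ i, |bil M x (w i) - d i|)
      univ_mem
      (Filter.Eventually.of_forall fun t => (hphc _ _).aestronglyMeasurable)
      (hint _ (hphc _ _))
      (by
        have e : (fun x : EE n => ∑ i, ws ε w (T + (0 : ℝ) • M) (b + (0 : ℝ) • d) x i *
            (bil M x (w i) - d i)) = fun x => ∑ i, ws ε w T b x i * (bil M x (w i) - d i) := by
          simp only [zero_smul, add_zero]
        rw [e]
        exact (continuous_finset_sum _ fun i _ =>
          (hwsc i).mul (zc M d i)).aestronglyMeasurable)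
      (Filter.Eventually.of_forall fun x t _ => by
        rw [Real.norm_eq_abs]
        exact wt_bound (fun i => (bil (T + t • M) x (w i) - (b + t • d) i) / ε) _)
      (hint _ (continuous_finset_sum _ fun i _ => (zc M d i).abs))
      (Filter.Eventually.of_forall fun x t _ => by
        have h2 := lse_deriv ε hε (fun i => bil T x (w i) - b i) (fun i => bil M x (w i) - d i) t
        have e1 : (fun t : ℝ => ph ε w (T + t • M) (b + t • d) x) = fun t : ℝ => ε * Real.log
            (∑ i, Real.exp (((bil T x (w i) - b i) + t * (bil M x (w i) - d i)) / ε)) := by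
          funext s
          unfold ph
          simp only [hz]
        have e2 : (∑ i, ws ε w (T + t • M) (b + t • d) x i * (bil M x (w i) - d i)) =
            ∑ i, Real.exp (((bil T x (w i) - b i) + t * (bil M x (w i) - d i)) / ε) /
              (∑ j, Real.exp (((bil T x (w j) - b j) + t * (bil M x (w j) - d j)) / ε)) *
              (bil M x (w i) - d i) := by
          unfold ws
          simp only [hz]
        rw [e1, e2]
        exact h2)
    have h3 := hD.2
    have e : (∫ x in Bn n, ∑ i, ws ε w (T + (0 : ℝ) • M) (b + (0 : ℝ) • d) x i *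
            (bil M x (w i) - d i)) = ∫ x in Bn n, ∑ i, ws ε w T b x i * (bil M x (w i) - d i) := by
      simp only [zero_smul, add_zero]
    rw [← e]
    exact h3
  have hlin : HasDerivAt (fun t : ℝ => ∑ i, p i * (b + t • d) i) (∑ i, p i * d i) 0 := by
    refine HasDerivAt.fun_sum fun i _ => ?_
    have h4 : HasDerivAt (fun t : ℝ => b i + t * d i) (d i) 0 := by
      have h5 := ((hasDerivAt_id (0 : ℝ)).mul_const (d i)).const_add (b i)
      simpa using h5
    exact h4.const_mul (p i)
  have hfin := (key.div_const (kap n)).add hlin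
  unfold Fn ave
  exact hfin

end PPI
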