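import Pool.Agent.PPI.Stmts

set_option autoImplicit false

namespace PPI

open MeasureTheory Set

theorem dtl_proof : Stmt_DTL := by
  intro n x hx
  unfold dt
  rw [Matrix.det_apply']
  calc |∑ σ : Equiv.Perm (Fin n), ((Equiv.Perm.sign σ : ℤ) : ℝ) *
        ∏ i, (Matrix.of fun k j => x k j) (σ i) i|
      ≤ ∑ σ : Equiv.Perm (Fin n), |((Equiv.Perm.sign σ : ℤ) : ℝ) *
        ∏ i, (Matrix.of fun k j => x k j) (σ i) i| := Finset.abs_sum_le_sum_abs _ _
    _ = ∑ σ : Equiv.Perm (Fin n), ∏ k, |x k (σ⁻¹ k)| := by
        apply Finset.sum_congr rfl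
        intro σ _
        rw [abs_mul, Finset.abs_prod]
        have h1 : |((Equiv.Perm.sign σ : ℤ) : ℝ)| = 1 := by
          rcases Int.units_eq_one_or (Equiv.Perm.sign σ) with h | h <;> rw [h] <;> simp
        rw [h1, one_mul]
        have := Equiv.prod_comp σ (fun k => |x k (σ⁻¹ k)|)
        rw [← this]
        apply Finset.prod_congr rfl
        intro i _
        simp [Matrix.of_apply]
    _ = ∑ σ : Equiv.Perm (Fin n), ∏ k, |x k (σ k)| := by
        exact Equiv.sum_comp (Equiv.inv (Equiv.Perm (Fin n))) (fun σ => ∏ k, |x k (σ k)|)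
    _ ≤ ∑ f : Fin n → Fin n, ∏ k, |x k (f k)| := by
        have hinj : Function.Injective (fun (σ : Equiv.Perm (Fin n)) => (σ : Fin n → Fin n)) :=
          fun a b h => Equiv.ext (fun i => congrFun h i)
        calc ∑ σ : Equiv.Perm (Fin n), ∏ k, |x k (σ k)|
            = ∑ f ∈ Finset.univ.image (fun (σ : Equiv.Perm (Fin n)) => (σ : Fin n → Fin n)),
                ∏ k, |x k (f k)| := by
              rw [Finset.sum_image]
              intro a _ b _ h
              exact hinj h
          _ ≤ _ := by
              apply Finset.sum_le_sum_of_subset_of_nonneg (Finset.subset_univ _)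
              intro f _ _
              exact Finset.prod_nonneg (fun i _ => abs_nonneg _)
    _ = ∏ k, ∑ l, |x k l| := by
        rw [Finset.prod_univ_sum]
        simp [Fintype.piFinset_univ]
    _ ≤ 1 := by
        apply Finset.prod_le_one
        · intro k _
          exact Finset.sum_nonneg (fun i _ => abs_nonneg _)
        · intro k _
          exact hx k

end PPI
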