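import Mathlib

/-!
# Squad PPI (MP_0bf616_gt): basic definitions

Petty's conjectured projection inequality up to a factor `exp (-C √n log n)`:
`|ΠK| ≥ exp (-C √n log n) κ_{n-1}^n κ_n^{2-n} |K|^{n-1}` for all convex bodies in `R^n`.
-/

set_option autoImplicit false

namespace PPI

open MeasureTheory Set
open scoped ENNReal Pointwise

noncomputable section

/-- Euclidean space of dimension `n`. -/
abbrev EE (n : ℕ) := EuclideanSpace ℝ (Fin n)

/-- volume as a real number -/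
def vl {n : ℕ} (C : Set (EE n)) : ℝ := (volume C).toReal

/-- the closed unit ball -/
def Bn (n : ℕ) : Set (EE n) := Metric.closedBall (0 : EE n) 1

/-- volume of the unit ball -/
def kap (n : ℕ) : ℝ := vl (Bn n)

/-- The hyperplane `u^⊥`. -/
def hyp {n : ℕ} (u : EE n) : Submodule ℝ (EE n) := (ℝ ∙ u)ᗮ

/-- The Lebesgue measure (canonical volume) of a subset `S` of a finite-dimensional Euclidean
space `F`, as a real number. -/
def vol (F : Type) [NormedAddCommGroup F] [InnerProductSpace ℝ F]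
    [FiniteDimensional ℝ F] [MeasurableSpace F] [BorelSpace F] (S : Set F) : ℝ :=
  ((measureSpaceOfInnerProductSpace (E := F)).volume S).toReal

/-- The orthogonal projection `K | u^⊥` of `K` onto `u^⊥`: all `y` in `u^⊥` such that the line
`y + R u` meets `K`. -/
def projSet {n : ℕ} (K : Set (EE n)) (u : EE n) : Set ↥(hyp u) :=
  {y | ∃ a : ℝ, (y : EE n) + a • u ∈ K}

/-- `vol_{n-1}(K | u^⊥)`, the `(n-1)`-dimensional Lebesgue measure of the projection. -/
def shadow {n : ℕ} (K : Set (EE n)) (u : EE n) : ℝ := vol ↥(hyp u) (projSet K u)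

/-- The projection body `Π K`: the convex body with support function `u ↦ vol_{n-1}(K | u^⊥)`. -/
def projBody {n : ℕ} (K : Set (EE n)) : Set (EE n) :=
  {y | ∀ u : EE n, ‖u‖ = 1 → inner ℝ u y ≤ shadow K u}

/-- determinant of `n` vectors of `R^n` (the rows of the matrix) -/
def dt {n : ℕ} (x : Fin n → EE n) : ℝ := Matrix.det (Matrix.of fun k j => x k j)

/-- `∑ ∏ a |det v|` over all `n`-tuples of indices; `XT a v / n!` is the volume of the zonotope
`∑ a_i [-v_i/2, v_i/2]` -/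
def XT {n : ℕ} {ι : Type} [Fintype ι] (a : ι → ℝ) (v : ι → EE n) : ℝ :=
  ∑ f : Fin n → ι, (∏ k, a (f k)) * |dt (fun k => v (f k))|

/-- the zonotope `∑ a_i [-v_i/2, v_i/2]` -/
def zon {n : ℕ} {ι : Type} [Fintype ι] (a : ι → ℝ) (v : ι → EE n) : Set (EE n) :=
  {y | ∀ u : EE n, ‖u‖ = 1 → 2 * inner ℝ u y ≤ ∑ i, a i * |inner ℝ (v i) u|}

/-! ### Polytopes and their cells -/

/-- the polyhedron `⟪v_i, x⟫ ≤ 1` -/
def Pol {n N : ℕ} (v : Fin N → EE n) : Set (EE n) := {x | ∀ i, inner ℝ (v i) x ≤ 1}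

/-- the cone over the `i`-th facet (ties are given to the smallest index) -/
def cn {n N : ℕ} (v : Fin N → EE n) (i : Fin N) : Set (EE n) :=
  {x | ∀ j, inner ℝ (v j) x ≤ inner ℝ (v i) x ∧ (j < i → inner ℝ (v j) x < inner ℝ (v i) x)}

/-- the part of the cone `cn v i` where `⟪v_i, x⟫ ≤ s` -/
def cell {n N : ℕ} (v : Fin N → EE n) (i : Fin N) (s : ℝ) : Set (EE n) :=
  {x | x ∈ cn v i ∧ inner ℝ (v i) x ≤ s}

/-- `n` times the volume of the cone over the `i`-th facet -/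
def fa {n N : ℕ} (v : Fin N → EE n) (i : Fin N) : ℝ := n * vl (cell v i 1)

/-! ### Families of vectors satisfying Minkowski's inequality -/

/-- a finite family of masses `a_i > 0` and vectors `v_i ≠ 0` satisfying Minkowski's inequality
`n^n W |L| ≤ (∑ a_i h_L(v_i))^n` -/
structure MK {n : ℕ} {ι : Type} [Fintype ι] (a : ι → ℝ) (v : ι → EE n) (W : ℝ) : Prop where
  pos : ∀ i, 0 < a i
  ne : ∀ i, v i ≠ 0
  mink : ∀ (L : Set (EE n)) (c : ι → ℝ), IsCompact L → Convex ℝ L → L.Nonempty →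
    (∀ i, ∀ x ∈ L, inner ℝ (v i) x ≤ c i) →
    0 ≤ ∑ i, a i * c i ∧ (n : ℝ) ^ n * W * vl L ≤ (∑ i, a i * c i) ^ n

/-- normal form: `p_i > 0`, `∑ p_i = 1`, `|w_i|_1 ≤ 1`, Auerbach position, centred, Minkowski -/
structure NF {n : ℕ} {ι : Type} [Fintype ι] (p : ι → ℝ) (w : ι → EE n) (W : ℝ) : Prop where
  ppos : ∀ i, 0 < p i
  psum : ∑ i, p i = 1
  wl1 : ∀ i, ∑ k, |w i k| ≤ 1
  au : ∀ (y : EE n) (k : Fin n), |y k| ≤ n * ∑ i, p i * |inner ℝ (w i) y|
  cen : ∀ k, ∑ i, p i * w i k = 0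
  mink : ∀ (L : Set (EE n)) (c : ι → ℝ), IsCompact L → Convex ℝ L → L.Nonempty →
    (∀ i, ∀ x ∈ L, inner ℝ (w i) x ≤ c i) → W * vl L ≤ (2 * ∑ i, p i * c i) ^ n

/-! ### Averages over the ball, softmax potentials -/

/-- average over the unit ball -/
def ave {n : ℕ} (f : EE n → ℝ) : ℝ := (∫ x in Bn n, f x) / kap n

/-- `∑ x_k T_kl y_l` -/
def bil {n : ℕ} (T : Matrix (Fin n) (Fin n) ℝ) (x y : EE n) : ℝ := ∑ k, ∑ l, x k * T k l * y l

/-- the softmax potential `ε log ∑ exp ((⟨x, T w_i⟩ - b_i) / ε)` -/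
def ph {n : ℕ} {ι : Type} [Fintype ι] (ε : ℝ) (w : ι → EE n) (T : Matrix (Fin n) (Fin n) ℝ)
    (b : ι → ℝ) (x : EE n) : ℝ :=
  ε * Real.log (∑ i, Real.exp ((bil T x (w i) - b i) / ε))

/-- the softmax weights -/
def ws {n : ℕ} {ι : Type} [Fintype ι] (ε : ℝ) (w : ι → EE n) (T : Matrix (Fin n) (Fin n) ℝ)
    (b : ι → ℝ) (x : EE n) (i : ι) : ℝ :=
  Real.exp ((bil T x (w i) - b i) / ε) / ∑ j, Real.exp ((bil T x (w j) - b j) / ε)

/-- the functional to be minimised over `det T = 1` and `b` -/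
def Fn {n : ℕ} {ι : Type} [Fintype ι] (ε : ℝ) (p : ι → ℝ) (w : ι → EE n)
    (T : Matrix (Fin n) (Fin n) ℝ) (b : ι → ℝ) : ℝ :=
  ave (ph ε w T b) + ∑ i, p i * b i

/-- the matrix `E (x ⊗ w)` of the coupling given by the weights `ws` -/
def Gm {n : ℕ} {ι : Type} [Fintype ι] (ε : ℝ) (w : ι → EE n) (T : Matrix (Fin n) (Fin n) ℝ)
    (b : ι → ℝ) : Matrix (Fin n) (Fin n) ℝ :=
  Matrix.of fun k l => ave (fun x => ∑ i, ws ε w T b x i * (x k * w i l))

/-! ### Determinant moments -/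

/-- the product of `n` unit balls -/
def Bp (n : ℕ) : Set (Fin n → EE n) := Set.univ.pi fun _ => Bn n

/-- moments of the determinant of `n` random points of the ball -/
def mom (n q : ℕ) : ℝ := (∫ x in Bp n, dt x ^ (2 * q)) / kap n ^ n

/-- Gaussian moments of the determinant (not normalised) -/
def gm (n q : ℕ) : ℝ := ∫ x : Fin n → EE n, dt x ^ (2 * q) * ∏ k, Real.exp (-(‖x k‖ ^ 2 / 2))

/-- Gaussian moments of the norm (not normalised) -/
def ga (m q : ℕ) : ℝ := ∫ x : EE m, ‖x‖ ^ (2 * q) * Real.exp (-(‖x‖ ^ 2 / 2))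

/-- `∫_0^∞ s^(n+2q+1) exp (-s²/2) ds` -/
def cc (n q : ℕ) : ℝ := ∫ s in Set.Ioi (0 : ℝ), s ^ (n + 2 * q + 1) * Real.exp (-(s ^ 2 / 2))

/-- the parameter of the truncation -/
def th (n q : ℕ) : ℝ :=
  √((n.factorial : ℝ) / (n : ℝ) ^ n) *
    Real.exp (q * (1 + Real.log n) + n * Real.log n / (2 * q))

end

end PPI
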