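import Pool.Agent.PPI.Stmts

/-!
# PPI, module FIN (assembly): the final theorem
-/

set_option autoImplicit false

namespace PPI

open MeasureTheory Set

theorem fin_proof (hAVE : Stmt_AVE) (hBOD : Stmt_BOD) (hNUA : Stmt_NUA) (hNUB : Stmt_NUB) :
    Stmt_FIN := by
  obtain ⟨C, hC, hq⟩ := hNUB
  refine ⟨C, fun n hn K hc hK hint => ?_⟩
  obtain ⟨q, hq1, hnum⟩ := hq n hn
  have hn1 : 1 ≤ n := by omega
  have hnR : (0 : ℝ) < n := by exact_mod_cast hn1
  have hkap : 0 < kap n := (hAVE n hn1).1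
  have hfac : (0 : ℝ) < n.factorial := by exact_mod_cast n.factorial_pos
  have hb := hBOD n q K hn hq1 hc hK hint
  have hA := hNUA n hn
  have hvK : 0 ≤ vl K := ENNReal.toReal_nonneg
  have hvP : 0 ≤ vl (projBody K) := ENNReal.toReal_nonneg
  set E : ℝ := Real.exp (q * (1 + Real.log n) + n * Real.log n / (2 * q)) with hE
  have hEpos : 0 < E := Real.exp_pos _
  set s : ℝ := √((n.factorial : ℝ) / (n : ℝ) ^ n) with hs
  set s' : ℝ := √((n : ℝ) ^ n / n.factorial) with hs'
  have hss : s' * s = 1 := by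
    rw [hs, hs', ← Real.sqrt_mul (by positivity)]
    have : (n : ℝ) ^ n / n.factorial * (n.factorial / (n : ℝ) ^ n) = 1 := by
      field_simp
    rw [this, Real.sqrt_one]
  have hs'pos : 0 ≤ s' := Real.sqrt_nonneg _
  have hth : th n q = s * E := rfl
  have h1 : kap n * vl K ^ (n - 1) * s' ≤ 8 * Real.exp 1 * (n + 1) * E * vl (projBody K) := by
    calc kap n * vl K ^ (n - 1) * s'
        ≤ 8 * Real.exp 1 * (n + 1) * th n q * vl (projBody K) * s' :=
          mul_le_mul_of_nonneg_right hb hs'pos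
      _ = 8 * Real.exp 1 * (n + 1) * E * vl (projBody K) * (s' * s) := by rw [hth]; ring
      _ = 8 * Real.exp 1 * (n + 1) * E * vl (projBody K) := by rw [hss, mul_one]
  have h2 : kap (n - 1) ^ n / kap n ^ (n - 2) * vl K ^ (n - 1) ≤
      Real.exp (C * √n * Real.log n) * vl (projBody K) := by
    calc kap (n - 1) ^ n / kap n ^ (n - 2) * vl K ^ (n - 1)
        ≤ √(Real.exp 1) * kap n * s' * vl K ^ (n - 1) :=
          mul_le_mul_of_nonneg_right hA (by positivity)
      _ = √(Real.exp 1) * (kap n * vl K ^ (n - 1) * s') := by ring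
      _ ≤ √(Real.exp 1) * (8 * Real.exp 1 * (n + 1) * E * vl (projBody K)) :=
          mul_le_mul_of_nonneg_left h1 (Real.sqrt_nonneg _)
      _ = √(Real.exp 1) * (8 * Real.exp 1 * (n + 1)) * E * vl (projBody K) := by ring
      _ ≤ Real.exp (C * √n * Real.log n) * vl (projBody K) :=
          mul_le_mul_of_nonneg_right hnum hvP
  calc Real.exp (-(C * √n * Real.log n)) * (kap (n - 1) ^ n / kap n ^ (n - 2)) * vl K ^ (n - 1)
      = Real.exp (-(C * √n * Real.log n)) *
          (kap (n - 1) ^ n / kap n ^ (n - 2) * vl K ^ (n - 1)) := by ring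
    _ ≤ Real.exp (-(C * √n * Real.log n)) *
          (Real.exp (C * √n * Real.log n) * vl (projBody K)) :=
        mul_le_mul_of_nonneg_left h2 (Real.exp_pos _).le
    _ = vl (projBody K) := by
        rw [← mul_assoc, ← Real.exp_add, neg_add_cancel, Real.exp_zero, one_mul]

end PPI
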