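import Pool.Agent.PPI.Stmts

set_option autoImplicit false

namespace PPI

open MeasureTheory Set Filter Topology
open scoped ENNReal Pointwise

namespace FOC_

lemma ave_sum (hA : Stmt_AVE) {n : ℕ} (hn : 1 ≤ n) {ι : Type} (s : Finset ι)
    (f : ι → EE n → ℝ) (hf : ∀ i, Continuous (f i)) :
    ave (fun x => ∑ i ∈ s, f i x) = ∑ i ∈ s, ave (f i) := by
  classical
  obtain ⟨_, _, hadd, _, hc, _⟩ := hA n hn
  induction s using Finset.induction_on with
  | empty => simpa using hc 0
  | insert a s ha ih =>
    rw [Finset.sum_insert ha, ← ih]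
    have h := hadd (f a) (fun x => ∑ i ∈ s, f i x) (hf a)
      (continuous_finsetSum _ fun i _ => hf i)
    rw [← h]
    congr 1
    funext x
    rw [Finset.sum_insert ha]

lemma pairing (hA : Stmt_AVE) (hL : Stmt_LSE) {n : ℕ} {ι : Type} [Fintype ι] [Nonempty ι]
    (ε : ℝ) (w : ι → EE n) (T M : Matrix (Fin n) (Fin n) ℝ) (b : ι → ℝ) (hn : 1 ≤ n)
    (hε : 0 < ε) :
    ave (fun x => ∑ i, ws ε w T b x i * bil M x (w i)) = ∑ k, ∑ l, M k l * Gm ε w T b k l := by
  obtain ⟨_, _, hadd, hmul, hc, _⟩ := hA n hn
  obtain ⟨_, _, hws, _⟩ := hL n ι ε w T b hε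
  have h1 : (fun x : EE n => ∑ i, ws ε w T b x i * bil M x (w i)) =
      fun x => ∑ k, ∑ l, M k l * ∑ i, ws ε w T b x i * (x k * w i l) := by
    funext x
    unfold bil
    calc ∑ i, ws ε w T b x i * ∑ k, ∑ l, x k * M k l * w i l
        = ∑ i, ∑ k, ∑ l, M k l * (ws ε w T b x i * (x k * w i l)) := by
          refine Finset.sum_congr rfl fun i _ => ?_
          rw [Finset.mul_sum]
          refine Finset.sum_congr rfl fun k _ => ?_
          rw [Finset.mul_sum]
          refine Finset.sum_congr rfl fun l _ => ?_
          ring
      _ = ∑ k, ∑ l, M k l * ∑ i, ws ε w T b x i * (x k * w i l) := by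
          rw [Finset.sum_comm]
          refine Finset.sum_congr rfl fun k _ => ?_
          rw [Finset.sum_comm]
          refine Finset.sum_congr rfl fun l _ => ?_
          rw [Finset.mul_sum]
  have hcont : ∀ k l : Fin n,
      Continuous fun x : EE n => ∑ i, ws ε w T b x i * (x k * w i l) := by
    intro k l
    refine continuous_finsetSum _ fun i _ => (hws i).mul ?_
    fun_prop
  rw [h1, ave_sum hA hn Finset.univ
    (fun k x => ∑ l, M k l * ∑ i, ws ε w T b x i * (x k * w i l))
    (fun k => continuous_finsetSum _ fun l _ => (hcont k l).const_mul _)]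
  refine Finset.sum_congr rfl fun k _ => ?_
  rw [ave_sum hA hn Finset.univ (fun l x => M k l * ∑ i, ws ε w T b x i * (x k * w i l))
    (fun l => (hcont k l).const_mul _)]
  refine Finset.sum_congr rfl fun l _ => ?_
  rw [hmul]
  rfl

lemma det_tN {n : ℕ} (k l : Fin n) (hkl : k ≠ l) (t : ℝ) :
    (1 + t • (Matrix.of fun a b : Fin n =>
      ((if a = k then (1 : ℝ) else 0) - (if a = l then 1 else 0)) *
      ((if b = k then 1 else 0) + (if b = l then 1 else 0)))).det = 1 := by
  have h := Matrix.det_one_add_replicateCol_mul_replicateRow (ι := Unit) (α := ℝ)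
    (fun a : Fin n => t * ((if a = k then (1 : ℝ) else 0) - (if a = l then 1 else 0)))
    (fun b : Fin n => (if b = k then (1 : ℝ) else 0) + (if b = l then 1 else 0))
  have h2 : (Matrix.replicateCol Unit (fun a : Fin n =>
      t * ((if a = k then (1 : ℝ) else 0) - (if a = l then 1 else 0))) *
      Matrix.replicateRow Unit (fun b : Fin n =>
      (if b = k then (1 : ℝ) else 0) + (if b = l then 1 else 0))) =
      t • (Matrix.of fun a b : Fin n =>
      ((if a = k then (1 : ℝ) else 0) - (if a = l then 1 else 0)) *
      ((if b = k then 1 else 0) + (if b = l then 1 else 0))) := by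
    ext a b
    simp only [Matrix.mul_apply, Matrix.replicateCol_apply, Matrix.replicateRow_apply,
      Finset.univ_unique, Finset.sum_const, Finset.card_singleton, one_smul, Matrix.smul_apply,
      Matrix.of_apply, smul_eq_mul]
    ring
  rw [h2] at h
  rw [h]
  have h3 : (fun b : Fin n => (if b = k then (1 : ℝ) else 0) + (if b = l then 1 else 0)) ⬝ᵥ
      (fun a : Fin n => t * ((if a = k then (1 : ℝ) else 0) - (if a = l then 1 else 0))) = 0 := by
    unfold dotProduct
    have h4 : ∀ x : Fin n, ((if x = k then (1 : ℝ) else 0) + (if x = l then 1 else 0)) *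
        (t * ((if x = k then (1 : ℝ) else 0) - (if x = l then 1 else 0))) =
        t * (if x = k then (1 : ℝ) else 0) - t * (if x = l then (1 : ℝ) else 0) := by
      intro x
      by_cases h1 : x = k
      · by_cases h2 : x = l
        · exact absurd (h1.symm.trans h2) hkl
        · simp [h1, hkl]
      · by_cases h2 : x = l
        · simp [h2, Ne.symm hkl]
        · simp [h1, h2]
    rw [Finset.sum_congr rfl fun x _ => h4 x]
    simp
  rw [h3, add_zero]

end FOC_

open FOC_

theorem foc_proof (h1 : Stmt_DER) (h2 : Stmt_AVE) (h3 : Stmt_LSE) : Stmt_FOC := by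
  classical
  intro n ι _ _ ε p w T b hn hε hT hmin
  obtain ⟨_, _, hadd, hmul, hc, _⟩ := h2 n hn
  obtain ⟨_, _, hws, _⟩ := h3 n ι ε w T b hε
  -- derivative zero along admissible directions
  have key : ∀ (M : Matrix (Fin n) (Fin n) ℝ) (d : ι → ℝ), (∀ t : ℝ, (T + t • M).det = 1) →
      ave (fun x => ∑ i, ws ε w T b x i * (bil M x (w i) - d i)) + ∑ i, p i * d i = 0 := by
    intro M d hM
    have hd := h1 n ι ε p w T M b d hn hε
    have hloc : IsLocalMin (fun t : ℝ => Fn ε p w (T + t • M) (b + t • d)) 0 := by
      refine Eventually.of_forall fun t => ?_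
      simp only [zero_smul, add_zero]
      exact hmin _ _ (hM t)
    exact hloc.hasDerivAt_eq_zero hd
  refine ⟨?_, ?_⟩
  · intro i
    have h := key 0 (Pi.single i 1) (fun t => by rw [smul_zero, add_zero]; exact hT)
    have e1 : (fun x : EE n => ∑ j, ws ε w T b x j *
        (bil (0 : Matrix (Fin n) (Fin n) ℝ) x (w j) - (Pi.single i (1 : ℝ) : ι → ℝ) j)) =
        fun x => (-1) * ws ε w T b x i := by
      funext x
      have hb : ∀ j, bil (0 : Matrix (Fin n) (Fin n) ℝ) x (w j) = 0 := fun j => by
        simp [bil]
      rw [Finset.sum_eq_single i]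
      · rw [hb, Pi.single_eq_same]
        ring
      · intro j _ hj
        rw [hb, Pi.single_eq_of_ne hj]
        ring
      · intro hi
        exact absurd (Finset.mem_univ i) hi
    have e2 : ∑ j, p j * (Pi.single i (1 : ℝ) : ι → ℝ) j = p i := by
      rw [Finset.sum_eq_single i]
      · rw [Pi.single_eq_same, mul_one]
      · intro j _ hj
        rw [Pi.single_eq_of_ne hj, mul_zero]
      · intro hi
        exact absurd (Finset.mem_univ i) hi
    rw [e1, e2, hmul] at h
    linarith
  · set H : Matrix (Fin n) (Fin n) ℝ := T.transpose * Gm ε w T b with hH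
    have key2 : ∀ N : Matrix (Fin n) (Fin n) ℝ, (∀ t : ℝ, (1 + t • N).det = 1) →
        ∑ m, ∑ l, N m l * H m l = 0 := by
      intro N hN
      have h := key (T * N) 0 (fun t => by
        have : T + t • (T * N) = T * (1 + t • N) := by
          rw [Matrix.mul_add, Matrix.mul_one, Matrix.mul_smul]
        rw [this, Matrix.det_mul, hT, hN, mul_one])
      have e1 : (fun x : EE n => ∑ i, ws ε w T b x i *
          (bil (T * N) x (w i) - (0 : ι → ℝ) i)) =
          fun x => ∑ i, ws ε w T b x i * bil (T * N) x (w i) := by
        funext x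
        simp
      rw [e1, pairing h2 h3 ε w T (T * N) b hn hε] at h
      simp only [Pi.zero_apply, mul_zero, Finset.sum_const_zero, add_zero] at h
      rw [← h]
      calc ∑ m, ∑ l, N m l * H m l
          = ∑ m, ∑ l, ∑ k, T k m * N m l * Gm ε w T b k l := by
            refine Finset.sum_congr rfl fun m _ => Finset.sum_congr rfl fun l _ => ?_
            rw [hH, Matrix.mul_apply, Finset.mul_sum]
            refine Finset.sum_congr rfl fun k _ => ?_
            rw [Matrix.transpose_apply]
            ring
        _ = ∑ k, ∑ l, (T * N) k l * Gm ε w T b k l := by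
            have h5 : ∀ k l, (T * N) k l * Gm ε w T b k l =
                ∑ m, T k m * N m l * Gm ε w T b k l := by
              intro k l
              rw [Matrix.mul_apply, Finset.sum_mul]
            simp only [h5]
            calc ∑ m, ∑ l, ∑ k, T k m * N m l * Gm ε w T b k l
                = ∑ m, ∑ k, ∑ l, T k m * N m l * Gm ε w T b k l := by
                  refine Finset.sum_congr rfl fun m _ => ?_
                  rw [Finset.sum_comm]
              _ = ∑ k, ∑ m, ∑ l, T k m * N m l * Gm ε w T b k l := Finset.sum_comm
              _ = ∑ k, ∑ l, ∑ m, T k m * N m l * Gm ε w T b k l := by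
                  refine Finset.sum_congr rfl fun k _ => ?_
                  rw [Finset.sum_comm]
    have off : ∀ k l, k ≠ l → H k l = 0 := by
      intro k l hkl
      have h := key2 (Matrix.single k l 1) (fun t => by
        have h6 := Matrix.det_transvection_of_ne (R := ℝ) k l hkl t
        rw [Matrix.transvection] at h6
        have h7 : t • Matrix.single k l (1 : ℝ) = Matrix.single k l t := by
          rw [Matrix.smul_single, smul_eq_mul, mul_one]
        rw [h7]
        exact h6)
      rw [Finset.sum_eq_single k, Finset.sum_eq_single l] at h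
      · simpa using h
      · intro j _ hj
        rw [Matrix.single_apply_of_ne, zero_mul]
        intro h7
        exact hj h7.2.symm
      · intro hi
        exact absurd (Finset.mem_univ l) hi
      · intro j _ hj
        refine Finset.sum_eq_zero fun m _ => ?_
        rw [Matrix.single_apply_of_ne, zero_mul]
        intro h7
        exact hj h7.1.symm
      · intro hi
        exact absurd (Finset.mem_univ k) hi
    have diag : ∀ k l, H k k = H l l := by
      intro k l
      rcases eq_or_ne k l with rfl | hkl
      · rfl
      have h := key2 _ (det_tN k l hkl)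
      simp only [Matrix.of_apply] at h
      have h8 : ∀ m, ∑ j, (((if m = k then (1 : ℝ) else 0) - (if m = l then 1 else 0)) *
          ((if j = k then 1 else 0) + (if j = l then 1 else 0))) * H m j =
          (if m = k then H m k + H m l else 0) - (if m = l then H m k + H m l else 0) := by
        intro m
        have h9 : ∀ j, (((if m = k then (1 : ℝ) else 0) - (if m = l then 1 else 0)) *
            ((if j = k then 1 else 0) + (if j = l then 1 else 0))) * H m j =
            ((if m = k then (1 : ℝ) else 0) - (if m = l then 1 else 0)) *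
            ((if j = k then H m j else 0) + (if j = l then H m j else 0)) := by
          intro j
          split_ifs <;> ring
        rw [Finset.sum_congr rfl fun j _ => h9 j, ← Finset.mul_sum, Finset.sum_add_distrib,
          Finset.sum_ite_eq', Finset.sum_ite_eq']
        simp only [Finset.mem_univ, if_true]
        split_ifs <;> ring
      rw [Finset.sum_congr rfl fun m _ => h8 m, Finset.sum_sub_distrib, Finset.sum_ite_eq',
        Finset.sum_ite_eq'] at h
      simp only [Finset.mem_univ, if_true] at h
      rw [off k l hkl, off l k (Ne.symm hkl)] at h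
      linarith
    refine ⟨H ⟨0, hn⟩ ⟨0, hn⟩, ?_⟩
    ext i j
    rw [Matrix.smul_apply, smul_eq_mul]
    rcases eq_or_ne i j with rfl | hij
    · rw [Matrix.one_apply_eq, mul_one]
      exact diag _ _
    · rw [Matrix.one_apply_ne hij, mul_zero]
      exact off _ _ hij

end PPI
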