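import Pool.Agent.PPI.Stmts

/-!
# Squad PPI (MP_0bf616_gt), module GEO: the family of the facets of a polytope
-/

set_option autoImplicit false

namespace PPI

open MeasureTheory Set Filter Topology
open scoped ENNReal Pointwise

namespace GEO_

lemma sum_sub {N : ℕ} (p : Fin N → Prop) [DecidablePred p] (f : Fin N → ℝ)
    (h0 : ∀ i, ¬ p i → f i = 0) : ∑ i : {i // p i}, f i.1 = ∑ i, f i := by
  have h := Fintype.sum_subtype_add_sum_subtype p f
  have h2 : ∑ i : {i // ¬ p i}, f i.1 = 0 := by
    apply Finset.sum_eq_zero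
    intro i _
    exact h0 i.1 i.2
  rw [h2, add_zero] at h
  exact h

end GEO_

open GEO_ in
theorem geo_proof (h1 : Stmt_CEL) (h2 : Stmt_MKI) (h3 : Stmt_PRJ) (h4 : Stmt_ZON)
    (h5 : Stmt_MON) : Stmt_GEO := by
  classical
  intro n N v hn hc hv
  have hn1 : 1 ≤ n := by omega
  obtain ⟨-, -, -, -, -, -, hsum, hnn, hne⟩ := h1 n N v hn1 hc
  refine ⟨{i : Fin N // 0 < fa v i}, inferInstance, fun i => fa v i.1, fun i => v i.1,
    ⟨fun i => i.2, fun i => hne i.1 i.2, ?_⟩, ?_⟩
  · intro L c hL hLc hLn hb
    have hbd : ∀ i : Fin N, ∃ b : ℝ, ∀ x ∈ L, inner ℝ (v i) x ≤ b := by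
      intro i
      have hcont : ContinuousOn (fun x : EE n => inner ℝ (v i) x) L := by fun_prop
      obtain ⟨b, hb'⟩ := (hL.image_of_continuousOn hcont).bddAbove
      exact ⟨b, fun x hx => hb' (Set.mem_image_of_mem _ hx)⟩
    choose b hb' using hbd
    set c' : Fin N → ℝ := fun i => if h : 0 < fa v i then c ⟨i, h⟩ else b i with hc'
    have hcb : ∀ i, ∀ x ∈ L, inner ℝ (v i) x ≤ c' i := by
      intro i x hx
      by_cases h : 0 < fa v i
      · simp only [hc', h, dif_pos]
        exact hb ⟨i, h⟩ x hx
      · simp only [hc', h, dif_neg, not_false_eq_true]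
        exact hb' i x hx
    have hs : ∑ i : {i : Fin N // 0 < fa v i}, fa v i.1 * c i = ∑ i, fa v i * c' i := by
      have hh := sum_sub (fun i => 0 < fa v i) (fun i => fa v i * c' i) (by
        intro i hi
        have h0 : fa v i = 0 := le_antisymm (not_lt.mp hi) (hnn i)
        simp [h0])
      rw [← hh]
      apply Finset.sum_congr rfl
      intro i _
      have : c' i.1 = c i := by
        simp only [hc', i.2, dif_pos]
      rw [this]
    have hm := h2 n N v hn1 hc L c' hL hLc hLn hcb
    rw [hs]
    exact hm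
  · have hz := h4 n {i : Fin N // 0 < fa v i} (fun i => fa v i.1) (fun i => v i.1) hn1
      (fun i => i.2)
    refine hz.trans ?_
    have hsub : zon (fun i : {i : Fin N // 0 < fa v i} => fa v i.1) (fun i => v i.1) ⊆
        projBody (Pol v) := by
      intro y hy u hu
      have h := hy u hu
      have hs : ∑ i : {i : Fin N // 0 < fa v i}, fa v i.1 * |inner ℝ (v i.1) u| =
          ∑ i, fa v i * |inner ℝ (v i) u| :=
        sum_sub (fun i => 0 < fa v i) (fun i => fa v i * |inner ℝ (v i) u|) (by
          intro i hi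
          have h0 : fa v i = 0 := le_antisymm (not_lt.mp hi) (hnn i)
          simp [h0])
      have hp := h3 n N v u hn hc hu
      rw [hs] at h
      linarith
    have hle : vl (zon (fun i : {i : Fin N // 0 < fa v i} => fa v i.1) (fun i => v i.1)) ≤
        vl (projBody (Pol v)) :=
      ENNReal.toReal_mono ((h5 n hn).1 (Pol v) hc) (measure_mono hsub)
    exact mul_le_mul_of_nonneg_left hle (by positivity)

end PPI
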