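import Pool.Agent.PPI.Stmts

/-!
# Module INT: an integral over `R^n`
-/

set_option autoImplicit false

namespace PPI

open MeasureTheory

namespace INT_

/-- the product density -/
noncomputable def h {n : ℕ} (y : Fin n → ℝ) : ℝ := ∏ k, (1 + (y k) ^ 2)⁻¹

theorem h_nonneg {n : ℕ} (y : Fin n → ℝ) : 0 ≤ h y :=
  Finset.prod_nonneg fun k _ => inv_nonneg.2 (by positivity)

theorem h_integrable (n : ℕ) : Integrable (h : (Fin n → ℝ) → ℝ) := by
  have := MeasureTheory.Integrable.fintype_prod (𝕜 := ℝ) (ι := Fin n) (E := ℝ)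
    (f := fun _ s => (1 + s ^ 2)⁻¹) (μ := fun _ => volume) (fun _ => integrable_inv_one_add_sq)
  exact this

theorem h_integral (n : ℕ) : ∫ y : Fin n → ℝ, h y = Real.pi ^ n := by
  have := MeasureTheory.integral_fintype_prod_volume_eq_prod (𝕜 := ℝ) (ι := Fin n)
    (E := fun _ => ℝ) (f := fun _ s => (1 + s ^ 2)⁻¹)
  unfold h
  rw [this]
  simp [integral_univ_inv_one_add_sq]

theorem h_lint (n : ℕ) : ∫⁻ y : Fin n → ℝ, ENNReal.ofReal (h y) = ENNReal.ofReal (Real.pi ^ n) := by
  rw [← h_integral n]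
  exact (ofReal_integral_eq_lintegral_ofReal (h_integrable n)
    (Filter.Eventually.of_forall h_nonneg)).symm

theorem h_meas (n : ℕ) : Measurable (h : (Fin n → ℝ) → ℝ) := by
  unfold h
  fun_prop

theorem main (n : ℕ) (w : Fin n → EE n) (hw : dt w ≠ 0) :
    ∫⁻ x : EE n, ∏ k, ENNReal.ofReal (1 / (1 + (inner ℝ (w k) x) ^ 2)) =
      ENNReal.ofReal (Real.pi ^ n / |dt w|) := by
  let M : Matrix (Fin n) (Fin n) ℝ := Matrix.of fun k j => w k j
  let A : EE n →ₗ[ℝ] EE n := Matrix.toEuclideanLin M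
  have hdet : LinearMap.det A = dt w := by
    have : A = Matrix.toLin (EuclideanSpace.basisFun (Fin n) ℝ).toBasis
        (EuclideanSpace.basisFun (Fin n) ℝ).toBasis M := by
      show Matrix.toEuclideanLin M = _
      rw [Matrix.toEuclideanLin_eq_toLin_orthonormal]
    rw [this, LinearMap.det_toLin]
    rfl
  have hA : ∀ (x : EE n) (k : Fin n), inner ℝ (w k) x = (A x) k := by
    intro x k
    show _ = (Matrix.toEuclideanLin M x).ofLp k
    rw [Matrix.ofLp_toEuclideanLin_apply, PiLp.inner_apply]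
    simp only [Matrix.mulVec, dotProduct, M, Matrix.of_apply]
    refine Finset.sum_congr rfl fun j _ => ?_
    simp [mul_comm]
  have h1 : ∀ x : EE n, ∏ k, ENNReal.ofReal (1 / (1 + (inner ℝ (w k) x) ^ 2)) =
      ENNReal.ofReal (h (A x).ofLp) := by
    intro x
    unfold h
    rw [ENNReal.ofReal_prod_of_nonneg (fun k _ => inv_nonneg.2 (by positivity))]
    refine Finset.prod_congr rfl fun k _ => ?_
    rw [hA, one_div]
  simp_rw [h1]
  have hmeas : Measurable fun y : EE n => ENNReal.ofReal (h y.ofLp) :=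
    ((h_meas n).comp (PiLp.volume_preserving_ofLp (Fin n)).measurable).ennreal_ofReal
  have hAm : Measurable A := (LinearMap.continuous_of_finiteDimensional A).measurable
  have h2 : ∫⁻ x : EE n, ENNReal.ofReal (h (A x).ofLp) =
      ∫⁻ y, ENNReal.ofReal (h y.ofLp) ∂(Measure.map A volume) := by
    rw [lintegral_map hmeas hAm]
  have hne : LinearMap.det A ≠ 0 := by rw [hdet]; exact hw
  rw [h2, Measure.map_linearMap_addHaar_eq_smul_addHaar volume hne, lintegral_smul_measure]
  have h3 : ∫⁻ y : EE n, ENNReal.ofReal (h y.ofLp) = ENNReal.ofReal (Real.pi ^ n) := by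
    rw [← h_lint n]
    exact (PiLp.volume_preserving_ofLp (Fin n)).lintegral_comp
      (f := fun y => ENNReal.ofReal (h y)) (h_meas n).ennreal_ofReal
  rw [h3, hdet, smul_eq_mul, ← ENNReal.ofReal_mul (abs_nonneg _), abs_inv]
  congr 1
  field_simp

end INT_

theorem int_proof : Stmt_INT := by
  intro n w hw
  exact INT_.main n w hw

end PPI
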