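import Pool.Agent.PPI.Stmts

set_option autoImplicit false

open MeasureTheory Set Filter Topology
open scoped ENNReal Pointwise

namespace PPI

namespace LSE_

variable {n : ℕ} {ι : Type} [Fintype ι] [Nonempty ι]

theorem bil_cont (T : Matrix (Fin n) (Fin n) ℝ) (y : EE n) : Continuous fun x => bil T x y := by
  unfold bil
  refine continuous_finsetSum _ fun k _ => continuous_finsetSum _ fun l _ => ?_
  have h : Continuous fun x : EE n => x k := by fun_prop
  exact (h.mul continuous_const).mul continuous_const

theorem bil_affine (T : Matrix (Fin n) (Fin n) ℝ) (y x x' : EE n) (a c : ℝ) :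
    bil T (a • x + c • x') y = a * bil T x y + c * bil T x' y := by
  unfold bil
  rw [Finset.mul_sum, Finset.mul_sum, ← Finset.sum_add_distrib]
  refine Finset.sum_congr rfl fun k _ => ?_
  rw [Finset.mul_sum, Finset.mul_sum, ← Finset.sum_add_distrib]
  refine Finset.sum_congr rfl fun l _ => ?_
  simp only [PiLp.add_apply, PiLp.smul_apply, smul_eq_mul]
  ring

theorem sum_pos (z : ι → ℝ) : 0 < ∑ i, Real.exp (z i) :=
  Finset.sum_pos (fun i _ => Real.exp_pos _) Finset.univ_nonempty

theorem le_lse (z : ι → ℝ) (i : ι) : z i ≤ Real.log (∑ j, Real.exp (z j)) := by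
  rw [Real.le_log_iff_exp_le (sum_pos z)]
  exact Finset.single_le_sum (f := fun j => Real.exp (z j)) (fun j _ => (Real.exp_pos _).le)
    (Finset.mem_univ i)

theorem lse_convex (u v : ι → ℝ) {a c : ℝ} (ha : 0 ≤ a) (hc : 0 ≤ c) (hac : a + c = 1) :
    Real.log (∑ i, Real.exp (a * u i + c * v i)) ≤
      a * Real.log (∑ i, Real.exp (u i)) + c * Real.log (∑ i, Real.exp (v i)) := by
  rw [Real.log_le_iff_le_exp (sum_pos fun i => a * u i + c * v i)]
  set U := Real.log (∑ i, Real.exp (u i)) with hU
  set V := Real.log (∑ i, Real.exp (v i)) with hV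
  have hU' : Real.exp U = ∑ i, Real.exp (u i) := Real.exp_log (sum_pos u)
  have hV' : Real.exp V = ∑ i, Real.exp (v i) := Real.exp_log (sum_pos v)
  have key : ∀ i, Real.exp (a * u i + c * v i) ≤
      Real.exp (a * U + c * V) * (a * Real.exp (u i - U) + c * Real.exp (v i - V)) := by
    intro i
    have h1 : a * u i + c * v i = (a * U + c * V) + (a * (u i - U) + c * (v i - V)) := by ring
    rw [h1, Real.exp_add]
    refine mul_le_mul_of_nonneg_left ?_ (Real.exp_pos _).le
    have h2 := convexOn_exp.2 (mem_univ (u i - U)) (mem_univ (v i - V)) ha hc hac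
    simpa only [smul_eq_mul] using h2
  refine (Finset.sum_le_sum fun i _ => key i).trans ?_
  rw [← Finset.mul_sum, Finset.sum_add_distrib, ← Finset.mul_sum, ← Finset.mul_sum]
  have h3 : ∑ i, Real.exp (u i - U) = 1 := by
    simp only [Real.exp_sub]
    rw [← Finset.sum_div, ← hU', div_self (Real.exp_pos _).ne']
  have h4 : ∑ i, Real.exp (v i - V) = 1 := by
    simp only [Real.exp_sub]
    rw [← Finset.sum_div, ← hV', div_self (Real.exp_pos _).ne']
  rw [h3, h4, mul_one, mul_one, hac, mul_one]

theorem entropy (q : ι → ℝ) (hq : ∀ i, 0 < q i) (hs : ∑ i, q i = 1) :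
    -Real.log (Fintype.card ι) ≤ ∑ i, q i * Real.log (q i) := by
  have hN : (0 : ℝ) < Fintype.card ι := by exact_mod_cast Fintype.card_pos
  have key : ∀ i, -(q i * Real.log (Fintype.card ι)) - 1 / Fintype.card ι + q i ≤
      q i * Real.log (q i) := by
    intro i
    have h1 : Real.log (1 / (Fintype.card ι * q i)) ≤ 1 / (Fintype.card ι * q i) - 1 :=
      Real.log_le_sub_one_of_pos (by have := hq i; positivity)
    rw [one_div, Real.log_inv, Real.log_mul hN.ne' (hq i).ne'] at h1
    have h2 := mul_le_mul_of_nonneg_left h1 (hq i).le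
    have h3 : q i * (((Fintype.card ι : ℝ) * q i)⁻¹ - 1) = 1 / Fintype.card ι - q i := by
      have := (hq i).ne'
      field_simp
    rw [h3] at h2
    linarith
  have h4 := Finset.sum_le_sum fun i (_ : i ∈ Finset.univ) => key i
  rw [Finset.sum_add_distrib, Finset.sum_sub_distrib, Finset.sum_neg_distrib, ← Finset.sum_mul,
    hs, Finset.sum_const, Finset.card_univ, nsmul_eq_mul, mul_one_div_cancel hN.ne'] at h4
  linarith

end LSE_

open LSE_ in
theorem lse_proof : Stmt_LSE := by
  intro n ι _ _ ε w T b hε
  have hz : ∀ i, Continuous fun x : EE n => (bil T x (w i) - b i) / ε := fun i =>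
    ((bil_cont T (w i)).sub continuous_const).div_const _
  have hS : ∀ x : EE n, 0 < ∑ i, Real.exp ((bil T x (w i) - b i) / ε) := fun x =>
    sum_pos fun i => (bil T x (w i) - b i) / ε
  have hSc : Continuous fun x : EE n => ∑ i, Real.exp ((bil T x (w i) - b i) / ε) :=
    continuous_finsetSum _ fun i _ => Real.continuous_exp.comp (hz i)
  have hsum : ∀ x, ∑ i, ws ε w T b x i = 1 := by
    intro x
    unfold ws
    rw [← Finset.sum_div, div_self (hS x).ne']
  have hpos : ∀ x i, 0 < ws ε w T b x i := fun x i => div_pos (Real.exp_pos _) (hS x)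
  refine ⟨?_, ?_, ?_, ?_, hsum, hpos, ?_, ?_⟩
  · intro x i
    have h1 := le_lse (fun j => (bil T x (w j) - b j) / ε) i
    have h2 := mul_le_mul_of_nonneg_left h1 hε.le
    unfold ph
    rwa [mul_div_cancel₀ _ hε.ne'] at h2
  · unfold ph
    exact continuous_const.mul (hSc.log fun x => (hS x).ne')
  · intro i
    unfold ws
    exact (Real.continuous_exp.comp (hz i)).div hSc fun x => (hS x).ne'
  · refine ⟨convex_univ, fun x _ y _ a c ha hc hac => ?_⟩
    unfold ph
    simp only [smul_eq_mul]
    have h1 := lse_convex (fun i => (bil T x (w i) - b i) / ε)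
      (fun i => (bil T y (w i) - b i) / ε) ha hc hac
    have h2 : ∀ i, (bil T (a • x + c • y) (w i) - b i) / ε =
        a * ((bil T x (w i) - b i) / ε) + c * ((bil T y (w i) - b i) / ε) := by
      intro i
      rw [bil_affine]
      have : b i = a * b i + c * b i := by rw [← add_mul, hac, one_mul]
      field_simp
      linear_combination -this
    simp only [h2]
    have h3 := mul_le_mul_of_nonneg_left h1 hε.le
    refine h3.trans (le_of_eq ?_)
    ring
  · intro x
    have h1 : ∀ i, bil T x (w i) - b i = ε * Real.log (ws ε w T b x i) + ph ε w T b x := by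
      intro i
      unfold ws ph
      rw [Real.log_div (Real.exp_pos _).ne' (hS x).ne', Real.log_exp]
      field_simp
      ring
    have h2 : ∑ i, ws ε w T b x i * (bil T x (w i) - b i) =
        ε * (∑ i, ws ε w T b x i * Real.log (ws ε w T b x i)) + ph ε w T b x := by
      calc ∑ i, ws ε w T b x i * (bil T x (w i) - b i)
          = ∑ i, (ε * (ws ε w T b x i * Real.log (ws ε w T b x i)) +
            ws ε w T b x i * ph ε w T b x) := by
            refine Finset.sum_congr rfl fun i _ => ?_
            rw [h1 i]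
            ring
        _ = _ := by
            rw [Finset.sum_add_distrib, ← Finset.mul_sum, ← Finset.sum_mul, hsum x, one_mul]
    rw [h2]
    have h3 := mul_le_mul_of_nonneg_left (entropy (fun i => ws ε w T b x i) (hpos x) (hsum x)) hε.le
    linarith
  · intro x c
    unfold ph
    have h1 : ∀ i, Real.exp ((bil T x (w i) - (b i - c)) / ε) =
        Real.exp ((bil T x (w i) - b i) / ε) * Real.exp (c / ε) := by
      intro i
      rw [← Real.exp_add]
      congr 1
      ring
    simp only [h1]
    rw [← Finset.sum_mul, Real.log_mul (hS x).ne' (Real.exp_pos _).ne', Real.log_exp]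
    field_simp

end PPI
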