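import Pool.Agent.PPI.Stmts

/-!
# PPI, module MCC: the constant `cc n q`
-/

set_option autoImplicit false

namespace PPI

open MeasureTheory Set Filter Topology
open scoped ENNReal Pointwise

noncomputable section

namespace MCC_

lemma cc_eq (n q : ℕ) :
    cc n q = (1 / 2 : ℝ) ^ (-((n : ℝ) + 2 * q + 1 + 1) / 2) * (1 / 2) *
      Real.Gamma (((n : ℝ) + 2 * q + 1 + 1) / 2) := by
  have h := integral_rpow_mul_exp_neg_mul_rpow (p := 2) (q := (n : ℝ) + 2 * q + 1) (b := 1 / 2)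
    (by norm_num) (by
      have h1 : (0 : ℝ) ≤ n := Nat.cast_nonneg n
      have h2 : (0 : ℝ) ≤ q := Nat.cast_nonneg q
      linarith) (by norm_num)
  rw [← h]
  unfold cc
  refine setIntegral_congr_fun measurableSet_Ioi ?_
  intro s hs
  have hs0 : 0 < s := hs
  simp only
  have e1 : s ^ ((n : ℝ) + 2 * q + 1) = s ^ (n + 2 * q + 1) := by
    rw [← Real.rpow_natCast]
    push_cast
    rfl
  have e2 : s ^ (2 : ℝ) = s ^ 2 := by
    rw [← Real.rpow_natCast]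
    norm_num
  rw [e1, e2]
  congr 2
  ring

lemma cc_zero (n : ℕ) (hn1 : 1 ≤ n) : cc n 0 * kap n = √(2 * Real.pi) ^ n := by
  have hne : Nonempty (Fin n) := ⟨⟨0, hn1⟩⟩
  have hn : (0 : ℝ) ≤ n := Nat.cast_nonneg n
  have hG : 0 < Real.Gamma ((n : ℝ) / 2 + 1) := Real.Gamma_pos_of_pos (by positivity)
  have hk : kap n = √Real.pi ^ n / Real.Gamma ((n : ℝ) / 2 + 1) := by
    unfold kap vl Bn
    rw [EuclideanSpace.volume_closedBall]
    simp only [ENNReal.ofReal_one, one_pow, one_mul, Fintype.card_fin]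
    rw [ENNReal.toReal_ofReal (by positivity)]
  rw [hk, cc_eq]
  have e1 : ((n : ℝ) + 2 * (0 : ℕ) + 1 + 1) / 2 = (n : ℝ) / 2 + 1 := by
    push_cast
    ring
  have e2 : -((n : ℝ) + 2 * (0 : ℕ) + 1 + 1) / 2 = -((n : ℝ) / 2 + 1) := by
    push_cast
    ring
  rw [e1, e2]
  have e3 : (1 / 2 : ℝ) ^ (-((n : ℝ) / 2 + 1)) * (1 / 2) = √2 ^ n := by
    rw [Real.rpow_neg (by norm_num), Real.rpow_add (by norm_num), Real.rpow_one]
    rw [Real.sqrt_eq_rpow, ← Real.rpow_natCast, ← Real.rpow_mul (by norm_num)]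
    have e4 : (1 / 2 : ℝ) ^ ((n : ℝ) / 2) = ((2 : ℝ) ^ (1 / 2 * (n : ℝ)))⁻¹ := by
      rw [one_div, Real.inv_rpow (by norm_num)]
      congr 2
      ring
    rw [e4]
    have h5 : (0 : ℝ) < (2 : ℝ) ^ (1 / 2 * (n : ℝ)) := by positivity
    field_simp
  rw [e3]
  rw [Real.sqrt_mul (by norm_num), mul_pow]
  field_simp

lemma cc_succ (n q : ℕ) : cc n (q + 1) = ((n : ℝ) + 2 + 2 * q) * cc n q := by
  have hn : (0 : ℝ) ≤ n := Nat.cast_nonneg n
  have hq : (0 : ℝ) ≤ q := Nat.cast_nonneg q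
  rw [cc_eq, cc_eq]
  have e1 : ((n : ℝ) + 2 * (q + 1 : ℕ) + 1 + 1) / 2 = ((n : ℝ) + 2 * q + 1 + 1) / 2 + 1 := by
    push_cast
    ring
  have e2 : -((n : ℝ) + 2 * (q + 1 : ℕ) + 1 + 1) / 2 = -((n : ℝ) + 2 * q + 1 + 1) / 2 + (-1) := by
    push_cast
    ring
  rw [e1, e2, Real.rpow_add (by norm_num), Real.Gamma_add_one (by positivity),
    Real.rpow_neg (by norm_num), Real.rpow_one]
  ring

end MCC_

theorem mcc_proof : Stmt_MCC := by
  intro n q hn
  induction q with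
  | zero => simp [MCC_.cc_zero n hn]
  | succ q ih =>
    rw [Finset.prod_range_succ, ← mul_assoc, ← ih, MCC_.cc_succ]
    ring

end

end PPI
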