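import Pool.Agent.PPI.Stmts

/-!
# PPI module MGA: Gaussian moments of the norm
-/

set_option autoImplicit false

namespace PPI

open MeasureTheory Set

namespace MGA_

/-- one dimensional moments -/
noncomputable def J (m q : ℕ) : ℝ :=
  ∫ y in Ioi (0 : ℝ), y ^ (m - 1) • (y ^ (2 * q) * Real.exp (-(y ^ 2 / 2)))

lemma J_eq (m q : ℕ) (hm : 1 ≤ m) :
    J m q = (1 / 2 : ℝ) ^ (-(((m : ℝ) + 2 * q - 1) + 1) / 2) * (1 / 2) *
      Real.Gamma ((((m : ℝ) + 2 * q - 1) + 1) / 2) := by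
  have hm' : (1 : ℝ) ≤ m := by exact_mod_cast hm
  rw [← integral_rpow_mul_exp_neg_mul_rpow (p := 2) (q := (m : ℝ) + 2 * q - 1) (b := 1 / 2)
    (by norm_num) (by have : (0 : ℝ) ≤ q := Nat.cast_nonneg q
                      linarith) (by norm_num)]
  unfold J
  refine setIntegral_congr_fun measurableSet_Ioi fun y hy => ?_
  have hy0 : (0 : ℝ) < y := hy
  simp only [smul_eq_mul]
  rw [← mul_assoc, ← pow_add]
  have e1 : y ^ ((m : ℝ) + 2 * q - 1) = y ^ (m - 1 + 2 * q) := by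
    rw [← Real.rpow_natCast]
    congr 1
    push_cast [Nat.cast_sub hm]
    ring
  have e2 : y ^ (2 : ℝ) = y ^ 2 := by
    rw [← Real.rpow_natCast]
    norm_num
  rw [e1, e2]
  congr 2
  ring

lemma J_succ (m q : ℕ) (hm : 1 ≤ m) : J m (q + 1) = ((m : ℝ) + 2 * q) * J m q := by
  have hm' : (1 : ℝ) ≤ m := by exact_mod_cast hm
  have hq : (0 : ℝ) ≤ q := Nat.cast_nonneg q
  rw [J_eq m (q + 1) hm, J_eq m q hm]
  have e0 : (((m : ℝ) + 2 * ((q + 1 : ℕ) : ℝ) - 1) + 1) / 2 =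
      (((m : ℝ) + 2 * q - 1) + 1) / 2 + 1 := by
    push_cast
    ring
  have e1 : -(((m : ℝ) + 2 * ((q + 1 : ℕ) : ℝ) - 1) + 1) / 2 =
      -(((m : ℝ) + 2 * q - 1) + 1) / 2 + (-1) := by
    push_cast
    ring
  rw [e0, e1, Real.Gamma_add_one (by
    have : (0 : ℝ) < (((m : ℝ) + 2 * q - 1) + 1) / 2 := by linarith
    exact this.ne'), Real.rpow_add (by norm_num), Real.rpow_neg_one]
  ring

lemma ga_eq (m q : ℕ) (hm : 1 ≤ m) :
    ga m q = (m : ℝ) * ((volume : Measure (EE m)).real (Metric.ball 0 1) * J m q) := by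
  have : Nonempty (Fin m) := ⟨⟨0, hm⟩⟩
  have : Nontrivial (EE m) := by infer_instance
  have h := integral_fun_norm_addHaar (volume : Measure (EE m))
    (fun r : ℝ => r ^ (2 * q) * Real.exp (-(r ^ 2 / 2)))
  rw [finrank_euclideanSpace, Fintype.card_fin] at h
  unfold ga
  rw [h, nsmul_eq_mul, smul_eq_mul]
  rfl

lemma ga_succ (m q : ℕ) (hm : 1 ≤ m) : ga m (q + 1) = ((m : ℝ) + 2 * q) * ga m q := by
  rw [ga_eq m (q + 1) hm, ga_eq m q hm, J_succ m q hm]
  ring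

lemma ga_zero (m : ℕ) : ga m 0 = √(2 * Real.pi) ^ m := by
  have h := GaussianFourier.integral_rexp_neg_mul_sq_norm (V := EE m) (b := 1 / 2) (by norm_num)
  rw [finrank_euclideanSpace, Fintype.card_fin] at h
  unfold ga
  simp only [mul_zero, pow_zero, one_mul]
  have e : ∀ x : EE m, Real.exp (-(‖x‖ ^ 2 / 2)) = Real.exp (-(1 / 2) * ‖x‖ ^ 2) := by
    intro x
    congr 1
    ring
  simp_rw [e]
  rw [h]
  have e2 : Real.pi / (1 / 2) = 2 * Real.pi := by ring
  rw [e2, Real.sqrt_eq_rpow, ← Real.rpow_natCast, ← Real.rpow_mul (by positivity)]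
  congr 1
  ring

end MGA_

theorem mga_proof : Stmt_MGA := by
  intro m q hm
  induction q with
  | zero => simpa using MGA_.ga_zero m
  | succ q ih =>
    rw [Finset.prod_range_succ, MGA_.ga_succ m q hm, ih]
    ring

end PPI
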