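import Pool.Agent.PPI.Stmts

/-!
# PPI, module MGC: Gaussian moments of the determinant
-/

set_option autoImplicit false

namespace PPI

open MeasureTheory Set Filter Topology
open scoped ENNReal Pointwise

noncomputable section

theorem mgc_proof (h1 : Stmt_MGF) (h2 : Stmt_MGA) : Stmt_MGC := by
  intro n q
  induction n with
  | zero =>
    unfold gm
    rw [volume_pi, Measure.pi_of_empty (x := fun i => i.elim0), integral_dirac]
    simp [dt]
  | succ n ih =>
    rw [h1, h2 (n + 1) q (by omega), ih, Finset.prod_range_succ]
    push_cast
    ring

end

end PPI
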