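import Pool.Agent.PPI.Stmts

/-!
# Module MGE: Gaussian moments of the determinant, first row `e_0`
-/

set_option autoImplicit false

namespace PPI

open MeasureTheory

namespace MGE_

/-- splitting off the first coordinate -/
noncomputable def φe (n : ℕ) : EE (n + 1) ≃ᵐ ℝ × EE n :=
  (MeasurableEquiv.toLp 2 (Fin (n + 1) → ℝ)).symm.trans
    ((MeasurableEquiv.piFinSuccAbove (fun _ : Fin (n + 1) => ℝ) 0).trans
      ((MeasurableEquiv.refl ℝ).prodCongr (MeasurableEquiv.toLp 2 (Fin n → ℝ))))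

theorem φe_fst (n : ℕ) (x : EE (n + 1)) : (φe n x).1 = x 0 := rfl

theorem φe_snd (n : ℕ) (x : EE (n + 1)) (j : Fin n) : (φe n x).2 j = x j.succ := by
  show x ((0 : Fin (n + 1)).succAbove j) = x j.succ
  rw [Fin.zero_succAbove]

theorem φe_mp (n : ℕ) : MeasurePreserving (φe n) volume volume := by
  have h1 := EuclideanSpace.volume_preserving_symm_measurableEquiv_toLp (Fin (n + 1))
  have h2 := volume_preserving_piFinSuccAbove (fun _ : Fin (n + 1) => ℝ) 0
  have h3 : MeasurePreserving (MeasurableEquiv.toLp 2 (Fin n → ℝ)) volume volume :=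
    PiLp.volume_preserving_toLp (Fin n)
  have h4 : MeasurePreserving ((MeasurableEquiv.refl ℝ).prodCongr
      (MeasurableEquiv.toLp 2 (Fin n → ℝ))) volume volume :=
    (MeasurePreserving.id (volume : Measure ℝ)).prod h3
  exact (h4.comp h2).comp h1

/-- all rows -/
noncomputable def Ψ (n : ℕ) : (Fin n → EE (n + 1)) ≃ᵐ (Fin n → ℝ) × (Fin n → EE n) :=
  (MeasurableEquiv.piCongrRight fun _ => φe n).trans
    (MeasurableEquiv.arrowProdEquivProdArrow ℝ (EE n) (Fin n))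

theorem Ψ_fst (n : ℕ) (x : Fin n → EE (n + 1)) (k : Fin n) : (Ψ n x).1 k = x k 0 := rfl

theorem Ψ_snd (n : ℕ) (x : Fin n → EE (n + 1)) (k j : Fin n) :
    (Ψ n x).2 k j = x k j.succ := φe_snd n (x k) j

theorem Ψ_mp (n : ℕ) : MeasurePreserving (Ψ n) volume volume := by
  have h1 : MeasurePreserving (MeasurableEquiv.piCongrRight fun _ : Fin n => φe n)
      volume volume :=
    volume_preserving_pi (fun _ => φe_mp n)
  have h2 := volume_measurePreserving_arrowProdEquivProdArrow ℝ (EE n) (Fin n)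
  exact h2.comp h1

theorem dt_cons (n : ℕ) (x : Fin n → EE (n + 1)) :
    dt (Fin.cons (EuclideanSpace.single 0 1) x : Fin (n + 1) → EE (n + 1)) =
      dt (Ψ n x).2 := by
  unfold dt
  rw [Matrix.det_succ_row_zero, Finset.sum_eq_single (0 : Fin (n + 1))]
  · have h0 : (Matrix.of fun k j =>
        (Fin.cons (EuclideanSpace.single 0 1) x : Fin (n + 1) → EE (n + 1)) k j) 0 0 = (1 : ℝ) := by
      simp
    rw [h0]
    simp only [Fin.val_zero, pow_zero, one_mul]
    congr 1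
  · intro j _ hj
    have h0 : (Matrix.of fun k j =>
        (Fin.cons (EuclideanSpace.single 0 1) x : Fin (n + 1) → EE (n + 1)) k j) 0 j = (0 : ℝ) := by
      simp [hj]
    rw [h0]
    ring
  · intro h
    exact absurd (Finset.mem_univ _) h

theorem norm_sq (n : ℕ) (x : Fin n → EE (n + 1)) (k : Fin n) :
    ‖x k‖ ^ 2 = (Ψ n x).1 k ^ 2 + ‖(Ψ n x).2 k‖ ^ 2 := by
  rw [EuclideanSpace.norm_sq_eq, EuclideanSpace.norm_sq_eq, Fin.sum_univ_succ, Ψ_fst]
  simp only [Ψ_snd, Real.norm_eq_abs, sq_abs]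

/-- the integrand -/
noncomputable def F (n q : ℕ) (z : (Fin n → ℝ) × (Fin n → EE n)) : ℝ :=
  (∏ k, Real.exp (-(1 / 2) * (z.1 k) ^ 2)) *
    (dt z.2 ^ (2 * q) * ∏ k, Real.exp (-(‖z.2 k‖ ^ 2 / 2)))

theorem main (n q : ℕ) :
    ∫ x : Fin n → EE (n + 1),
        dt (Fin.cons (EuclideanSpace.single 0 1) x : Fin (n + 1) → EE (n + 1)) ^ (2 * q) *
          ∏ k, Real.exp (-(‖x k‖ ^ 2 / 2)) =
      √(2 * Real.pi) ^ n * gm n q := by
  have h1 : ∀ x : Fin n → EE (n + 1),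
      dt (Fin.cons (EuclideanSpace.single 0 1) x : Fin (n + 1) → EE (n + 1)) ^ (2 * q) *
          ∏ k, Real.exp (-(‖x k‖ ^ 2 / 2)) = F n q (Ψ n x) := by
    intro x
    unfold F
    rw [dt_cons]
    have : ∏ k, Real.exp (-(‖x k‖ ^ 2 / 2)) =
        (∏ k, Real.exp (-(1 / 2) * ((Ψ n x).1 k) ^ 2)) *
          ∏ k, Real.exp (-(‖(Ψ n x).2 k‖ ^ 2 / 2)) := by
      rw [← Finset.prod_mul_distrib]
      refine Finset.prod_congr rfl fun k _ => ?_
      rw [← Real.exp_add, norm_sq]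
      congr 1
      ring
    rw [this]
    ring
  simp_rw [h1]
  rw [(Ψ_mp n).integral_comp' (F n q)]
  have h2 : ∫ z : (Fin n → ℝ) × (Fin n → EE n), F n q z =
      (∫ s : Fin n → ℝ, ∏ k, Real.exp (-(1 / 2) * (s k) ^ 2)) *
        ∫ y : Fin n → EE n, (dt y ^ (2 * q) * ∏ k, Real.exp (-(‖y k‖ ^ 2 / 2))) := by
    rw [Measure.volume_eq_prod]
    exact integral_prod_mul (fun s : Fin n → ℝ => ∏ k, Real.exp (-(1 / 2) * (s k) ^ 2))
      (fun y : Fin n → EE n => dt y ^ (2 * q) * ∏ k, Real.exp (-(‖y k‖ ^ 2 / 2)))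
  rw [h2]
  have h3 : ∫ s : Fin n → ℝ, ∏ k, Real.exp (-(1 / 2) * (s k) ^ 2) = √(2 * Real.pi) ^ n := by
    have := MeasureTheory.integral_fintype_prod_volume_eq_prod (𝕜 := ℝ) (ι := Fin n)
      (E := fun _ => ℝ) (f := fun _ s => Real.exp (-(1 / 2) * s ^ 2))
    rw [this]
    simp only [integral_gaussian, Finset.prod_const, Finset.card_univ, Fintype.card_fin]
    congr 2
    ring
  rw [h3]
  rfl

end MGE_

theorem mge_proof : Stmt_MGE := by
  intro n q
  exact MGE_.main n q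

end PPI
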