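import Pool.Agent.PPI.Stmts

/-! # Squad PPI, module MGF: recursion for the Gaussian moments of the determinant -/

set_option autoImplicit false

namespace PPI

open MeasureTheory Set

theorem mgf_proof (h1 : Stmt_MGR) (h2 : Stmt_MGE) (h3 : Stmt_MGI) : Stmt_MGF := by
  intro n q
  have hmp := (volume_preserving_piFinSuccAbove (fun _ : Fin (n + 1) => EE (n + 1)) 0).symm
  have hI := h3 (n + 1) q
  unfold gm
  rw [← hmp.integral_comp (MeasurableEquiv.measurableEmbedding _)]
  have hI2 := (hmp.integrable_comp_emb (MeasurableEquiv.measurableEmbedding _)).2 hI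
  simp only [Function.comp_def] at hI2
  rw [Measure.volume_eq_prod] at hI2 ⊢
  rw [integral_prod _ hI2]
  unfold ga
  rw [← integral_mul_const]
  refine integral_congr_ae (Filter.Eventually.of_forall fun x₀ => ?_)
  simp only [Function.comp]
  have e1 : ∀ x : Fin n → EE (n + 1),
      dt ((MeasurableEquiv.piFinSuccAbove (fun _ : Fin (n + 1) => EE (n + 1)) 0).symm
        (x₀, x)) ^ (2 * q) *
        ∏ k, Real.exp (-(‖(MeasurableEquiv.piFinSuccAbove (fun _ : Fin (n + 1) => EE (n + 1))
          0).symm (x₀, x) k‖ ^ 2 / 2)) =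
      Real.exp (-(‖x₀‖ ^ 2 / 2)) *
        (dt (Fin.cons x₀ x : Fin (n + 1) → EE (n + 1)) ^ (2 * q) *
          ∏ k, Real.exp (-(‖x k‖ ^ 2 / 2))) := by
    intro x
    have e : (MeasurableEquiv.piFinSuccAbove (fun _ : Fin (n + 1) => EE (n + 1)) 0).symm
        (x₀, x) = (Fin.cons x₀ x : Fin (n + 1) → EE (n + 1)) := by
      funext k
      simp [MeasurableEquiv.piFinSuccAbove, Fin.insertNthEquiv, Fin.insertNth_zero']
    rw [e, Fin.prod_univ_succ]
    simp only [Fin.cons_zero, Fin.cons_succ]
    ring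
  rw [integral_congr_ae (Filter.Eventually.of_forall e1), integral_const_mul, h1 n q x₀, h2 n q]
  simp only [gm]
  ring

end PPI
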