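import Pool.Agent.PPI.Stmts

/-! # Squad PPI, module MGI: integrability of Gaussian determinant moments -/

set_option autoImplicit false

namespace PPI

open MeasureTheory Set

namespace MGI_

/-- crude Hadamard bound -/
theorem dt_le {n : ℕ} (x : Fin n → EE n) : |dt x| ≤ n.factorial * ∏ k, ‖x k‖ := by
  unfold dt
  rw [← Matrix.det_transpose, Matrix.det_apply']
  calc |∑ σ : Equiv.Perm (Fin n), ((Equiv.Perm.sign σ : ℤ) : ℝ) *
        ∏ i, (Matrix.of fun k j => x k j).transpose (σ i) i|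
      ≤ ∑ σ : Equiv.Perm (Fin n), |((Equiv.Perm.sign σ : ℤ) : ℝ) *
        ∏ i, (Matrix.of fun k j => x k j).transpose (σ i) i| := Finset.abs_sum_le_sum_abs _ _
    _ ≤ ∑ _σ : Equiv.Perm (Fin n), ∏ k, ‖x k‖ := by
        refine Finset.sum_le_sum fun σ _ => ?_
        rw [abs_mul]
        have h1 : |((Equiv.Perm.sign σ : ℤ) : ℝ)| = 1 := by
          rcases Int.units_eq_one_or (Equiv.Perm.sign σ) with h | h <;> rw [h] <;> simp
        rw [h1, one_mul, Finset.abs_prod]
        refine Finset.prod_le_prod (fun i _ => abs_nonneg _) fun i _ => ?_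
        have h2 := PiLp.norm_apply_le (x i) (σ i)
        simpa [Matrix.transpose_apply, Matrix.of_apply, Real.norm_eq_abs] using h2
    _ = n.factorial * ∏ k, ‖x k‖ := by
        rw [Finset.sum_const, Finset.card_univ, Fintype.card_perm, Fintype.card_fin, nsmul_eq_mul]

/-- one factor -/
theorem int_one {n : ℕ} (hn : 0 < n) (m : ℕ) :
    Integrable (fun x : EE n => ‖x‖ ^ m * Real.exp (-(‖x‖ ^ 2 / 2))) := by
  haveI : Nonempty (Fin n) := ⟨⟨0, hn⟩⟩
  haveI : Nontrivial (EE n) := inferInstance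
  rw [integrable_fun_norm_addHaar (volume : Measure (EE n))
    (f := fun y : ℝ => y ^ m * Real.exp (-(y ^ 2 / 2)))]
  have h := integrableOn_rpow_mul_exp_neg_mul_sq (b := 1 / 2) (by norm_num)
    (s := ((Module.finrank ℝ (EE n) - 1 + m : ℕ) : ℝ))
    (by
      have : (0 : ℝ) ≤ ((Module.finrank ℝ (EE n) - 1 + m : ℕ) : ℝ) := Nat.cast_nonneg _
      linarith)
  refine h.congr_fun (fun y hy => ?_) measurableSet_Ioi
  simp only [smul_eq_mul]
  rw [Real.rpow_natCast, pow_add, mul_assoc]
  congr 3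
  ring_nf

theorem cont_dt {n : ℕ} : Continuous (fun x : Fin n → EE n => dt x) := by
  unfold dt
  refine Continuous.matrix_det ?_
  refine continuous_matrix fun i j => ?_
  simp only [Matrix.of_apply]
  fun_prop

end MGI_

open MGI_ in
theorem mgi_proof : Stmt_MGI := by
  intro n q
  have hb : Integrable (fun x : Fin n → EE n =>
      ∏ k, (‖x k‖ ^ (2 * q) * Real.exp (-(‖x k‖ ^ 2 / 2)))) := by
    refine Integrable.fintype_prod (f := fun (_ : Fin n) (y : EE n) =>
      ‖y‖ ^ (2 * q) * Real.exp (-(‖y‖ ^ 2 / 2))) fun k => ?_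
    exact int_one (Fin.pos k) (2 * q)
  refine (hb.const_mul ((n.factorial : ℝ) ^ (2 * q))).mono' ?_ ?_
  · refine Continuous.aestronglyMeasurable ?_
    refine (cont_dt.pow _).mul ?_
    fun_prop
  · refine Filter.Eventually.of_forall fun x => ?_
    have hp : 0 ≤ ∏ k, Real.exp (-(‖x k‖ ^ 2 / 2)) :=
      Finset.prod_nonneg fun k _ => (Real.exp_pos _).le
    rw [Real.norm_eq_abs, abs_mul, abs_of_nonneg hp, abs_pow, Finset.prod_mul_distrib,
      Finset.prod_pow, ← mul_assoc, ← mul_pow]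
    exact mul_le_mul_of_nonneg_right (pow_le_pow_left₀ (abs_nonneg _) (dt_le x) _) hp

end PPI
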