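import Pool.Agent.PPI.Stmts

set_option autoImplicit false

namespace PPI

open MeasureTheory Set Filter Topology
open scoped ENNReal Pointwise

namespace MGR_

lemma dt_sq {n : ℕ} (x : Fin n → EE n) :
    dt x ^ 2 = Matrix.det (Matrix.of fun i j : Fin n => inner ℝ (x i) (x j)) := by
  have h : (Matrix.of fun i j : Fin n => inner ℝ (x i) (x j)) =
      (Matrix.of fun k j => x k j) * (Matrix.of fun k j => x k j).transpose := by
    ext i j
    rw [Matrix.mul_apply, Matrix.of_apply, PiLp.inner_apply]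
    refine Finset.sum_congr rfl fun k _ => ?_
    simp only [Matrix.of_apply, Matrix.transpose_apply]
    simp [mul_comm]
  rw [h, Matrix.det_mul, Matrix.det_transpose]
  unfold dt
  ring

lemma dt_iso {n : ℕ} (O : EE n ≃ₗᵢ[ℝ] EE n) (x : Fin n → EE n) (q : ℕ) :
    dt (fun k => O (x k)) ^ (2 * q) = dt x ^ (2 * q) := by
  rw [pow_mul, pow_mul, dt_sq, dt_sq]
  simp only [LinearIsometryEquiv.inner_map_map]

lemma dt_cons_smul {n : ℕ} (c : ℝ) (u : EE (n + 1)) (x : Fin n → EE (n + 1)) :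
    dt (Fin.cons (c • u) x : Fin (n + 1) → EE (n + 1)) =
      c * dt (Fin.cons u x : Fin (n + 1) → EE (n + 1)) := by
  have h := Matrix.det_mul_column (Fin.cons c (fun _ => 1) : Fin (n + 1) → ℝ)
    (Matrix.of fun k j => (Fin.cons u x : Fin (n + 1) → EE (n + 1)) k j)
  rw [Fin.prod_univ_succ] at h
  simp only [Fin.cons_zero, Fin.cons_succ, Finset.prod_const_one, mul_one] at h
  unfold dt
  rw [← h]
  congr 1
  ext i j
  refine Fin.cases ?_ (fun i => ?_) i
  · simp
  · simp

lemma main {n : ℕ} (q : ℕ) (x₀ : EE (n + 1)) (hx : x₀ ≠ 0) :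
    ∫ x : Fin n → EE (n + 1), dt (Fin.cons x₀ x : Fin (n + 1) → EE (n + 1)) ^ (2 * q) *
        ∏ k, Real.exp (-(‖x k‖ ^ 2 / 2)) =
      ‖x₀‖ ^ (2 * q) *
        ∫ x : Fin n → EE (n + 1),
          dt (Fin.cons (EuclideanSpace.single 0 1) x : Fin (n + 1) → EE (n + 1)) ^ (2 * q) *
            ∏ k, Real.exp (-(‖x k‖ ^ 2 / 2)) := by
  have hpos : 0 < ‖x₀‖ := norm_pos_iff.mpr hx
  set e : EE (n + 1) := EuclideanSpace.single 0 1 with he
  have he1 : ‖e‖ = 1 := by
    rw [he, EuclideanSpace.norm_single]; simp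
  set u : EE (n + 1) := ‖x₀‖⁻¹ • x₀ with hu
  have hu1 : ‖u‖ = 1 := by
    rw [hu, norm_smul, norm_inv, norm_norm, inv_mul_cancel₀ hpos.ne']
  have hx0 : x₀ = ‖x₀‖ • u := by
    rw [hu, smul_smul, mul_inv_cancel₀ hpos.ne', one_smul]
  let O : EE (n + 1) ≃ₗᵢ[ℝ] EE (n + 1) := (ℝ ∙ (e - u))ᗮ.reflection
  have hO : O e = u := Submodule.reflection_sub (he1.trans hu1.symm)
  let f : (Fin n → EE (n + 1)) ≃ᵐ (Fin n → EE (n + 1)) :=
    MeasurableEquiv.piCongrRight (fun _ => O.toMeasurableEquiv)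
  have hf : MeasurePreserving f volume volume :=
    volume_preserving_pi (fun _ => O.measurePreserving)
  have hfa : ∀ (x : Fin n → EE (n + 1)) (k : Fin n), f x k = O (x k) := fun x k => rfl
  rw [← hf.integral_comp' , ← integral_const_mul]
  refine integral_congr_ae (Filter.Eventually.of_forall fun x => ?_)
  have h1 : dt (Fin.cons x₀ (f x) : Fin (n + 1) → EE (n + 1)) ^ (2 * q) =
      ‖x₀‖ ^ (2 * q) * dt (Fin.cons e x : Fin (n + 1) → EE (n + 1)) ^ (2 * q) := by
    rw [hx0, dt_cons_smul, ← hx0, mul_pow]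
    congr 1
    rw [← dt_iso O (Fin.cons e x : Fin (n + 1) → EE (n + 1)) q]
    congr 2
    funext k
    refine Fin.cases ?_ (fun i => ?_) k
    · simp only [Fin.cons_zero]; exact hO.symm
    · simp only [Fin.cons_succ]; exact hfa x i
  have h2 : ∏ k, Real.exp (-(‖f x k‖ ^ 2 / 2)) = ∏ k, Real.exp (-(‖x k‖ ^ 2 / 2)) := by
    refine Finset.prod_congr rfl fun k _ => ?_
    rw [hfa, LinearIsometryEquiv.norm_map]
  simp only []
  rw [h1, h2]
  ring

end MGR_

open MGR_ in
theorem mgr_proof : Stmt_MGR := by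
  intro n q x₀
  by_cases hx : x₀ = 0
  · rcases Nat.eq_zero_or_pos q with hq | hq
    · subst hq
      simp
    · subst hx
      have h0 : ∀ x : Fin n → EE (n + 1),
          dt (Fin.cons (0 : EE (n + 1)) x : Fin (n + 1) → EE (n + 1)) = 0 := by
        intro x
        unfold dt
        refine Matrix.det_eq_zero_of_row_eq_zero 0 fun j => ?_
        simp
      have h1 : 2 * q ≠ 0 := by omega
      simp only [h0, zero_pow h1, zero_mul, integral_zero, norm_zero]
  · exact main q x₀ hx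

end PPI
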