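import Pool.Agent.PPI.Stmts

set_option autoImplicit false

namespace PPI

open MeasureTheory Set Filter Topology
open scoped ENNReal Pointwise

namespace MGT_

/-- kernel of the layer cake formula -/
noncomputable def hk (r s : ℝ) : ℝ := if 0 < s ∧ r ≤ s then s * Real.exp (-(s ^ 2 / 2)) else 0

lemma hk_nonneg (r s : ℝ) : 0 ≤ hk r s := by
  unfold hk
  split_ifs with h
  · exact mul_nonneg h.1.le (Real.exp_pos _).le
  · exact le_rfl

lemma hk_meas : Measurable (fun p : ℝ × ℝ => hk p.1 p.2) := by
  unfold hk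
  refine Measurable.ite ?_ ?_ measurable_const
  · exact (measurableSet_lt measurable_const measurable_snd).inter
      (measurableSet_le measurable_fst measurable_snd)
  · fun_prop

lemma deriv_aux (s : ℝ) :
    HasDerivAt (fun s : ℝ => -Real.exp (-(s ^ 2 / 2))) (s * Real.exp (-(s ^ 2 / 2))) s := by
  have h1 : HasDerivAt (fun s : ℝ => -(s ^ 2 / 2)) (-s) s := by
    have := ((hasDerivAt_pow 2 s).div_const 2).neg
    refine this.congr_deriv ?_
    norm_num
  have h2 := h1.exp.neg
  refine h2.congr_deriv ?_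
  ring

lemma tendsto_aux : Tendsto (fun s : ℝ => -Real.exp (-(s ^ 2 / 2))) atTop (𝓝 0) := by
  have h1 : Tendsto (fun s : ℝ => -(s ^ 2 / 2)) atTop atBot := by
    refine tendsto_neg_atTop_atBot.comp ?_
    exact (tendsto_pow_atTop (by norm_num)).atTop_div_const (by norm_num)
  have h2 := (Real.tendsto_exp_atBot.comp h1).neg
  simpa using h2

lemma hk_ae (r : ℝ) (hr : 0 ≤ r) :
    hk r =ᵐ[volume] (Ioi r).indicator (fun s => s * Real.exp (-(s ^ 2 / 2))) := by
  have h0 : ∀ᵐ s : ℝ ∂volume, s ≠ r := by
    have := measure_singleton (μ := (volume : Measure ℝ)) r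
    exact (compl_mem_ae_iff.mpr this)
  filter_upwards [h0] with s hs
  unfold hk
  rcases lt_or_ge r s with h | h
  · rw [if_pos ⟨lt_of_le_of_lt hr h, h.le⟩, indicator_of_mem (mem_Ioi.2 h)]
  · have h' : s < r := lt_of_le_of_ne h hs
    rw [if_neg (fun hh => absurd hh.2 (not_le.2 h')),
      indicator_of_notMem (fun hh => absurd (mem_Ioi.1 hh) (not_lt.2 h))]

lemma hk_int (r : ℝ) (hr : 0 ≤ r) :
    Integrable (hk r) ∧ ∫ s, hk r s = Real.exp (-(r ^ 2 / 2)) := by
  have hpos : ∀ x ∈ Ioi r, 0 ≤ x * Real.exp (-(x ^ 2 / 2)) := fun x hx =>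
    mul_nonneg (hr.trans (mem_Ioi.1 hx).le) (Real.exp_pos _).le
  have h1 := integrableOn_Ioi_deriv_of_nonneg' (fun x (_ : x ∈ Ici r) => deriv_aux x) hpos
    tendsto_aux
  have h2 := integral_Ioi_of_hasDerivAt_of_nonneg' (fun x (_ : x ∈ Ici r) => deriv_aux x) hpos
    tendsto_aux
  constructor
  · exact ((integrable_indicator_iff measurableSet_Ioi).2 h1).congr (hk_ae r hr).symm
  · rw [integral_congr_ae (hk_ae r hr), integral_indicator measurableSet_Ioi, h2]
    ring

/-- the weight -/
noncomputable def wk (m : ℕ) (s : ℝ) : ℝ :=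
  if 0 < s then s ^ (m + 1) * Real.exp (-(s ^ 2 / 2)) else 0

lemma wk_int (n q : ℕ) : ∫ s, wk (n + 2 * q) s = cc n q := by
  unfold cc
  rw [← integral_indicator measurableSet_Ioi]
  refine integral_congr_ae (Eventually.of_forall fun s => ?_)
  simp only [wk, indicator, mem_Ioi]

lemma dt_scale {n : ℕ} (s : Fin n → ℝ) (y : Fin n → EE n) :
    dt (fun k => s k • y k) = (∏ k, s k) * dt y := by
  unfold dt
  rw [← Matrix.det_mul_column]
  rfl

lemma dt_cont (n : ℕ) : Continuous (fun x : Fin n → EE n => dt x) := by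
  unfold dt
  refine Continuous.matrix_det ?_
  refine continuous_matrix fun i j => ?_
  simp only [Matrix.of_apply]
  fun_prop

lemma change {n : ℕ} (s : Fin n → ℝ) (hs : ∀ k, 0 < s k) (g : (Fin n → EE n) → ℝ) :
    ∫ x, g x = (∏ k, s k) ^ n * ∫ y : Fin n → EE n, g (fun k => s k • y k) := by
  set D : (Fin n → EE n) →L[ℝ] (Fin n → EE n) :=
    ContinuousLinearMap.pi (fun k => ((s k) • ContinuousLinearMap.id ℝ (EE n)).comp
      (ContinuousLinearMap.proj k)) with hD
  have hDa : ∀ y k, D y k = s k • y k := fun y k => rfl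
  have hdet : D.det = (∏ k, s k) ^ n := by
    rw [hD, ContinuousLinearMap.det_pi, ← Finset.prod_pow]
    refine Finset.prod_congr rfl fun k _ => ?_
    have : LinearMap.det ((s k) • (LinearMap.id : EE n →ₗ[ℝ] EE n)) = s k ^ n := by
      rw [LinearMap.det_smul, LinearMap.det_id, mul_one]
      simp
    exact this
  have hinj : InjOn D univ := by
    intro x _ y _ h
    funext k
    have := congrFun h k
    rw [hDa, hDa] at this
    exact smul_right_injective _ (hs k).ne' this
  have hsurj : D '' univ = univ := by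
    rw [image_univ]
    refine range_eq_univ.2 fun y => ⟨fun k => (s k)⁻¹ • y k, ?_⟩
    funext k
    rw [hDa, smul_smul, mul_inv_cancel₀ (hs k).ne', one_smul]
  have h := integral_image_eq_integral_abs_det_fderiv_smul (volume : Measure (Fin n → EE n))
    MeasurableSet.univ (f := D) (f' := fun _ => D)
    (fun x _ => D.hasFDerivAt.hasFDerivWithinAt) hinj g
  rw [hsurj] at h
  simp only [Measure.restrict_univ, smul_eq_mul] at h
  rw [h, integral_const_mul, hdet, abs_of_pos (pow_pos (Finset.prod_pos fun k _ => hs k) n)]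
  rfl

lemma inner_eq (n q : ℕ) (s : Fin n → ℝ) :
    ∫ x : Fin n → EE n, dt x ^ (2 * q) * ∏ k, hk ‖x k‖ (s k) =
      (∏ k, wk (n + 2 * q) (s k)) * ∫ x in Bp n, dt x ^ (2 * q) := by
  by_cases hs : ∀ k, 0 < s k
  · rw [change s hs]
    have hBm : MeasurableSet (Bp n) := by
      unfold Bp
      exact MeasurableSet.univ_pi fun _ => Metric.isClosed_closedBall.measurableSet
    rw [← integral_indicator hBm, ← integral_const_mul, ← integral_const_mul]
    refine integral_congr_ae (Eventually.of_forall fun y => ?_)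
    simp only
    rw [dt_scale]
    by_cases hy : y ∈ Bp n
    · rw [indicator_of_mem hy]
      have h1 : ∀ k, hk ‖s k • y k‖ (s k) = s k * Real.exp (-(s k ^ 2 / 2)) := by
        intro k
        unfold hk
        rw [if_pos]
        refine ⟨hs k, ?_⟩
        have hyk : ‖y k‖ ≤ 1 := by
          have := hy k (mem_univ k)
          simpa [Bn] using this
        rw [norm_smul, Real.norm_of_nonneg (hs k).le]
        nlinarith [hs k]
      have h2 : ∀ k, wk (n + 2 * q) (s k) =
          s k ^ n * (s k ^ (2 * q) * (s k * Real.exp (-(s k ^ 2 / 2)))) := by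
        intro k
        unfold wk
        rw [if_pos (hs k)]
        ring
      rw [Finset.prod_congr rfl fun k _ => h1 k, Finset.prod_congr rfl fun k _ => h2 k,
        Finset.prod_mul_distrib (f := fun k => s k ^ n), Finset.prod_mul_distrib
          (f := fun k => s k ^ (2 * q)), Finset.prod_pow, Finset.prod_pow, mul_pow]
      ring
    · rw [indicator_of_notMem hy]
      have : ∃ k, ¬ ‖y k‖ ≤ 1 := by
        by_contra hcon
        push Not at hcon
        refine hy fun k _ => ?_
        simpa [Bn] using hcon k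
      obtain ⟨k, hk'⟩ := this
      have h1 : hk ‖s k • y k‖ (s k) = 0 := by
        unfold hk
        rw [if_neg]
        rintro ⟨_, h⟩
        rw [norm_smul, Real.norm_of_nonneg (hs k).le] at h
        apply hk'
        by_contra hc
        push Not at hc
        nlinarith [hs k]
      have h2 : ∏ k, hk ‖s k • y k‖ (s k) = 0 := Finset.prod_eq_zero (Finset.mem_univ k) h1
      rw [h2]
      ring
  · push Not at hs
    obtain ⟨k, hk'⟩ := hs
    have h1 : ∏ k, wk (n + 2 * q) (s k) = 0 := by
      refine Finset.prod_eq_zero (Finset.mem_univ k) ?_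
      unfold wk
      rw [if_neg (not_lt.2 hk')]
    have h2 : ∀ x : Fin n → EE n, ∏ k, hk ‖x k‖ (s k) = 0 := by
      intro x
      refine Finset.prod_eq_zero (Finset.mem_univ k) ?_
      unfold hk
      rw [if_neg (fun h => absurd h.1 (not_lt.2 hk'))]
    rw [h1, zero_mul]
    simp only [h2, mul_zero, integral_zero]

end MGT_

open MGT_

theorem mgt_proof (h1 : Stmt_MGI) : Stmt_MGT := by
  intro n q _
  have hF0 : ∀ x : Fin n → EE n, 0 ≤ dt x ^ (2 * q) := fun x => by
    rw [pow_mul]
    positivity
  have hG : ∀ x : Fin n → EE n,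
      ∏ k, Real.exp (-(‖x k‖ ^ 2 / 2)) = ∫ s : Fin n → ℝ, ∏ k, hk ‖x k‖ (s k) := by
    intro x
    rw [integral_fintype_prod_volume_eq_prod (fun k => hk ‖x k‖)]
    exact Finset.prod_congr rfl fun k _ => (hk_int _ (norm_nonneg _)).2.symm
  have hmeas : Measurable (fun p : (Fin n → EE n) × (Fin n → ℝ) =>
      dt p.1 ^ (2 * q) * ∏ k, hk ‖p.1 k‖ (p.2 k)) := by
    refine Measurable.mul ?_ ?_
    · exact ((dt_cont n).comp continuous_fst).pow _ |>.measurable
    · refine Finset.measurable_prod _ fun k _ => ?_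
      have h2 : Measurable (fun p : (Fin n → EE n) × (Fin n → ℝ) => (‖p.1 k‖, p.2 k)) := by
        fun_prop
      exact hk_meas.comp h2
  have hI : Integrable (fun p : (Fin n → EE n) × (Fin n → ℝ) =>
      dt p.1 ^ (2 * q) * ∏ k, hk ‖p.1 k‖ (p.2 k)) (volume.prod volume) := by
    rw [integrable_prod_iff hmeas.aestronglyMeasurable]
    constructor
    · refine Eventually.of_forall fun x => ?_
      have h3 : Integrable (fun s : Fin n → ℝ => ∏ k, hk ‖x k‖ (s k))
          (Measure.pi fun _ => volume) :=
        Integrable.fintype_prod (f := fun k => hk ‖x k‖)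
          fun k => (hk_int _ (norm_nonneg _)).1
      have h4 := h3.const_mul (dt x ^ (2 * q))
      rw [← volume_pi] at h4
      exact h4
    · refine (h1 n q).congr (Eventually.of_forall fun x => ?_)
      simp only
      rw [hG, ← integral_const_mul]
      refine integral_congr_ae (Eventually.of_forall fun s => ?_)
      simp only
      rw [Real.norm_of_nonneg]
      exact mul_nonneg (hF0 x) (Finset.prod_nonneg fun k _ => hk_nonneg _ _)
  calc gm n q = ∫ x : Fin n → EE n, ∫ s : Fin n → ℝ,
          dt x ^ (2 * q) * ∏ k, hk ‖x k‖ (s k) := by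
        unfold gm
        refine integral_congr_ae (Eventually.of_forall fun x => ?_)
        simp only
        rw [hG, integral_const_mul]
    _ = ∫ s : Fin n → ℝ, ∫ x : Fin n → EE n, dt x ^ (2 * q) * ∏ k, hk ‖x k‖ (s k) :=
        integral_integral_swap hI
    _ = ∫ s : Fin n → ℝ, (∏ k, wk (n + 2 * q) (s k)) * ∫ x in Bp n, dt x ^ (2 * q) := by
        refine integral_congr_ae (Eventually.of_forall fun s => ?_)
        exact inner_eq n q s
    _ = cc n q ^ n * ∫ x in Bp n, dt x ^ (2 * q) := by
        rw [integral_mul_const, integral_fintype_prod_volume_eq_pow, wk_int, Fintype.card_fin]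

end PPI
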