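import Pool.Agent.PPI.Stmts

/-!
# PPI/MKI: Minkowski's inequality for polytopes
-/

set_option autoImplicit false

namespace PPI

open MeasureTheory Set Filter Topology
open scoped ENNReal Pointwise

namespace MKI_

lemma deriv_nonneg (φ : ℝ → ℝ) (φ' : ℝ) (h : HasDerivAt φ φ' 0) (t0 : ℝ) (ht0 : 0 < t0)
    (hφ : ∀ t, 0 < t → t < t0 → φ 0 ≤ φ t) : 0 ≤ φ' := by
  have h1 := h.tendsto_slope_zero_right
  refine ge_of_tendsto h1 ?_
  have h2 : ∀ᶠ t in 𝓝[>] (0 : ℝ), t < t0 :=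
    (eventually_lt_nhds ht0).filter_mono nhdsWithin_le_nhds
  filter_upwards [h2, self_mem_nhdsWithin] with t ht1 ht2
  have ht3 : 0 < t := ht2
  have h3 := hφ t ht3 ht1
  rw [zero_add, smul_eq_mul]
  exact mul_nonneg (inv_nonneg.mpr ht3.le) (sub_nonneg.mpr h3)

/-- the covering of `Q + t L` by the cells -/
lemma cover {n N : ℕ} (v : Fin N → EE n) (hc : ∀ x, ∃ i, x ∈ cn v i)
    (L : Set (EE n)) (c : Fin N → ℝ) (hL : ∀ i, ∀ x ∈ L, inner ℝ (v i) x ≤ c i) (t : ℝ)
    (ht : 0 < t) : Pol v + t • L ⊆ ⋃ i, cell v i (1 + t * c i) := by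
  rintro x ⟨q, hq, y, ⟨l, hl, rfl⟩, rfl⟩
  obtain ⟨i, hi⟩ := hc (q + t • l)
  refine mem_iUnion.mpr ⟨i, hi, ?_⟩
  have h1 : inner ℝ (v i) (q + t • l) = inner ℝ (v i) q + t * inner ℝ (v i) l := by
    rw [inner_add_right, inner_smul_right]
  show inner ℝ (v i) (q + t • l) ≤ 1 + t * c i
  rw [h1]
  have h2 := hq i
  have h3 := mul_le_mul_of_nonneg_left (hL i l hl) ht.le
  linarith

lemma vl_le {n N : ℕ} (h1 : Stmt_CEL) (v : Fin N → EE n) (hn : 1 ≤ n) (hQ : IsCompact (Pol v))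
    (L : Set (EE n)) (c : Fin N → ℝ) (hL : ∀ i, ∀ x ∈ L, inner ℝ (v i) x ≤ c i) (t : ℝ)
    (ht : 0 < t) (htc : ∀ i, 0 ≤ 1 + t * c i) :
    volume (Pol v + t • L) ≤ ENNReal.ofReal (∑ i, vl (cell v i 1) * (1 + t * c i) ^ n) := by
  obtain ⟨hm, hd, hx, hs, hsub, hfin, hsum, hpos, hne⟩ := h1 n N v hn hQ
  have h2 := cover v hx L c hL t ht
  refine (measure_mono h2).trans ?_
  refine (measure_iUnion_fintype_le _ _).trans ?_
  have hnn : ∀ i, 0 ≤ vl (cell v i 1) := fun i => ENNReal.toReal_nonneg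
  rw [ENNReal.ofReal_sum_of_nonneg (fun i _ => mul_nonneg (hnn i) (pow_nonneg (htc i) n))]
  refine Finset.sum_le_sum fun i _ => ?_
  rw [hs i (1 + t * c i) (htc i), ENNReal.ofReal_mul (hnn i), mul_comm]
  refine mul_le_mul' ?_ le_rfl
  unfold vl
  rw [ENNReal.ofReal_toReal (hfin i)]

lemma small {N : ℕ} (c : Fin N → ℝ) : ∃ t0 : ℝ, 0 < t0 ∧ ∀ t, 0 < t → t < t0 →
    ∀ i, 0 ≤ 1 + t * c i := by
  have hS : 0 ≤ ∑ i, |c i| := Finset.sum_nonneg fun i _ => abs_nonneg _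
  refine ⟨1 / (1 + ∑ i, |c i|), by positivity, ?_⟩
  intro t ht ht1 i
  have h1 : |c i| ≤ ∑ i, |c i| :=
    Finset.single_le_sum (f := fun i => |c i|) (fun j _ => abs_nonneg _) (Finset.mem_univ i)
  have h2 : t * (1 + ∑ i, |c i|) < 1 := by
    rwa [lt_div_iff₀ (by positivity)] at ht1
  have h3 : t * (-|c i|) ≤ t * c i := mul_le_mul_of_nonneg_left (neg_abs_le _) ht.le
  have h4 : t * |c i| ≤ t * ∑ i, |c i| := mul_le_mul_of_nonneg_left h1 ht.le
  nlinarith

lemma hasDeriv_g {n N : ℕ} (f c : Fin N → ℝ) :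
    HasDerivAt (fun t : ℝ => ∑ i, f i * (1 + t * c i) ^ n) (∑ i, (n * f i) * c i) 0 := by
  have h : ∀ i ∈ (Finset.univ : Finset (Fin N)),
      HasDerivAt (fun t : ℝ => f i * (1 + t * c i) ^ n) ((n * f i) * c i) 0 := by
    intro i _
    have h1 : HasDerivAt (fun t : ℝ => 1 + t * c i) (c i) 0 := by
      have := ((hasDerivAt_id (0 : ℝ)).mul_const (c i)).const_add 1
      simpa using this
    have h2 := (h1.pow n).const_mul (f i)
    have h3 : f i * (n * (1 + 0 * c i) ^ (n - 1) * c i) = (n * f i) * c i := by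
      rw [zero_mul, add_zero, one_pow]; ring
    rw [h3] at h2
    exact h2
  have h4 := HasDerivAt.sum h
  have h5 : (∑ i, fun t : ℝ => f i * (1 + t * c i) ^ n) =
      fun t : ℝ => ∑ i, f i * (1 + t * c i) ^ n := by
    ext t; simp [Finset.sum_apply]
  rw [h5] at h4
  exact h4

end MKI_

open MKI_ in
theorem mki_proof (h1 : Stmt_CEL) (h2 : SBA.Stmt_BMF) : Stmt_MKI := by
  intro n N v hn hQ L c hLc hLx hLn hL
  have hcel := h1 n N v hn hQ
  obtain ⟨hm, hd, hx, hs, hsub, hfin, hsum, hpos, hne⟩ := hcel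
  obtain ⟨t0, ht0, hsm⟩ := small c
  have hn0 : (0 : ℝ) < n := by exact_mod_cast hn
  have hfa : ∀ i, fa v i = n * vl (cell v i 1) := fun i => rfl
  have hsum' : ∑ i, vl (cell v i 1) = vl (Pol v) := by
    have h3 : (n : ℝ) * ∑ i, vl (cell v i 1) = n * vl (Pol v) := by
      rw [← hsum, Finset.mul_sum]
      rfl
    exact mul_left_cancel₀ hn0.ne' h3
  have hg0 : (∑ i, vl (cell v i 1) * (1 + 0 * c i) ^ n) = vl (Pol v) := by
    rw [← hsum']
    refine Finset.sum_congr rfl fun i _ => ?_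
    rw [zero_mul, add_zero, one_pow, mul_one]
  have hder : HasDerivAt (fun t : ℝ => ∑ i, vl (cell v i 1) * (1 + t * c i) ^ n)
      (∑ i, fa v i * c i) 0 := hasDeriv_g (n := n) (fun i => vl (cell v i 1)) c
  have hgnn : ∀ t, 0 < t → t < t0 → 0 ≤ ∑ i, vl (cell v i 1) * (1 + t * c i) ^ n := by
    intro t ht1 ht2
    exact Finset.sum_nonneg fun i _ =>
      mul_nonneg ENNReal.toReal_nonneg (pow_nonneg (hsm t ht1 ht2 i) n)
  have hfirst : 0 ≤ ∑ i, fa v i * c i := by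
    obtain ⟨l, hl⟩ := hLn
    refine deriv_nonneg _ _ hder t0 ht0 ?_
    intro t ht1 ht2
    show (∑ i, vl (cell v i 1) * (1 + 0 * c i) ^ n) ≤ ∑ i, vl (cell v i 1) * (1 + t * c i) ^ n
    rw [hg0]
    have h3 := vl_le h1 v hn hQ {l} c (by
      intro i x hx; rw [mem_singleton_iff.mp hx]; exact hL i l hl) t ht1 (hsm t ht1 ht2)
    have h4 : volume (Pol v + t • ({l} : Set (EE n))) = volume (Pol v) := by
      rw [smul_set_singleton, add_singleton]
      have : (fun x => x + t • l) '' Pol v = (t • l) +ᵥ Pol v := by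
        ext x
        constructor
        · rintro ⟨y, hy, rfl⟩
          exact ⟨y, hy, by simp [vadd_eq_add, add_comm]⟩
        · rintro ⟨y, hy, rfl⟩
          exact ⟨y, hy, by simp [vadd_eq_add, add_comm]⟩
      rw [this, measure_vadd]
    rw [h4] at h3
    exact ENNReal.toReal_le_of_le_ofReal (hgnn t ht1 ht2) h3
  refine ⟨hfirst, ?_⟩
  set a : ℝ := vl (Pol v) ^ (1 / (n : ℝ)) with ha
  set b : ℝ := vl L ^ (1 / (n : ℝ)) with hb
  have hvQ : 0 ≤ vl (Pol v) := ENNReal.toReal_nonneg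
  have hvL : 0 ≤ vl L := ENNReal.toReal_nonneg
  have han : a ^ n = vl (Pol v) := by
    rw [ha, ← Real.rpow_natCast, ← Real.rpow_mul hvQ, one_div, inv_mul_cancel₀ hn0.ne',
      Real.rpow_one]
  have hbn : b ^ n = vl L := by
    rw [hb, ← Real.rpow_natCast, ← Real.rpow_mul hvL, one_div, inv_mul_cancel₀ hn0.ne',
      Real.rpow_one]
  have ha0 : 0 ≤ a := Real.rpow_nonneg hvQ _
  have hb0 : 0 ≤ b := Real.rpow_nonneg hvL _
  have hQfin : volume (Pol v) ≠ ⊤ := hQ.measure_ne_top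
  have hLfin : volume L ≠ ⊤ := hLc.measure_ne_top
  have hQne : (Pol v).Nonempty := ⟨0, fun i => by rw [inner_zero_right]; exact zero_le_one⟩
  have key : ∀ t, 0 < t → t < t0 →
      (a + t * b) ^ n ≤ ∑ i, vl (cell v i 1) * (1 + t * c i) ^ n := by
    intro t ht1 ht2
    have h3 := vl_le h1 v hn hQ L c hL t ht1 (hsm t ht1 ht2)
    have h4 := h2 n hn (Pol v) (t • L) hQ (hLc.smul t) hQne (hLn.smul_set)
    have h5 : volume (t • L) = ENNReal.ofReal (t ^ n) * volume L := by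
      rw [Measure.addHaar_smul, finrank_euclideanSpace_fin, abs_of_nonneg (by positivity)]
    have h6 : (volume (t • L)) ^ (1 / (n : ℝ)) = ENNReal.ofReal (t * b) := by
      rw [h5]
      have h7 : volume L = ENNReal.ofReal (vl L) := (ENNReal.ofReal_toReal hLfin).symm
      rw [h7, ← ENNReal.ofReal_mul (by positivity),
        ENNReal.ofReal_rpow_of_nonneg (by positivity) (by positivity)]
      congr 1
      rw [Real.mul_rpow (by positivity) hvL, ← Real.rpow_natCast t n,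
        ← Real.rpow_mul ht1.le, one_div, mul_inv_cancel₀ hn0.ne', Real.rpow_one]
      rw [hb, one_div]
    have h8 : (volume (Pol v)) ^ (1 / (n : ℝ)) = ENNReal.ofReal a := by
      have h7 : volume (Pol v) = ENNReal.ofReal (vl (Pol v)) :=
        (ENNReal.ofReal_toReal hQfin).symm
      rw [h7, ENNReal.ofReal_rpow_of_nonneg hvQ (by positivity)]
    rw [h6, h8, ← ENNReal.ofReal_add ha0 (by positivity)] at h4
    have h9 : ENNReal.ofReal (a + t * b) ^ n ≤ volume (Pol v + t • L) := by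
      have h10 : ENNReal.ofReal (a + t * b) ^ (n : ℝ) ≤
          ((volume (Pol v + t • L)) ^ (1 / (n : ℝ))) ^ (n : ℝ) :=
        ENNReal.rpow_le_rpow h4 hn0.le
      rw [← ENNReal.rpow_mul, one_div, inv_mul_cancel₀ hn0.ne', ENNReal.rpow_one,
        ENNReal.rpow_natCast] at h10
      exact h10
    have h11 := h9.trans h3
    rw [← ENNReal.ofReal_pow (by positivity)] at h11
    exact (ENNReal.ofReal_le_ofReal_iff (hgnn t ht1 ht2)).mp h11
  have hder2 : HasDerivAt (fun t : ℝ => (a + t * b) ^ n) (n * a ^ (n - 1) * b) 0 := by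
    have h3 : HasDerivAt (fun t : ℝ => a + t * b) b 0 := by
      have := ((hasDerivAt_id (0 : ℝ)).mul_const b).const_add a
      simpa using this
    have h4 := h3.pow n
    have h5 : (n : ℝ) * (a + 0 * b) ^ (n - 1) * b = n * a ^ (n - 1) * b := by
      rw [zero_mul, add_zero]
    rw [h5] at h4
    exact h4
  have hder3 := hder.sub hder2
  have hS : (n : ℝ) * a ^ (n - 1) * b ≤ ∑ i, fa v i * c i := by
    have h3 := deriv_nonneg _ _ hder3 t0 ht0 (by
      intro t ht1 ht2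
      have h4 := key t ht1 ht2
      show (∑ i, vl (cell v i 1) * (1 + 0 * c i) ^ n) - (a + 0 * b) ^ n ≤
        (∑ i, vl (cell v i 1) * (1 + t * c i) ^ n) - (a + t * b) ^ n
      rw [hg0, zero_mul, add_zero, han]
      linarith)
    linarith
  have hpow : ((n : ℝ) * a ^ (n - 1) * b) ^ n ≤ (∑ i, fa v i * c i) ^ n :=
    pow_le_pow_left₀ (by positivity) hS n
  have h6 : ((n : ℝ) * a ^ (n - 1) * b) ^ n = (n : ℝ) ^ n * vl (Pol v) ^ (n - 1) * vl L := by
    rw [mul_pow, mul_pow, hbn, ← pow_mul, mul_comm (n - 1) n, pow_mul, han]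
  rw [← h6]
  exact hpow

end PPI
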