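import Pool.Agent.PPI.Stmts

/-!
# PPI / MOM: the moment bound
-/

set_option autoImplicit false

namespace PPI

open MeasureTheory Set
open scoped ENNReal Pointwise

namespace MOM_

lemma fac_prod (n : ℕ) : (∏ m ∈ Finset.range n, ((m : ℝ) + 1)) = n.factorial := by
  have := Finset.prod_range_add_one_eq_factorial n
  rw [← this]
  push_cast
  rfl

/-- the product bound -/
lemma bound (n q : ℕ) (hn : 1 ≤ n) :
    (∏ m ∈ Finset.range n, (((m : ℝ) + 1 + 2 * q) / n)) ≤
      (n.factorial : ℝ) / (n : ℝ) ^ n * Real.exp (2 * q * (1 + Real.log n)) := by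
  have hn0 : (0 : ℝ) < n := by exact_mod_cast hn
  have h1 : ∀ m ∈ Finset.range n, ((m : ℝ) + 1 + 2 * q) / n ≤
      ((m : ℝ) + 1) / n * Real.exp (2 * q * ((m : ℝ) + 1)⁻¹) := by
    intro m _
    have hm : (0 : ℝ) < (m : ℝ) + 1 := by positivity
    have h2 : 1 + 2 * q * ((m : ℝ) + 1)⁻¹ ≤ Real.exp (2 * q * ((m : ℝ) + 1)⁻¹) := by
      have := Real.add_one_le_exp (2 * q * ((m : ℝ) + 1)⁻¹)
      linarith
    calc ((m : ℝ) + 1 + 2 * q) / n = ((m : ℝ) + 1) / n * (1 + 2 * q * ((m : ℝ) + 1)⁻¹) := by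
          field_simp
      _ ≤ _ := mul_le_mul_of_nonneg_left h2 (by positivity)
  refine (Finset.prod_le_prod (fun m _ => by positivity) h1).trans ?_
  rw [Finset.prod_mul_distrib, Finset.prod_div_distrib, fac_prod, Finset.prod_const,
    Finset.card_range, ← Real.exp_sum, ← Finset.mul_sum]
  refine mul_le_mul_of_nonneg_left (Real.exp_le_exp.2 ?_) (by positivity)
  refine mul_le_mul_of_nonneg_left ?_ (by positivity)
  have h3 := harmonic_le_one_add_log n
  have h4 : ((harmonic n : ℚ) : ℝ) = ∑ i ∈ Finset.range n, ((i : ℝ) + 1)⁻¹ := by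
    unfold harmonic
    push_cast
    rfl
  rw [h4] at h3
  exact h3

end MOM_

open MOM_ in
theorem mom_proof (h1 : Stmt_MGC) (h2 : Stmt_MGT) (h3 : Stmt_MCC) : Stmt_MOM := by
  intro n q hn hq
  have hn0 : (0 : ℝ) < n := by exact_mod_cast hn
  have hq0 : (0 : ℝ) < q := by exact_mod_cast hq
  have hs : 0 < √(2 * Real.pi) := by
    have := Real.pi_pos
    positivity
  have hA := h3 n q hn
  have hP : 0 < ∏ j ∈ Finset.range q, ((n : ℝ) + 2 + 2 * j) :=
    Finset.prod_pos fun j _ => by positivity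
  have hprod : 0 < cc n q * kap n := by rw [hA]; positivity
  have hcc : cc n q ≠ 0 := left_ne_zero_of_mul hprod.ne'
  have hkap : kap n ≠ 0 := right_ne_zero_of_mul hprod.ne'
  have hI : (∫ x in Bp n, dt x ^ (2 * q)) = gm n q / cc n q ^ n := by
    rw [h2 n q hn]
    field_simp
  have hmom : mom n q = (∏ m ∈ Finset.range n, ∏ j ∈ Finset.range q, ((m : ℝ) + 1 + 2 * j)) /
      (∏ j ∈ Finset.range q, ((n : ℝ) + 2 + 2 * j)) ^ n := by
    unfold mom
    rw [hI, div_div, ← mul_pow, hA, h1, mul_pow, ← pow_mul, sq]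
    have : √(2 * Real.pi) ^ (n * n) ≠ 0 := (pow_pos hs _).ne'
    rw [mul_div_mul_left _ _ this]
  have hle : mom n q ≤ (∏ m ∈ Finset.range n, (((m : ℝ) + 1 + 2 * q) / n)) ^ q := by
    rw [hmom]
    have e1 : (∏ j ∈ Finset.range q, ((n : ℝ) + 2 + 2 * j)) ^ n =
        ∏ m ∈ Finset.range n, ∏ j ∈ Finset.range q, ((n : ℝ) + 2 + 2 * j) := by
      rw [Finset.prod_const, Finset.card_range]
    rw [e1, ← Finset.prod_div_distrib, ← Finset.prod_pow]
    refine Finset.prod_le_prod (fun m _ => ?_) fun m _ => ?_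
    · have : 0 ≤ ∏ j ∈ Finset.range q, ((m : ℝ) + 1 + 2 * j) :=
        Finset.prod_nonneg fun j _ => by positivity
      exact div_nonneg this hP.le
    · rw [← Finset.prod_div_distrib]
      have e2 : (((m : ℝ) + 1 + 2 * q) / n) ^ q =
          ∏ _j ∈ Finset.range q, (((m : ℝ) + 1 + 2 * q) / n) := by
        rw [Finset.prod_const, Finset.card_range]
      rw [e2]
      refine Finset.prod_le_prod (fun j _ => by positivity) fun j hj => ?_
      have hj' : (j : ℝ) ≤ q := by
        have := Finset.mem_range.1 hj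
        exact_mod_cast this.le
      refine div_le_div₀ (by positivity) (by linarith) hn0 ?_
      have : (0 : ℝ) ≤ j := Nat.cast_nonneg j
      linarith
  have hb := bound n q hn
  have hle2 : mom n q ≤ ((n.factorial : ℝ) / (n : ℝ) ^ n *
      Real.exp (2 * q * (1 + Real.log n))) ^ q :=
    hle.trans (pow_le_pow_left₀ (Finset.prod_nonneg fun m _ => by positivity) hb q)
  have hth : th n q ^ (2 * q) = ((n.factorial : ℝ) / (n : ℝ) ^ n *
      Real.exp (2 * q * (1 + Real.log n))) ^ q * (n : ℝ) ^ n := by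
    unfold th
    rw [mul_pow, pow_mul, Real.sq_sqrt (by positivity), mul_pow, mul_assoc]
    congr 1
    rw [← Real.exp_nat_mul, ← Real.exp_nat_mul]
    have e3 : (n : ℝ) ^ n = Real.exp (n * Real.log n) := by
      rw [Real.exp_nat_mul, Real.exp_log hn0]
    rw [e3, ← Real.exp_add]
    congr 1
    push_cast
    field_simp
  rw [hth]
  exact mul_le_mul_of_nonneg_right hle2 (by positivity)

end PPI
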