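import Pool.Agent.PPI.Stmts

set_option autoImplicit false

namespace PPI

open MeasureTheory Set Filter Topology
open scoped ENNReal Pointwise

namespace MON_

lemma huP {n : ℕ} (u : EE n) (y : hyp u) : inner ℝ u (y : EE n) = 0 :=
  Submodule.mem_orthogonal_singleton_iff_inner_right.1 y.2

lemma norm_le' {n : ℕ} (u : EE n) (y : hyp u) (a : ℝ) :
    ‖(y : EE n)‖ ≤ ‖(y : EE n) + a • u‖ := by
  have h : ‖(y : EE n) + a • u‖ ^ 2 = ‖(y : EE n)‖ ^ 2 + ‖a • u‖ ^ 2 := by
    rw [norm_add_sq_real, inner_smul_right, real_inner_comm, huP]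
    ring
  have h2 : ‖(y : EE n)‖ ^ 2 ≤ ‖(y : EE n) + a • u‖ ^ 2 := by
    rw [h]
    nlinarith [sq_nonneg ‖a • u‖]
  exact le_of_sq_le_sq h2 (norm_nonneg _)

lemma proj_sub {n : ℕ} (K : Set (EE n)) (R : ℝ) (hR : ∀ x ∈ K, ‖x‖ ≤ R) (u : EE n) :
    projSet K u ⊆ Metric.closedBall (0 : hyp u) R := by
  rintro y ⟨a, ha⟩
  rw [mem_closedBall_zero_iff]
  exact (norm_le' u y a).trans (hR _ ha)

lemma ball_ne_top {n : ℕ} (u : EE n) (R : ℝ) :
    (measureSpaceOfInnerProductSpace (E := ↥(hyp u))).volume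
      (Metric.closedBall (0 : hyp u) R) ≠ ⊤ :=
  (measure_closedBall_lt_top (μ := (measureSpaceOfInnerProductSpace (E := ↥(hyp u))).volume)).ne

lemma ball_vol {n : ℕ} (hn : 2 ≤ n) (u : EE n) (hu : ‖u‖ = 1) (R : ℝ) :
    (measureSpaceOfInnerProductSpace (E := ↥(hyp u))).volume
      (Metric.closedBall (0 : hyp u) R) =
      ENNReal.ofReal R ^ (n - 1) *
        ENNReal.ofReal (√Real.pi ^ (n - 1) / Real.Gamma ((n - 1 : ℕ) / 2 + 1)) := by
  obtain ⟨m, rfl⟩ : ∃ m, n = m + 2 := ⟨n - 2, by omega⟩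
  have hu0 : u ≠ 0 := by
    intro h
    rw [h, norm_zero] at hu
    exact zero_ne_one hu
  have : Fact (Module.finrank ℝ (EE (m + 2)) = (m + 1) + 1) := ⟨by simp⟩
  have hf : Module.finrank ℝ ↥(hyp u) = m + 1 := by
    unfold hyp
    exact Submodule.finrank_orthogonal_span_singleton (n := m + 1) hu0
  have : Nontrivial ↥(hyp u) := by
    apply Module.nontrivial_of_finrank_pos (R := ℝ)
    omega
  have := InnerProductSpace.volume_closedBall (E := ↥(hyp u)) 0 R
  rw [hf] at this
  simpa using this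

lemma shadow_mono {n : ℕ} (K K' : Set (EE n)) (hK' : IsCompact K') (h : K ⊆ K') (u : EE n) :
    shadow K u ≤ shadow K' u := by
  obtain ⟨R, hR⟩ := hK'.isBounded.exists_norm_le
  unfold shadow vol
  apply ENNReal.toReal_mono
  · exact ne_top_of_le_ne_top (ball_ne_top u R) (measure_mono (proj_sub K' R hR u))
  · apply measure_mono
    rintro y ⟨a, ha⟩
    exact ⟨a, h ha⟩

lemma shadow_bdd {n : ℕ} (hn : 2 ≤ n) (K : Set (EE n)) (hK : IsCompact K) :
    ∃ B : ℝ, ∀ u : EE n, ‖u‖ = 1 → shadow K u ≤ B := by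
  obtain ⟨R, hR⟩ := hK.isBounded.exists_norm_le
  refine ⟨(ENNReal.ofReal R ^ (n - 1) *
        ENNReal.ofReal (√Real.pi ^ (n - 1) / Real.Gamma ((n - 1 : ℕ) / 2 + 1))).toReal,
        fun u hu => ?_⟩
  rw [← ball_vol hn u hu R]
  unfold shadow vol
  exact ENNReal.toReal_mono (ball_ne_top u R) (measure_mono (proj_sub K R hR u))

lemma shadow_trans {n : ℕ} (K : Set (EE n)) (z u : EE n) (hu : ‖u‖ = 1) :
    shadow ((fun x => x + z) '' K) u = shadow K u := by
  have hmem : z - inner ℝ u z • u ∈ hyp u := by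
    unfold hyp
    rw [Submodule.mem_orthogonal_singleton_iff_inner_right, inner_sub_right, inner_smul_right,
      real_inner_self_eq_norm_sq, hu]
    ring
  set w : hyp u := ⟨z - inner ℝ u z • u, hmem⟩ with hw
  have hset : projSet ((fun x => x + z) '' K) u = (fun y => y + (-w)) ⁻¹' (projSet K u) := by
    ext y
    constructor
    · rintro ⟨a, x, hx, hxy⟩
      refine ⟨a - inner ℝ u z, ?_⟩
      have : ((y + -w : hyp u) : EE n) + (a - inner ℝ u z) • u = x := by
        have h1 : x = (y : EE n) + a • u - z := by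
          rw [← hxy]
          simp
        rw [h1]
        push_cast
        rw [hw, sub_smul]
        simp only
        abel
      rw [this]
      exact hx
    · rintro ⟨a, ha⟩
      refine ⟨a + inner ℝ u z, _, ha, ?_⟩
      simp only
      push_cast
      rw [hw, add_smul]
      simp only
      abel
  unfold shadow vol
  rw [hset]
  congr 1
  exact measure_preimage_add_right
    (measureSpaceOfInnerProductSpace (E := ↥(hyp u))).volume (-w) (projSet K u)

end MON_

open MON_ in
theorem mon_proof : Stmt_MON := by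
  intro n hn
  refine ⟨?_, ?_, ?_⟩
  · intro K hK
    obtain ⟨B, hB⟩ := shadow_bdd hn K hK
    have hsub : projBody K ⊆ Metric.closedBall (0 : EE n) (max B 0) := by
      intro y hy
      rw [mem_closedBall_zero_iff]
      by_cases h0 : y = 0
      · rw [h0, norm_zero]
        exact le_max_right _ _
      · have hn0 : ‖y‖ ≠ 0 := norm_ne_zero_iff.2 h0
        have hu : ‖(‖y‖⁻¹ • y)‖ = 1 := by
          rw [norm_smul, norm_inv, norm_norm, inv_mul_cancel₀ hn0]
        have h1 := (hy _ hu).trans (hB _ hu)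
        rw [real_inner_smul_left, real_inner_self_eq_norm_sq, pow_two, ← mul_assoc,
          inv_mul_cancel₀ hn0, one_mul] at h1
        exact h1.trans (le_max_left _ _)
    exact ne_top_of_le_ne_top (measure_closedBall_lt_top).ne (measure_mono hsub)
  · intro K K' _ hK' hKK' y hy u hu
    exact (hy u hu).trans (shadow_mono K K' hK' hKK' u)
  · intro K z
    ext y
    constructor
    · intro hy u hu
      have := hy u hu
      rwa [shadow_trans K z u hu] at this
    · intro hy u hu
      rw [shadow_trans K z u hu]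
      exact hy u hu

end PPI
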