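import Pool.Agent.PPI.Stmts

/-! NUA: the value of the ball -/

set_option autoImplicit false

namespace PPI

open MeasureTheory Set

namespace NUA_

lemma kap_eq (n : ℕ) (hn : 1 ≤ n) :
    kap n = √Real.pi ^ n / Real.Gamma (n / 2 + 1) := by
  have : Nonempty (Fin n) := ⟨⟨0, hn⟩⟩
  unfold kap vl Bn
  rw [EuclideanSpace.volume_closedBall]
  simp only [ENNReal.ofReal_one, one_pow, Fintype.card_fin, one_mul]
  rw [ENNReal.toReal_ofReal]
  positivity

lemma conv (s t : ℝ) (hs : 0 < s) (ht : 0 < t) :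
    Real.Gamma ((s + t) / 2) ^ 2 ≤ Real.Gamma s * Real.Gamma t := by
  have h := Real.Gamma_mul_add_mul_le_rpow_Gamma_mul_rpow_Gamma hs ht
    (a := 1 / 2) (b := 1 / 2) (by norm_num) (by norm_num) (by norm_num)
  have e : (1 / 2 : ℝ) * s + 1 / 2 * t = (s + t) / 2 := by ring
  rw [e] at h
  have hs' := Real.Gamma_pos_of_pos hs
  have ht' := Real.Gamma_pos_of_pos ht
  rw [← Real.sqrt_eq_rpow, ← Real.sqrt_eq_rpow] at h
  have h0 : 0 ≤ Real.Gamma ((s + t) / 2) := (Real.Gamma_pos_of_pos (by positivity)).le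
  calc Real.Gamma ((s + t) / 2) ^ 2 ≤ (√(Real.Gamma s) * √(Real.Gamma t)) ^ 2 :=
        pow_le_pow_left₀ h0 h 2
    _ = Real.Gamma s * Real.Gamma t := by
        rw [mul_pow, Real.sq_sqrt hs'.le, Real.sq_sqrt ht'.le]

end NUA_

open NUA_ in
theorem nua_proof : Stmt_NUA := by
  intro n hn
  have hn' : (2 : ℝ) ≤ n := by exact_mod_cast hn
  set G1 := Real.Gamma ((n : ℝ) / 2 + 1) with hG1
  set G0 := Real.Gamma ((n : ℝ) / 2 + 1 / 2) with hG0
  have p1 : 0 < G1 := Real.Gamma_pos_of_pos (by positivity)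
  have p0 : 0 < G0 := Real.Gamma_pos_of_pos (by positivity)
  have hpi : 0 < √Real.pi := Real.sqrt_pos.mpr Real.pi_pos
  have k1 : kap n = √Real.pi ^ n / G1 := kap_eq n (by omega)
  have k0 : kap (n - 1) = √Real.pi ^ (n - 1) / G0 := by
    rw [kap_eq (n - 1) (by omega), hG0]
    have : (((n - 1 : ℕ) : ℝ) / 2 + 1) = (n : ℝ) / 2 + 1 / 2 := by
      rw [Nat.cast_sub (by omega)]
      push_cast
      ring
    rw [this]
  -- log-convexity
  have c1 : G1 ^ 2 ≤ ((n : ℝ) + 1) / 2 * G0 ^ 2 := by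
    have h := conv ((n : ℝ) / 2 + 1 / 2) ((n : ℝ) / 2 + 1 / 2 + 1) (by positivity) (by positivity)
    rw [Real.Gamma_add_one (by positivity : (n : ℝ) / 2 + 1 / 2 ≠ 0)] at h
    have e : ((n : ℝ) / 2 + 1 / 2 + ((n : ℝ) / 2 + 1 / 2 + 1)) / 2 = (n : ℝ) / 2 + 1 := by ring
    rw [e] at h
    calc G1 ^ 2 ≤ _ := h
      _ = ((n : ℝ) + 1) / 2 * G0 ^ 2 := by rw [← hG0]; ring
  have c0 : G0 ≤ G1 := by
    have h := conv ((n : ℝ) / 2) ((n : ℝ) / 2 + 1) (by positivity) (by positivity)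
    have e : ((n : ℝ) / 2 + ((n : ℝ) / 2 + 1)) / 2 = (n : ℝ) / 2 + 1 / 2 := by ring
    rw [e] at h
    have h2 : G1 = (n : ℝ) / 2 * Real.Gamma ((n : ℝ) / 2) :=
      Real.Gamma_add_one (by positivity)
    have hp := Real.Gamma_pos_of_pos (by positivity : (0 : ℝ) < (n : ℝ) / 2)
    have h3 : Real.Gamma ((n : ℝ) / 2) ≤ G1 := by
      rw [h2]
      nlinarith
    have h4 : G0 ^ 2 ≤ G1 ^ 2 := by
      calc G0 ^ 2 ≤ Real.Gamma ((n : ℝ) / 2) * G1 := h
        _ ≤ G1 * G1 := mul_le_mul_of_nonneg_right h3 p1.le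
        _ = G1 ^ 2 := by ring
    exact le_of_sq_le_sq h4 p1.le
  -- duplication
  have d : G0 * G1 = √Real.pi * ((n.factorial : ℝ) / 2 ^ n) := by
    have h := Real.Gamma_mul_Gamma_add_half ((n : ℝ) / 2 + 1 / 2)
    have e1 : (n : ℝ) / 2 + 1 / 2 + 1 / 2 = (n : ℝ) / 2 + 1 := by ring
    have e2 : 2 * ((n : ℝ) / 2 + 1 / 2) = (n : ℝ) + 1 := by ring
    have e3 : 1 - ((n : ℝ) + 1) = -(n : ℝ) := by ring
    rw [e1, e2, e3, Real.Gamma_nat_eq_factorial, Real.rpow_neg (by norm_num),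
      Real.rpow_natCast] at h
    rw [hG0, hG1, h]
    ring
  have hfac : (0 : ℝ) < n.factorial := by exact_mod_cast n.factorial_pos
  have d' : (n.factorial : ℝ) / 2 ^ n ≤ G1 ^ 2 := by
    have h1 : (1 : ℝ) ≤ √Real.pi := by
      rw [show (1 : ℝ) = √1 by simp]
      exact Real.sqrt_le_sqrt (by linarith [Real.pi_gt_three])
    have h2 : G0 * G1 ≤ G1 ^ 2 := by
      rw [sq]
      exact mul_le_mul_of_nonneg_right c0 p1.le
    have h3 : (0 : ℝ) < (n.factorial : ℝ) / 2 ^ n := by positivity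
    calc (n.factorial : ℝ) / 2 ^ n = 1 * ((n.factorial : ℝ) / 2 ^ n) := (one_mul _).symm
      _ ≤ √Real.pi * ((n.factorial : ℝ) / 2 ^ n) := mul_le_mul_of_nonneg_right h1 h3.le
      _ = G0 * G1 := d.symm
      _ ≤ G1 ^ 2 := h2
  -- (n+1)^n ≤ e n^n
  have ex : ((n : ℝ) + 1) ^ n ≤ Real.exp 1 * (n : ℝ) ^ n := by
    have h := Real.add_one_le_exp (1 / (n : ℝ))
    have hnn : (0 : ℝ) < n := by linarith
    have h2 : ((n : ℝ) + 1) ≤ n * Real.exp (1 / n) := by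
      have : ((n : ℝ) + 1) = n * (1 / (n : ℝ) + 1) := by
        field_simp
        ring
      rw [this]
      exact mul_le_mul_of_nonneg_left h hnn.le
    calc ((n : ℝ) + 1) ^ n ≤ (n * Real.exp (1 / n)) ^ n := pow_le_pow_left₀ (by positivity) h2 n
      _ = Real.exp 1 * (n : ℝ) ^ n := by
        rw [mul_pow, ← Real.exp_nat_mul]
        have : (n : ℝ) * (1 / n) = 1 := by field_simp
        rw [this]
        ring
  -- the square of the main quantity
  have main : (G1 ^ (n - 1) / G0 ^ n) ^ 2 ≤ Real.exp 1 * ((n : ℝ) ^ n / n.factorial) := by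
    have h1 : (G1 ^ (n - 1)) ^ 2 * G1 ^ 2 = (G1 ^ 2) ^ n := by
      rw [← pow_mul, ← pow_mul, ← pow_add]
      congr 1
      omega
    have h2 : (G1 ^ 2) ^ n ≤ (((n : ℝ) + 1) / 2) ^ n * (G0 ^ n) ^ 2 := by
      calc (G1 ^ 2) ^ n ≤ (((n : ℝ) + 1) / 2 * G0 ^ 2) ^ n := pow_le_pow_left₀ (by positivity) c1 n
        _ = _ := by
          rw [mul_pow, ← pow_mul, ← pow_mul, mul_comm 2 n]
    have h3 : (G1 ^ (n - 1)) ^ 2 * ((n.factorial : ℝ) / 2 ^ n) ≤
        (((n : ℝ) + 1) / 2) ^ n * (G0 ^ n) ^ 2 :=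
      le_trans (mul_le_mul_of_nonneg_left d' (by positivity)) (h1 ▸ h2)
    have h4 : (G1 ^ (n - 1)) ^ 2 * (n.factorial : ℝ) ≤ ((n : ℝ) + 1) ^ n * (G0 ^ n) ^ 2 := by
      have h5 := mul_le_mul_of_nonneg_right h3 (by positivity : (0 : ℝ) ≤ 2 ^ n)
      have e1 : (G1 ^ (n - 1)) ^ 2 * ((n.factorial : ℝ) / 2 ^ n) * 2 ^ n =
          (G1 ^ (n - 1)) ^ 2 * (n.factorial : ℝ) := by
        field_simp
      have e2 : (((n : ℝ) + 1) / 2) ^ n * (G0 ^ n) ^ 2 * 2 ^ n =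
          ((n : ℝ) + 1) ^ n * (G0 ^ n) ^ 2 := by
        rw [div_pow]
        field_simp
      rw [e1, e2] at h5
      exact h5
    rw [div_pow, div_le_iff₀ (by positivity)]
    have h6 : Real.exp 1 * ((n : ℝ) ^ n / n.factorial) * (G0 ^ n) ^ 2 =
        (Real.exp 1 * (n : ℝ) ^ n * (G0 ^ n) ^ 2) / n.factorial := by ring
    rw [h6, le_div_iff₀ hfac]
    exact le_trans h4 (mul_le_mul_of_nonneg_right ex (by positivity))
  have main' : G1 ^ (n - 1) / G0 ^ n ≤ √(Real.exp 1) * √((n : ℝ) ^ n / n.factorial) := by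
    rw [← Real.sqrt_mul (Real.exp_pos 1).le]
    exact Real.le_sqrt_of_sq_le main
  -- conclusion
  have hk1 : 0 < kap n := by rw [k1]; positivity
  have id : kap (n - 1) ^ n / kap n ^ (n - 2) = kap n * (G1 ^ (n - 1) / G0 ^ n) := by
    rw [k0, k1]
    obtain ⟨m, rfl⟩ : ∃ m, n = m + 2 := ⟨n - 2, by omega⟩
    have e1 : m + 2 - 1 = m + 1 := rfl
    have e2 : m + 2 - 2 = m := rfl
    rw [e1, e2, div_pow, div_pow, ← pow_mul, ← pow_mul]
    rw [div_div_div_eq, div_mul_div_comm, div_eq_div_iff (by positivity) (by positivity)]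
    have q1 : √Real.pi ^ ((m + 1) * (m + 2)) = √Real.pi ^ (m + 2) * √Real.pi ^ ((m + 2) * m) := by
      rw [← pow_add]
      congr 1
      ring
    rw [q1]
    ring
  rw [id]
  calc kap n * (G1 ^ (n - 1) / G0 ^ n) ≤ kap n * (√(Real.exp 1) * √((n : ℝ) ^ n / n.factorial)) :=
        mul_le_mul_of_nonneg_left main' hk1.le
    _ = √(Real.exp 1) * kap n * √((n : ℝ) ^ n / n.factorial) := by ring

end PPI
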