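import Pool.Agent.PPI.Stmts

/-!
# PPI, module NUB: the choice of `q`
-/

set_option autoImplicit false

namespace PPI

theorem nub_proof : Stmt_NUB := by
  refine ⟨15, by norm_num, fun n hn => ⟨⌈√(n : ℝ)⌉₊, ?_, ?_⟩⟩
  · have h1 : (0 : ℝ) < √(n : ℝ) := Real.sqrt_pos.mpr (by positivity)
    exact Nat.one_le_iff_ne_zero.mpr (Nat.ceil_pos.mpr h1).ne'
  have hn2 : (2 : ℝ) ≤ n := by exact_mod_cast hn
  have hn0 : (0 : ℝ) < n := by linarith
  set s : ℝ := √(n : ℝ) with hs
  have hs1 : 1 ≤ s := by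
    rw [hs, Real.one_le_sqrt]
    linarith
  have hs0 : 0 < s := by linarith
  have hss : s * s = n := Real.mul_self_sqrt hn0.le
  set q : ℝ := ((⌈s⌉₊ : ℕ) : ℝ) with hq
  have hq1 : s ≤ q := Nat.le_ceil s
  have hq2 : q ≤ 2 * s := by
    have := (Nat.ceil_lt_add_one hs0.le).le
    linarith
  have hq0 : 0 < q := by linarith
  set l : ℝ := Real.log n with hl
  have hl2 : (2 / 3 : ℝ) ≤ l := by
    have h1 : Real.log 2 ≤ l := Real.log_le_log (by norm_num) hn2
    have h2 := Real.log_two_gt_d9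
    linarith
  have hl0 : 0 < l := by linarith
  have e1 : q * (1 + l) ≤ 2 * s * (1 + l) := mul_le_mul_of_nonneg_right hq2 (by linarith)
  have e2 : n * l / (2 * q) ≤ s * l / 2 := by
    rw [div_le_div_iff₀ (by positivity) (by norm_num)]
    have : (n : ℝ) * l * 2 = 2 * s * l * s := by rw [← hss]; ring
    rw [this]
    have h3 : 2 * s * l * s ≤ 2 * s * l * q := by
      apply mul_le_mul_of_nonneg_left hq1
      positivity
    linarith
  have e3 : √(Real.exp 1) * (8 * Real.exp 1 * (n + 1)) ≤ Real.exp (4 + 2 * l) := by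
    have h1 : √(Real.exp 1) = Real.exp (1 / 2) := by
      rw [Real.sqrt_eq_iff_mul_self_eq (Real.exp_pos _).le (Real.exp_pos _).le, ← Real.exp_add]
      norm_num
    have h2 : (8 : ℝ) ≤ Real.exp (5 / 2) := by
      have h3 : Real.exp (5 / 2) = Real.exp 1 * Real.exp 1 * Real.exp (1 / 2) := by
        rw [← Real.exp_add, ← Real.exp_add]
        norm_num
      have h4 := Real.exp_one_gt_d9
      have h5 := Real.add_one_le_exp (1 / 2 : ℝ)
      rw [h3]
      nlinarith [Real.exp_pos (1 / 2 : ℝ), Real.exp_pos (1 : ℝ), mul_pos (Real.exp_pos (1 : ℝ)) (Real.exp_pos (1 : ℝ))]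
    have h6 : (n : ℝ) + 1 ≤ Real.exp (2 * l) := by
      have h7 : Real.exp (2 * l) = (n : ℝ) * n := by
        rw [two_mul, Real.exp_add, hl, Real.exp_log hn0]
      rw [h7]
      nlinarith
    calc √(Real.exp 1) * (8 * Real.exp 1 * (n + 1))
        ≤ Real.exp (1 / 2) * (Real.exp (5 / 2) * Real.exp 1 * Real.exp (2 * l)) := by
          rw [h1]
          gcongr
      _ = Real.exp (4 + 2 * l) := by
          rw [← Real.exp_add, ← Real.exp_add, ← Real.exp_add]
          ring_nf
  calc √(Real.exp 1) * (8 * Real.exp 1 * (n + 1)) *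
        Real.exp (q * (1 + l) + n * l / (2 * q))
      ≤ Real.exp (4 + 2 * l) * Real.exp (2 * s * (1 + l) + s * l / 2) := by
        apply mul_le_mul e3 _ (Real.exp_pos _).le (Real.exp_pos _).le
        exact Real.exp_le_exp.mpr (add_le_add e1 e2)
    _ = Real.exp (4 + 2 * l + (2 * s * (1 + l) + s * l / 2)) := by rw [Real.exp_add (4 + 2 * l)]
    _ ≤ Real.exp (15 * s * l) := by
        apply Real.exp_le_exp.mpr
        have h1 : l ≤ s * l := by nlinarith
        have h2 : (1 : ℝ) ≤ 3 / 2 * l := by linarith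
        have h3 : s ≤ 3 / 2 * (s * l) := by nlinarith
        have h4 : 1 ≤ 3 / 2 * (s * l) := by linarith
        nlinarith

end PPI
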