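import Pool.Agent.PPI.Stmts

/-!
# PPI module PEX: existence of a minimiser (uses PHC, COE, LSE, AVE)
-/

set_option autoImplicit false

namespace PPI

open MeasureTheory Set Filter Topology
open scoped ENNReal Pointwise

namespace PEX_

/-- shift invariance of the functional -/
theorem shift (h3 : Stmt_LSE) (h4 : Stmt_AVE) (n : ℕ) (ι : Type) [Fintype ι] [Nonempty ι]
    (ε : ℝ) (p : ι → ℝ) (w : ι → EE n) (hn : 1 ≤ n) (hε : 0 < ε) (hp : ∑ i, p i = 1)
    (T : Matrix (Fin n) (Fin n) ℝ) (b : ι → ℝ) (c : ℝ) :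
    Fn ε p w T (fun i => b i - c) = Fn ε p w T b := by
  obtain ⟨-, hcont, -, -, -, -, -, hsh⟩ := h3 n ι ε w T b hε
  obtain ⟨-, -, hadd, -, hconst, -, -, -⟩ := h4 n hn
  unfold Fn
  have h1 : ph ε w T (fun i => b i - c) = fun x => ph ε w T b x + c := by
    funext x
    exact hsh x c
  rw [h1, hadd (ph ε w T b) (fun _ => c) hcont continuous_const, hconst c]
  have h2 : ∑ i, p i * (b i - c) = ∑ i, p i * b i - c := by
    rw [show (∑ i, p i * (b i - c)) = ∑ i, (p i * b i - p i * c) from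
      Finset.sum_congr rfl fun i _ => by ring]
    rw [Finset.sum_sub_distrib, ← Finset.sum_mul, hp, one_mul]
  rw [h2]
  ring

end PEX_

theorem pex_proof (h1 : Stmt_PHC) (h2 : Stmt_COE) (h3 : Stmt_LSE) (h4 : Stmt_AVE) : Stmt_PEX := by
  intro n ι _ _ ε p w W hn hε hNF
  obtain ⟨⟨c, hc, hcoe⟩, hb⟩ := h2 n ι ε p w W hn hε hNF
  have hcont := h1 n ι ε p w hn hε
  set F0 : ℝ := Fn ε p w 1 0 with hF0
  set S : Set (Matrix (Fin n) (Fin n) ℝ × (ι → ℝ)) :=
    {z | z.1.det = 1 ∧ ∑ i, p i * z.2 i = 0 ∧ Fn ε p w z.1 z.2 ≤ F0} with hS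
  have hclosed : IsClosed S := by
    have e1 : IsClosed {z : Matrix (Fin n) (Fin n) ℝ × (ι → ℝ) | z.1.det = 1} :=
      isClosed_eq (Continuous.matrix_det continuous_fst) continuous_const
    have e2 : IsClosed {z : Matrix (Fin n) (Fin n) ℝ × (ι → ℝ) | ∑ i, p i * z.2 i = 0} := by
      apply isClosed_eq _ continuous_const
      apply continuous_finsetSum
      intro i _
      exact continuous_const.mul ((continuous_apply i).comp continuous_snd)
    have e3 : IsClosed {z : Matrix (Fin n) (Fin n) ℝ × (ι → ℝ) | Fn ε p w z.1 z.2 ≤ F0} :=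
      isClosed_le hcont continuous_const
    exact e1.inter (e2.inter e3)
  set K1 : Set (Fin n → Fin n → ℝ) :=
    Set.univ.pi fun _ => Set.univ.pi fun _ => Set.Icc (-(F0 / c)) (F0 / c) with hK1
  set K2 : Set (ι → ℝ) := Set.univ.pi fun j => Set.Icc (-F0) (F0 / p j) with hK2
  have hK1c : IsCompact K1 := isCompact_univ_pi fun _ => isCompact_univ_pi fun _ => isCompact_Icc
  have hK2c : IsCompact K2 := isCompact_univ_pi fun _ => isCompact_Icc
  have hsub : S ⊆ ((K1 : Set (Matrix (Fin n) (Fin n) ℝ)) ×ˢ K2) := by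
    rintro ⟨T, b⟩ ⟨_, hz2, hz3⟩
    simp only at hz2 hz3
    refine ⟨?_, ?_⟩
    · intro k _ l _
      have h := hcoe T b k l
      have h5 : |T k l| ≤ F0 / c := by
        rw [le_div_iff₀ hc]
        linarith [mul_comm c |T k l|]
      exact abs_le.mp h5
    · intro j _
      obtain ⟨h5, h6⟩ := hb T b hz2 j
      refine ⟨by linarith, ?_⟩
      rw [le_div_iff₀ (hNF.ppos j)]
      linarith [mul_comm (b j) (p j)]
  have hScomp : IsCompact S := IsCompact.of_isClosed_subset (hK1c.prod hK2c) hclosed hsub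
  have hSne : S.Nonempty := by
    refine ⟨(1, 0), ?_, ?_, ?_⟩
    · simp
    · simp
    · exact le_rfl
  obtain ⟨z, hzS, hmin⟩ := hScomp.exists_isMinOn hSne hcont.continuousOn
  rw [isMinOn_iff] at hmin
  refine ⟨z.1, z.2, hzS.1, ?_⟩
  intro T' b' hT'
  obtain ⟨m, hm⟩ : ∃ m : ℝ, m = ∑ i, p i * b' i := ⟨_, rfl⟩
  obtain ⟨b'', hb''⟩ : ∃ b'' : ι → ℝ, b'' = fun i => b' i - m := ⟨_, rfl⟩
  have hsh : Fn ε p w T' b'' = Fn ε p w T' b' := by
    rw [hb'']
    exact PEX_.shift h3 h4 n ι ε p w hn hε hNF.psum T' b' m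
  rw [← hsh]
  by_cases hle : Fn ε p w T' b'' ≤ F0
  · have hsum : ∑ i, p i * b'' i = 0 := by
      rw [hb'']
      simp only
      rw [show (∑ i, p i * (b' i - m)) = ∑ i, (p i * b' i - p i * m) from
        Finset.sum_congr rfl fun i _ => by ring]
      rw [Finset.sum_sub_distrib, ← Finset.sum_mul, hNF.psum, one_mul, ← hm, sub_self]
    have hmem : (T', b'') ∈ S := ⟨hT', hsum, hle⟩
    exact hmin (T', b'') hmem
  · exact hzS.2.2.trans (le_of_lt (not_le.mp hle))

end PPI
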