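import Pool.Agent.PPI.Stmts

/-!
# Squad PPI, module PHC: joint continuity of the functional
-/

set_option autoImplicit false

namespace PPI

open MeasureTheory Set Filter Topology
open scoped ENNReal Pointwise

theorem phc_proof : Stmt_PHC := by
  intro n ι _ _ ε p w hn hε
  have key : Continuous (fun z : (Fin n → Fin n → ℝ) × (ι → ℝ) =>
      Fn ε p w (Matrix.of z.1) z.2) := by
    unfold Fn ave
    have h1 : Continuous (fun z : (Fin n → Fin n → ℝ) × (ι → ℝ) =>
        ∫ x in Bn n, ph ε w (Matrix.of z.1) z.2 x) := by
      apply continuous_parametric_integral_of_continuous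
        (f := fun (z : (Fin n → Fin n → ℝ) × (ι → ℝ)) (x : EE n) =>
          ph ε w (Matrix.of z.1) z.2 x) ?_ (isCompact_closedBall 0 1)
      unfold Function.uncurry ph bil
      simp only [Matrix.of_apply]
      refine continuous_const.mul (Continuous.log ?_ ?_)
      · fun_prop
      · intro q
        exact (Finset.sum_pos (fun i _ => Real.exp_pos _) Finset.univ_nonempty).ne'
    exact (h1.div_const _).add (by fun_prop)
  exact key

end PPI
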