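import Pool.Agent.PPI.Stmts

/-!
# Squad PPI (MP_0bf616_gt), module PLA: the size of `lam`
-/

set_option autoImplicit false

namespace PPI

open MeasureTheory Set Filter Topology
open scoped ENNReal Pointwise

namespace PLA_

variable {n : ℕ}

lemma bil_cont (T : Matrix (Fin n) (Fin n) ℝ) (y : EE n) : Continuous fun x : EE n => bil T x y := by
  unfold bil
  fun_prop

/-- finite sums of averages -/
lemma ave_sum (h1 : Stmt_AVE) (hn : 1 ≤ n) {κ : Type} (s : Finset κ) (f : κ → EE n → ℝ)
    (hf : ∀ i, Continuous (f i)) :
    ave (fun x => ∑ i ∈ s, f i x) = ∑ i ∈ s, ave (f i) := by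
  classical
  obtain ⟨-, -, hadd, hmul, hconst, -⟩ := h1 n hn
  induction s using Finset.induction_on with
  | empty => simpa using hconst 0
  | insert i s hi ih =>
    rw [Finset.sum_insert hi, ← ih, ← hadd (f i) (fun x => ∑ j ∈ s, f j x) (hf i)
      (continuous_finsetSum _ fun j _ => hf j)]
    congr 1
    funext x
    rw [Finset.sum_insert hi]

lemma swap3 {ι : Type} [Fintype ι] (q : ι → ℝ) (x : Fin n → ℝ) (T : Matrix (Fin n) (Fin n) ℝ)
    (w : ι → Fin n → ℝ) :
    ∑ i, q i * ∑ k, ∑ l, x k * T k l * w i l =
      ∑ l, ∑ k, T k l * ∑ i, q i * (x k * w i l) := by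
  simp_rw [Finset.mul_sum]
  rw [Finset.sum_comm]
  calc ∑ k, ∑ i, ∑ l, q i * (x k * T k l * w i l)
      = ∑ k, ∑ l, ∑ i, q i * (x k * T k l * w i l) :=
        Finset.sum_congr rfl fun k _ => Finset.sum_comm
    _ = ∑ l, ∑ k, ∑ i, q i * (x k * T k l * w i l) := Finset.sum_comm
    _ = _ := by
        refine Finset.sum_congr rfl fun l _ => Finset.sum_congr rfl fun k _ =>
          Finset.sum_congr rfl fun i _ => ?_
        ring

end PLA_

open PLA_ in
theorem pla_proof (h1 : Stmt_LSE) (h2 : Stmt_AVE) : Stmt_PLA := by
  intro n ι _ _ ε p w T b lam hn hε hT hw hG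
  obtain ⟨-, hphc, hwsc, -, hws1, -, hent, -⟩ := h1 n ι ε w T b hε
  have h2' := h2 n hn
  obtain ⟨-, -, hadd, hmul, hconst, hmono, -⟩ := h2'
  constructor
  · have h := congrArg Matrix.det hG
    rw [Matrix.det_mul, Matrix.det_transpose, hT, one_mul, Matrix.det_smul, Matrix.det_one,
      mul_one, Fintype.card_fin] at h
    exact h
  · have htr : ave (fun x => ∑ i, ws ε w T b x i * bil T x (w i)) = n * lam := by
      have h := congrArg Matrix.trace hG
      rw [Matrix.trace_smul, Matrix.trace_one, Fintype.card_fin, smul_eq_mul] at h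
      rw [mul_comm, ← h]
      have e1 : (fun x : EE n => ∑ i, ws ε w T b x i * bil T x (w i)) =
          fun x => ∑ l : Fin n, ∑ k : Fin n, T k l * ∑ i, ws ε w T b x i * (x k * w i l) := by
        funext x
        exact swap3 (ws ε w T b x) (fun k => x k) T (fun i l => w i l)
      have hc : ∀ k l : Fin n, Continuous
          (fun x : EE n => T k l * ∑ i, ws ε w T b x i * (x k * w i l)) := by
        intro k l
        refine continuous_const.mul (continuous_finsetSum _ fun i _ => (hwsc i).mul ?_)
        fun_prop
      rw [e1, ave_sum h2 hn Finset.univ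
        (fun l x => ∑ k : Fin n, T k l * ∑ i, ws ε w T b x i * (x k * w i l))
        (fun l => continuous_finsetSum _ fun k _ => hc k l)]
      unfold Matrix.trace
      refine Finset.sum_congr rfl fun l _ => ?_
      rw [ave_sum h2 hn Finset.univ
        (fun k x => T k l * ∑ i, ws ε w T b x i * (x k * w i l)) (fun k => hc k l)]
      rw [Matrix.diag_apply, Matrix.mul_apply]
      refine Finset.sum_congr rfl fun k _ => ?_
      rw [hmul, Matrix.transpose_apply]
      rfl
    have hbc : ∀ i, Continuous (fun x : EE n => bil T x (w i)) := fun i => bil_cont T (w i)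
    have hs1 : Continuous (fun x : EE n => ∑ i, ws ε w T b x i * bil T x (w i)) :=
      continuous_finsetSum _ fun i _ => (hwsc i).mul (hbc i)
    have hs2 : Continuous (fun x : EE n => ∑ i, (-b i) * ws ε w T b x i) :=
      continuous_finsetSum _ fun i _ => continuous_const.mul (hwsc i)
    have hsplit : ave (fun x => ∑ i, ws ε w T b x i * (bil T x (w i) - b i)) =
        n * lam - ∑ i, p i * b i := by
      have e2 : (fun x : EE n => ∑ i, ws ε w T b x i * (bil T x (w i) - b i)) =
          fun x => (∑ i, ws ε w T b x i * bil T x (w i)) + ∑ i, (-b i) * ws ε w T b x i := by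
        funext x
        rw [← Finset.sum_add_distrib]
        refine Finset.sum_congr rfl fun i _ => ?_
        ring
      rw [e2, hadd _ _ hs1 hs2, htr, ave_sum h2 hn Finset.univ
        (fun i x => (-b i) * ws ε w T b x i) (fun i => continuous_const.mul (hwsc i)),
        sub_eq_add_neg, ← Finset.sum_neg_distrib]
      congr 1
      refine Finset.sum_congr rfl fun i _ => ?_
      rw [hmul, hw i]
      ring
    have hle := hmono (fun x => ph ε w T b x + (-(ε * Real.log (Fintype.card ι))))
      (fun x => ∑ i, ws ε w T b x i * (bil T x (w i) - b i))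
      (hphc.add continuous_const)
      (continuous_finsetSum _ fun i _ => (hwsc i).mul ((hbc i).sub continuous_const))
      (fun x _ => by have := hent x; linarith)
    rw [hadd _ _ hphc continuous_const, hconst, hsplit] at hle
    unfold Fn
    have e3 : ave (fun x => ph ε w T b x) = ave (ph ε w T b) := rfl
    rw [e3] at hle
    linarith

end PPI
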