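import Pool.Agent.PPI.Stmts

/-!
# Squad PPI, module PRJ: lower bound for the shadows of a polytope
-/

set_option autoImplicit false

namespace PPI

open MeasureTheory Set
open scoped ENNReal Pointwise

noncomputable section

namespace PRJ_

def sh {n : ℕ} (K : Set (EE n)) (W : Submodule ℝ (EE n)) (u : EE n) : ℝ :=
  vol ↥W {y : ↥W | ∃ a : ℝ, (y : EE n) + a • u ∈ K}

lemma shadow_eq_sh {n : ℕ} (K : Set (EE n)) (u : EE n) : shadow K u = sh K (hyp u) u := rfl

lemma sh_neg {n : ℕ} (K : Set (EE n)) (W : Submodule ℝ (EE n)) (u : EE n) :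
    sh K W (-u) = sh K W u := by
  unfold sh
  have : {y : ↥W | ∃ a : ℝ, (y : EE n) + a • (-u) ∈ K} =
      {y : ↥W | ∃ a : ℝ, (y : EE n) + a • u ∈ K} := by
    ext y
    constructor
    · rintro ⟨a, ha⟩
      exact ⟨-a, by simpa using ha⟩
    · rintro ⟨a, ha⟩
      exact ⟨-a, by simpa using ha⟩
  rw [this]

lemma hyp_neg {n : ℕ} (u : EE n) : hyp (-u) = hyp u := by
  unfold hyp
  rw [← Set.neg_singleton, Submodule.span_neg]

lemma shadow_neg {n : ℕ} (K : Set (EE n)) (u : EE n) : shadow K (-u) = shadow K u := by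
  rw [shadow_eq_sh, shadow_eq_sh, hyp_neg, sh_neg]

lemma bern (n : ℕ) (s : ℝ) (h0 : 0 ≤ s) (h1 : s ≤ 1) :
    n * s * (1 - n * s) ≤ 1 - (1 - s) ^ n := by
  have h2 : (1 - s) ^ n * (1 + s) ^ n ≤ 1 := by
    rw [← mul_pow]
    apply pow_le_one₀
    · nlinarith
    · nlinarith
  have h3 : 1 + n * s ≤ (1 + s) ^ n := one_add_mul_le_pow (by linarith) n
  have h4 : 0 ≤ (1 - s) ^ n := pow_nonneg (by linarith) n
  have h5 : (1 - s) ^ n * (1 + n * s) ≤ 1 :=
    le_trans (mul_le_mul_of_nonneg_left h3 h4) h2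
  have hx : 0 ≤ n * s := by positivity
  set x := n * s with hxdef
  set y := (1 - s) ^ n with hy
  -- y (1+x) ≤ 1, want x (1 - x) ≤ 1 - y
  have h6 : y * (1 + x) ≤ (1 - x + x ^ 2) * (1 + x) := by
    have : (1 - x + x ^ 2) * (1 + x) = 1 + x ^ 3 := by ring
    rw [this]
    have : 0 ≤ x ^ 3 := by positivity
    linarith
  have h7 : y ≤ 1 - x + x ^ 2 := le_of_mul_le_mul_right h6 (by linarith)
  nlinarith

lemma key {n N : ℕ} (h1 : Stmt_CEL) (h2 : Stmt_SHD) (v : Fin N → EE n) (u : EE n) (hn : 2 ≤ n)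
    (hK : IsCompact (Pol v)) (hu : ‖u‖ = 1) (t : ℝ) (ht : 0 < t)
    (ht1 : ∀ i, t * max (inner ℝ (v i) u) 0 ≤ 1) :
    ∑ i, (fa v i / n) * (1 - (1 - t * max (inner ℝ (v i) u) 0) ^ n) ≤ t * shadow (Pol v) u := by
  obtain ⟨c1, c2, c3, c4, c5, c6, c7, c8, c9⟩ := h1 n N v (by omega) hK
  have hconv : Convex ℝ (Pol v) := by
    have : Pol v = ⋂ i, {x | inner ℝ (v i) x ≤ 1} := by
      ext x; simp [Pol]
    rw [this]
    apply convex_iInter
    intro i
    exact convex_halfSpace_le (innerₛₗ ℝ (v i)).isLinear 1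
  have hshd := h2 n (Pol v) u t hn hconv hK hu ht.le
  refine le_trans ?_ hshd
  have hn0 : (n : ℝ) ≠ 0 := by positivity
  set α : Fin N → ℝ := fun i => max (inner ℝ (v i) u) 0 with hα
  have hα0 : ∀ i, 0 ≤ α i := fun i => le_max_right _ _
  set R : Fin N → Set (EE n) := fun i => cell v i 1 \ cell v i (1 - t * α i) with hR
  have hcm : ∀ i s, MeasurableSet (cell v i s) := by
    intro i s
    have : cell v i s = cn v i ∩ {x | inner ℝ (v i) x ≤ s} := by
      ext x; simp [cell]
    rw [this]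
    refine (c1 i).inter ?_
    exact (isClosed_le (by fun_prop) continuous_const).measurableSet
  have hsub : ∀ i, cell v i (1 - t * α i) ⊆ cell v i 1 := by
    intro i x hx
    refine ⟨hx.1, le_trans hx.2 ?_⟩
    have := mul_nonneg ht.le (hα0 i)
    linarith
  have hRvol : ∀ i, vl (R i) = (fa v i / n) * (1 - (1 - t * α i) ^ n) := by
    intro i
    have hs0 : 0 ≤ 1 - t * α i := by
      have := ht1 i
      simp only [hα]
      linarith
    have hfin : volume (cell v i (1 - t * α i)) ≠ ⊤ :=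
      ne_top_of_le_ne_top (c6 i) (measure_mono (hsub i))
    have e1 : volume (R i) = volume (cell v i 1) - volume (cell v i (1 - t * α i)) :=
      measure_sdiff (hsub i) (hcm i _).nullMeasurableSet hfin
    have e2 : vl (R i) = vl (cell v i 1) - vl (cell v i (1 - t * α i)) := by
      unfold vl
      rw [e1, ENNReal.toReal_sub_of_le (measure_mono (hsub i)) (c6 i)]
    have e3 : vl (cell v i (1 - t * α i)) = (1 - t * α i) ^ n * vl (cell v i 1) := by
      unfold vl
      rw [c4 i _ hs0, ENNReal.toReal_mul, ENNReal.toReal_ofReal (pow_nonneg hs0 n)]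
    rw [e2, e3]
    unfold fa
    field_simp
  have hRdisj : Pairwise (fun i j => Disjoint (R i) (R j)) := by
    intro i j hij
    refine (c2 i j hij).mono ?_ ?_
    · intro x hx; exact hx.1.1
    · intro x hx; exact hx.1.1
  have hRm : ∀ i, MeasurableSet (R i) := fun i => (hcm i _).diff (hcm i _)
  have hRfin : ∀ i, volume (R i) ≠ ⊤ := fun i =>
    ne_top_of_le_ne_top (c6 i) (measure_mono sdiff_subset)
  have hsum : ∑ i, vl (R i) = vl (⋃ i, R i) := by
    unfold vl
    rw [measure_iUnion hRdisj hRm, tsum_fintype, ENNReal.toReal_sum (fun i _ => hRfin i)]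
  have htr : vl ((fun x => x + t • u) '' (⋃ i, R i)) = vl (⋃ i, R i) := by
    unfold vl
    rw [Set.image_add_right, measure_preimage_add_right]
  have hincl : (fun x => x + t • u) '' (⋃ i, R i) ⊆ ((fun x => x + t • u) '' (Pol v)) \ Pol v := by
    rintro _ ⟨x, hx, rfl⟩
    rw [mem_iUnion] at hx
    obtain ⟨i, hxi⟩ := hx
    refine ⟨⟨x, c5 i hxi.1, rfl⟩, ?_⟩
    intro hbad
    have h3 : inner ℝ (v i) (x + t • u) ≤ 1 := hbad i
    rw [inner_add_right, inner_smul_right] at h3
    have h4 : ¬ (inner ℝ (v i) x ≤ 1 - t * α i) := fun h => hxi.2 ⟨hxi.1.1, h⟩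
    push Not at h4
    have h5 : inner ℝ (v i) x ≤ 1 := hxi.1.2
    rcases le_or_gt (inner ℝ (v i) u) 0 with h6 | h6
    · have : α i = 0 := max_eq_right h6
      rw [this] at h4
      linarith
    · have : α i = inner ℝ (v i) u := max_eq_left h6.le
      rw [this] at h4
      linarith
  have hfinal : vl (⋃ i, R i) ≤ vl (((fun x => x + t • u) '' (Pol v)) \ Pol v) := by
    rw [← htr]
    unfold vl
    apply ENNReal.toReal_mono _ (measure_mono hincl)
    have hcomp : IsCompact ((fun x => x + t • u) '' (Pol v)) :=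
      hK.image (by fun_prop)
    exact ne_top_of_le_ne_top hcomp.measure_lt_top.ne (measure_mono sdiff_subset)
  calc ∑ i, (fa v i / n) * (1 - (1 - t * max (inner ℝ (v i) u) 0) ^ n)
      = ∑ i, vl (R i) := by
        apply Finset.sum_congr rfl
        intro i _
        exact (hRvol i).symm
    _ = vl (⋃ i, R i) := hsum
    _ ≤ _ := hfinal

lemma half {n N : ℕ} (h1 : Stmt_CEL) (h2 : Stmt_SHD) (v : Fin N → EE n) (u : EE n) (hn : 2 ≤ n)
    (hK : IsCompact (Pol v)) (hu : ‖u‖ = 1) :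
    ∑ i, fa v i * max (inner ℝ (v i) u) 0 ≤ shadow (Pol v) u := by
  have hn0 : (0 : ℝ) < n := by positivity
  have hfa : ∀ i, 0 ≤ fa v i := (h1 n N v (by omega) hK).2.2.2.2.2.2.2.1
  set α : Fin N → ℝ := fun i => max (inner ℝ (v i) u) 0 with hα
  have hα0 : ∀ i, 0 ≤ α i := fun i => le_max_right _ _
  set Q : ℝ := ∑ i, n * (fa v i * α i ^ 2) with hQ
  have hQ0 : 0 ≤ Q := Finset.sum_nonneg fun i _ =>
    mul_nonneg hn0.le (mul_nonneg (hfa i) (sq_nonneg _))
  have hA0 : 0 ≤ ∑ i, α i := Finset.sum_nonneg fun i _ => hα0 i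
  apply le_of_forall_pos_le_add
  intro ε hε
  set t : ℝ := min (1 / (1 + ∑ i, α i)) (ε / (Q + 1)) with ht
  have ht0 : 0 < t := lt_min (by positivity) (by positivity)
  have ht1 : ∀ i, t * α i ≤ 1 := by
    intro i
    have e1 : t ≤ 1 / (1 + ∑ i, α i) := min_le_left _ _
    have e2 : α i ≤ 1 + ∑ i, α i := by
      have := Finset.single_le_sum (fun j _ => hα0 j) (Finset.mem_univ i)
      linarith
    calc t * α i ≤ 1 / (1 + ∑ i, α i) * (1 + ∑ i, α i) :=
          mul_le_mul e1 e2 (hα0 i) (by positivity)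
      _ = 1 := by field_simp
  have hkey := key h1 h2 v u hn hK hu t ht0 ht1
  have hlow : t * (∑ i, fa v i * α i - t * Q) ≤
      ∑ i, (fa v i / n) * (1 - (1 - t * max (inner ℝ (v i) u) 0) ^ n) := by
    rw [hQ, Finset.mul_sum, ← Finset.sum_sub_distrib, Finset.mul_sum]
    apply Finset.sum_le_sum
    intro i _
    have hb := bern n (t * α i) (mul_nonneg ht0.le (hα0 i)) (ht1 i)
    have hf : 0 ≤ fa v i / n := div_nonneg (hfa i) hn0.le
    have := mul_le_mul_of_nonneg_left hb hf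
    refine le_trans (le_of_eq ?_) this
    field_simp
  have h3 : t * (∑ i, fa v i * α i - t * Q) ≤ t * shadow (Pol v) u := le_trans hlow hkey
  have h4 : ∑ i, fa v i * α i - t * Q ≤ shadow (Pol v) u := le_of_mul_le_mul_left h3 ht0
  have h5 : t * Q ≤ ε := by
    have e1 : t ≤ ε / (Q + 1) := min_le_right _ _
    calc t * Q ≤ ε / (Q + 1) * (Q + 1) := mul_le_mul e1 (by linarith) hQ0 (by positivity)
      _ = ε := by field_simp
  have h6 : ∑ i, fa v i * max (inner ℝ (v i) u) 0 = ∑ i, fa v i * α i := rfl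
  linarith

end PRJ_

open PRJ_ in
theorem prj_proof (h1 : Stmt_CEL) (h2 : Stmt_SHD) : Stmt_PRJ := by
  intro n N v u hn hK hu
  have ha := half h1 h2 v u hn hK hu
  have hb := half h1 h2 v (-u) hn hK (by rw [norm_neg]; exact hu)
  rw [shadow_neg] at hb
  have hc : ∑ i, fa v i * |inner ℝ (v i) u| =
      ∑ i, fa v i * max (inner ℝ (v i) u) 0 + ∑ i, fa v i * max (inner ℝ (v i) (-u)) 0 := by
    rw [← Finset.sum_add_distrib]
    apply Finset.sum_congr rfl
    intro i _
    rw [← mul_add, inner_neg_right]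
    rcases le_total (inner ℝ (v i) u) 0 with h | h
    · rw [max_eq_right h, max_eq_left (by linarith), abs_of_nonpos h, zero_add]
    · rw [max_eq_left h, max_eq_right (by linarith), abs_of_nonneg h, add_zero]
  rw [hc]
  linarith

end

end PPI
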