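import Pool.Agent.PPI.Stmts

/-!
# PPI / SHD: volume gained by a translation
-/

set_option autoImplicit false

namespace PPI

open MeasureTheory Set
open scoped ENNReal Pointwise RealInnerProductSpace

namespace SHD_

/-- the decomposition is measure preserving -/
lemma mp {n : ℕ} (u : EE n) (hu : ‖u‖ = 1) :
    MeasurePreserving (fun p : ℝ × ((ℝ ∙ u)ᗮ : Submodule ℝ (EE n)) => p.1 • u + (p.2 : EE n))
      ((volume : Measure ℝ).prod
        (measureSpaceOfInnerProductSpace (E := ↥((ℝ ∙ u)ᗮ))).volume)
      (volume : Measure (EE n)) := by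
  set K : Submodule ℝ (EE n) := ℝ ∙ u with hK
  let iK : MeasureSpace K := measureSpaceOfInnerProductSpace
  let iP : MeasureSpace Kᗮ := measureSpaceOfInnerProductSpace
  have h1 : MeasurePreserving (fun p : K × Kᗮ => ((p.1 : EE n) + (p.2 : EE n)))
      ((volume : Measure K).prod (volume : Measure Kᗮ)) (volume : Measure (EE n)) := by
    have a := (K.orthogonalDecomposition.symm).measurePreserving
    have b := WithLp.volume_preserving_toLp K Kᗮ
    have c := a.comp b
    exact c
  have h4 : MeasurePreserving (LinearIsometryEquiv.toSpanUnitSingleton (𝕜 := ℝ) u hu)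
      (volume : Measure ℝ) (volume : Measure K) :=
    (LinearIsometryEquiv.toSpanUnitSingleton (𝕜 := ℝ) u hu).measurePreserving
  have h5 := h4.prod (MeasurePreserving.id (volume : Measure Kᗮ))
  exact h1.comp h5

lemma projcoe {n : ℕ} (u : EE n) (hu : ‖u‖ = 1) (x : EE n) :
    (((ℝ ∙ u)ᗮ.orthogonalProjectionOnto x : ((ℝ ∙ u)ᗮ : Submodule ℝ (EE n))) : EE n) =
      x - ⟪u, x⟫ • u := by
  rw [Submodule.orthogonalProjectionOnto_orthogonal]
  change x - (ℝ ∙ u).starProjection x = _
  rw [Submodule.starProjection_unit_singleton ℝ hu]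

end SHD_

open SHD_ in
theorem shd_proof (_h1 : SBA.Stmt_DEC) : Stmt_SHD := by
  intro n K u t _hn hKconv hKc hu ht
  set P : Submodule ℝ (EE n) := (ℝ ∙ u)ᗮ with hP
  set μ : Measure P := (measureSpaceOfInnerProductSpace (E := ↥((ℝ ∙ u)ᗮ))).volume with hμ
  have hmp := mp u hu
  have huP : ∀ y : P, ⟪u, (y : EE n)⟫ = 0 := fun y =>
    Submodule.mem_orthogonal_singleton_iff_inner_right.1 y.2
  -- Fubini
  have fub : ∀ A : Set (EE n), MeasurableSet A →
      volume A = ∫⁻ y : P, volume {τ : ℝ | τ • u + (y : EE n) ∈ A} ∂μ := by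
    intro A hA
    rw [← hmp.measure_preimage hA.nullMeasurableSet]
    rw [Measure.prod_apply_symm (hmp.measurable hA)]
    rfl
  have hKm : MeasurableSet K := hKc.isClosed.measurableSet
  have hTc : IsCompact ((fun x => x + t • u) '' K) := hKc.image (by fun_prop)
  have hTm : MeasurableSet ((fun x => x + t • u) '' K) := hTc.isClosed.measurableSet
  set S : Set P := P.orthogonalProjectionOnto '' K with hS
  have hScomp : IsCompact S := hKc.image (by fun_prop)
  have hSmeas : MeasurableSet S := hScomp.isClosed.measurableSet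
  -- the shadow
  have hSproj : ∀ y : P, y ∈ S ↔ ∃ a : ℝ, (y : EE n) + a • u ∈ K := by
    intro y
    constructor
    · rintro ⟨x, hx, rfl⟩
      refine ⟨⟪u, x⟫, ?_⟩
      rw [projcoe u hu x]
      simpa using hx
    · rintro ⟨a, ha⟩
      refine ⟨_, ha, ?_⟩
      apply Subtype.ext
      refine (projcoe u hu _).trans ?_
      have h2 : ⟪u, (y : EE n) + a • u⟫ = a := by
        rw [inner_add_right, inner_smul_right, huP, real_inner_self_eq_norm_sq, hu]
        ring
      rw [h2]
      abel
  have hshadow : shadow K u = (μ S).toReal := by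
    have e : projSet K u = S := by
      ext y
      exact (hSproj y).symm
    unfold shadow vol
    rw [e]
    rfl
  -- fibres
  have hfib : ∀ y : P, (({τ : ℝ | τ • u + (y : EE n) ∈ K} = ∅ ∧ y ∉ S) ∨
      (y ∈ S ∧ ∃ a b : ℝ, a ≤ b ∧ {τ : ℝ | τ • u + (y : EE n) ∈ K} = Icc a b)) := by
    intro y
    have hcl : IsCompact {τ : ℝ | τ • u + (y : EE n) ∈ K} := by
      rw [Metric.isCompact_iff_isClosed_bounded]
      refine ⟨hKc.isClosed.preimage (by fun_prop), ?_⟩
      obtain ⟨R, hR⟩ := hKc.isBounded.subset_closedBall (0 : EE n)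
      refine (Metric.isBounded_closedBall (x := (0 : ℝ)) (r := R)).subset ?_
      intro τ hτ
      have h1 := hR hτ
      rw [mem_closedBall_zero_iff] at h1 ⊢
      have h2 : ⟪u, τ • u + (y : EE n)⟫ = τ := by
        rw [inner_add_right, inner_smul_right, huP, real_inner_self_eq_norm_sq, hu]
        ring
      have h3 : ‖τ‖ ≤ ‖u‖ * ‖τ • u + (y : EE n)‖ := by
        rw [← h2]
        exact (norm_inner_le_norm _ _).trans (by rw [h2])
      rw [hu, one_mul] at h3
      exact h3.trans h1
    have hcv : Convex ℝ {τ : ℝ | τ • u + (y : EE n) ∈ K} := by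
      intro τ hτ τ' hτ' a b ha hb hab
      have := hKconv hτ hτ' ha hb hab
      have e : a • (τ • u + (y : EE n)) + b • (τ' • u + (y : EE n)) =
          (a • τ + b • τ') • u + (y : EE n) := by
        have h1 : (y : EE n) = (a + b) • (y : EE n) := by rw [hab, one_smul]
        nth_rewrite 3 [h1]
        simp only [smul_eq_mul]
        module
      rw [e] at this
      exact this
    rcases Set.eq_empty_or_nonempty {τ : ℝ | τ • u + (y : EE n) ∈ K} with h | h
    · left
      refine ⟨h, ?_⟩
      intro hy
      obtain ⟨a, ha⟩ := (hSproj y).1 hy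
      have : a ∈ {τ : ℝ | τ • u + (y : EE n) ∈ K} := by
        change a • u + (y : EE n) ∈ K
        rw [add_comm]
        exact ha
      rw [h] at this
      exact this
    · right
      refine ⟨?_, ?_⟩
      · obtain ⟨τ, hτ⟩ := h
        refine (hSproj y).2 ⟨τ, ?_⟩
        rw [add_comm]
        exact hτ
      · refine ⟨sInf {τ : ℝ | τ • u + (y : EE n) ∈ K}, sSup {τ : ℝ | τ • u + (y : EE n) ∈ K}, ?_, ?_⟩
        · exact csInf_le_csSup h hcl.bddBelow hcl.bddAbove
        · exact eq_Icc_of_connected_compact ⟨h, hcv.isPreconnected⟩ hcl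
  -- fibres of the translate
  have hfib2 : ∀ (y : P) (τ : ℝ), τ • u + (y : EE n) ∈ (fun x => x + t • u) '' K ↔
      (τ - t) ∈ {τ : ℝ | τ • u + (y : EE n) ∈ K} := by
    intro y τ
    constructor
    · rintro ⟨k, hk, hkz⟩
      change (τ - t) • u + (y : EE n) ∈ K
      have e : (τ - t) • u + (y : EE n) = k := by
        have h1 : k = (τ • u + (y : EE n)) - t • u := by
          rw [← hkz]
          simp
        rw [h1]
        module
      rw [e]
      exact hk
    · intro h
      refine ⟨_, h, ?_⟩
      change (τ - t) • u + (y : EE n) + t • u = τ • u + (y : EE n)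
      module
  have hvol : ∀ y : P, volume {τ : ℝ | τ • u + (y : EE n) ∈ ((fun x => x + t • u) '' K) \ K} ≤
      S.indicator (fun _ => ENNReal.ofReal t) y := by
    intro y
    rcases hfib y with ⟨h, hy⟩ | ⟨hy, a, b, hab, h⟩
    · rw [indicator_of_notMem hy]
      have e : {τ : ℝ | τ • u + (y : EE n) ∈ ((fun x => x + t • u) '' K) \ K} = ∅ := by
        rw [Set.eq_empty_iff_forall_notMem]
        rintro τ ⟨h1, _⟩
        have := (hfib2 y τ).1 h1
        rw [h] at this
        exact this
      rw [e]
      simp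
    · rw [indicator_of_mem hy]
      have e : {τ : ℝ | τ • u + (y : EE n) ∈ ((fun x => x + t • u) '' K) \ K} ⊆ Ioc b (b + t) := by
        rintro τ ⟨h1, h2⟩
        have h3 := (hfib2 y τ).1 h1
        rw [h] at h3
        have h4 : τ ∉ Icc a b := by
          rw [← h]
          exact h2
        refine ⟨?_, by linarith [h3.2]⟩
        by_contra h5
        push Not at h5
        exact h4 ⟨by linarith [h3.1], h5⟩
      refine (measure_mono e).trans ?_
      rw [Real.volume_Ioc]
      exact ENNReal.ofReal_le_ofReal (by linarith)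
  have hmain : volume (((fun x => x + t • u) '' K) \ K) ≤ ENNReal.ofReal t * μ S := by
    rw [fub _ (hTm.diff hKm)]
    refine (lintegral_mono hvol).trans ?_
    rw [lintegral_indicator_const hSmeas]
  have hSfin : μ S ≠ ⊤ := by
    let iP : MeasureSpace P := measureSpaceOfInnerProductSpace
    exact (hScomp.measure_lt_top (μ := (volume : Measure P))).ne
  rw [hshadow]
  unfold vl
  refine (ENNReal.toReal_mono (ENNReal.mul_ne_top ENNReal.ofReal_ne_top hSfin) hmain).trans ?_
  rw [ENNReal.toReal_mul, ENNReal.toReal_ofReal ht]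

end PPI
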