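import Pool.Agent.PPI.Stmts

/-!
# PPI, module SPN: the vectors span
-/

set_option autoImplicit false

namespace PPI

open MeasureTheory Set Filter Topology
open scoped ENNReal Pointwise

namespace SPN_

variable {n : ℕ}

lemma kap_pos' : 0 < kap n := by
  unfold kap vl Bn
  apply ENNReal.toReal_pos
  · exact (Metric.measure_closedBall_pos volume _ one_pos).ne'
  · exact measure_closedBall_lt_top.ne

/-- stretching in the direction `y` -/
noncomputable def str (y : EE n) (m : ℝ) : EE n →ₗ[ℝ] EE n :=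
  LinearMap.transvection (m • ((innerSL ℝ y : EE n →L[ℝ] ℝ) : EE n →ₗ[ℝ] ℝ)) y

lemma str_apply (y : EE n) (m : ℝ) (x : EE n) : str y m x = x + (m * inner ℝ y x) • y := by
  simp [str, LinearMap.transvection.apply]

lemma str_det (y : EE n) (m : ℝ) : LinearMap.det (str y m) = 1 + m * ‖y‖ ^ 2 := by
  rw [str, LinearMap.transvection.det]
  simp

end SPN_

open SPN_ in
theorem spn_proof : Stmt_SPN := by
  intro n ι _ a v W hn hMK hW y hy
  by_contra hcon
  push Not at hcon
  set C : ℝ := (∑ i, a i * ‖v i‖) ^ n with hC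
  have hk : 0 < kap n := kap_pos'
  have hnn : (0 : ℝ) < (n : ℝ) ^ n := by
    have : (0 : ℝ) < n := by exact_mod_cast hn
    positivity
  have hy2 : 0 < ‖y‖ ^ 2 := by
    have := norm_pos_iff.2 hy
    positivity
  have hpos : 0 < (n : ℝ) ^ n * W * kap n := by positivity
  have hb : ∀ m : ℝ, 0 ≤ m → (n : ℝ) ^ n * W * kap n * (m * ‖y‖ ^ 2) ≤ C := by
    intro m hm
    have h1 := (hMK.mink ((str y m) '' Bn n) (fun i => ‖v i‖)
      ((isCompact_closedBall _ _).image (LinearMap.continuous_of_finiteDimensional _))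
      ((convex_closedBall _ _).linear_image _)
      (Set.Nonempty.image _ ⟨0, Metric.mem_closedBall_self zero_le_one⟩)
      (by
        rintro i _ ⟨x, hx, rfl⟩
        rw [str_apply, inner_add_right, inner_smul_right, hcon i, mul_zero, add_zero]
        have hx' : ‖x‖ ≤ 1 := by simpa [Bn] using hx
        calc inner ℝ (v i) x ≤ ‖v i‖ * ‖x‖ := real_inner_le_norm _ _
          _ ≤ ‖v i‖ * 1 := mul_le_mul_of_nonneg_left hx' (norm_nonneg _)
          _ = ‖v i‖ := mul_one _)).2
    have h2 : vl ((str y m) '' Bn n) = (1 + m * ‖y‖ ^ 2) * kap n := by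
      have h3 : 0 ≤ 1 + m * ‖y‖ ^ 2 := by positivity
      unfold vl kap vl
      rw [Measure.addHaar_image_linearMap, str_det, ENNReal.toReal_mul, abs_of_nonneg h3,
        ENNReal.toReal_ofReal h3]
    rw [h2] at h1
    have h4 : (n : ℝ) ^ n * W * kap n * (m * ‖y‖ ^ 2) ≤
        (n : ℝ) ^ n * W * ((1 + m * ‖y‖ ^ 2) * kap n) := by
      nlinarith
    exact h4.trans h1
  have h5 := hb ((|C| + 1) / ((n : ℝ) ^ n * W * kap n * ‖y‖ ^ 2)) (by positivity)
  have h6 : (n : ℝ) ^ n * W * kap n * ((|C| + 1) / ((n : ℝ) ^ n * W * kap n * ‖y‖ ^ 2) * ‖y‖ ^ 2) =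
      |C| + 1 := by
    have h7 : (n : ℝ) ^ n * W * kap n * ‖y‖ ^ 2 ≠ 0 := by positivity
    field_simp
  rw [h6] at h5
  have := le_abs_self C
  linarith

end PPI
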