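import Pool.Agent.PPI.Stmts

/-!
# Squad PPI (MP_0bf616_gt), module TRM: linear maps and `MK`
-/

set_option autoImplicit false

namespace PPI

open MeasureTheory Set Filter Topology
open scoped ENNReal Pointwise

namespace TRM_

variable {n : ℕ}

lemma det_adjoint (A : EE n →L[ℝ] EE n) : (ContinuousLinearMap.adjoint A).det = A.det := by
  unfold ContinuousLinearMap.det
  rw [← ContinuousLinearMap.adjoint_toLinearMap,
    ← LinearMap.det_toMatrix (EuclideanSpace.basisFun (Fin n) ℝ).toBasis,
    LinearMap.toMatrix_adjoint, Matrix.det_conjTranspose,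
    ← LinearMap.det_toMatrix (EuclideanSpace.basisFun (Fin n) ℝ).toBasis]
  simp

end TRM_

theorem trm_proof : Stmt_TRM := by
  intro n ι _ a v W A hA hM
  refine ⟨hM.pos, ?_, ?_⟩
  · intro i h0
    apply hM.ne i
    have h := (A.toContinuousLinearEquivOfDetNeZero hA).injective
    apply h
    rw [ContinuousLinearMap.toContinuousLinearEquivOfDetNeZero_apply,
      ContinuousLinearMap.toContinuousLinearEquivOfDetNeZero_apply]
    simpa using h0
  · intro L c hL hLc hLn hb
    have hm := hM.mink ((ContinuousLinearMap.adjoint A) '' L) c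
      (hL.image (ContinuousLinearMap.adjoint A).continuous)
      (hLc.linear_image (ContinuousLinearMap.adjoint A).toLinearMap)
      (hLn.image _) (by
        rintro i _ ⟨x, hx, rfl⟩
        rw [ContinuousLinearMap.adjoint_inner_right]
        exact hb i x hx)
    refine ⟨hm.1, ?_⟩
    have hv : vl ((ContinuousLinearMap.adjoint A) '' L) = |A.det| * vl L := by
      unfold vl
      rw [Measure.addHaar_image_continuousLinearMap, ENNReal.toReal_mul,
        ENNReal.toReal_ofReal (abs_nonneg _)]
      change |(ContinuousLinearMap.adjoint A).det| * (volume L).toReal = _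
      rw [TRM_.det_adjoint]
    have h2 := hm.2
    rw [hv] at h2
    calc (n : ℝ) ^ n * (|A.det| * W) * vl L = (n : ℝ) ^ n * W * (|A.det| * vl L) := by ring
      _ ≤ _ := h2

end PPI
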