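import Pool.Agent.PPI.Stmts

/-!
# PPI/TRU: the truncation argument
-/

set_option autoImplicit false

namespace PPI

open MeasureTheory Set Filter Topology
open scoped ENNReal Pointwise

namespace TRU_

lemma dt_sum {n : ℕ} {ι : Type} [Fintype ι] (c : Fin n → ι → ℝ) (w : ι → EE n) :
    dt (fun k => ∑ i, c k i • w i) =
      ∑ f : Fin n → ι, (∏ k, c k (f k)) * dt (fun k => w (f k)) := by
  classical
  let D : MultilinearMap ℝ (fun _ : Fin n => (Fin n → ℝ)) ℝ :=
    (Matrix.detRowAlternating : (Fin n → ℝ) [⋀^Fin n]→ₗ[ℝ] ℝ).toMultilinearMap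
  have hD : ∀ x : Fin n → EE n, dt x = D (fun k j => x k j) := fun x => rfl
  rw [hD]
  have h1 : (fun (k : Fin n) (j : Fin n) => (∑ i, c k i • w i : EE n) j) =
      fun k => ∑ i, c k i • (fun j => w i j) := by
    ext k j
    simp [Finset.sum_apply]
  rw [h1, D.map_sum]
  refine Finset.sum_congr rfl fun f _ => ?_
  rw [D.map_smul_univ (fun k => c k (f k)) (fun k => (fun j => w (f k) j)), hD, smul_eq_mul]

lemma cont_dt {n : ℕ} : Continuous (dt : (Fin n → EE n) → ℝ) := by
  unfold dt
  refine Continuous.matrix_det ?_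
  refine continuous_matrix fun k j => ?_
  have h1 : Continuous fun x : Fin n → EE n => x k := continuous_apply k
  exact (PiLp.continuous_apply 2 (fun _ : Fin n => ℝ) j).comp h1

lemma comp_Bp (n : ℕ) : IsCompact (Bp n) :=
  isCompact_univ_pi fun _ => isCompact_closedBall _ _

lemma int_on {n : ℕ} (F : (Fin n → EE n) → ℝ) (hF : Continuous F) : IntegrableOn F (Bp n) :=
  hF.continuousOn.integrableOn_compact (comp_Bp n)

lemma prod_int {n : ℕ} (F : Fin n → EE n → ℝ) :
    ∫ x in Bp n, ∏ k, F k (x k) = ∏ k, ∫ x in Bn n, F k x := by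
  unfold Bp
  rw [volume_pi, Measure.restrict_pi_pi]
  exact integral_fintype_prod_eq_prod F

lemma pw (a b : ℝ) (θ : ℝ) (q : ℕ) (hq : 1 ≤ q) (hθ : 0 < θ) (hb : |b| ≤ 1) :
    a * b ≤ θ * |b| + θ / θ ^ (2 * q) * a ^ (2 * q) := by
  have h0 : a * b ≤ |a| * |b| := by
    rw [← abs_mul]; exact le_abs_self _
  have h1 : 0 ≤ θ / θ ^ (2 * q) * a ^ (2 * q) := by
    have : 0 ≤ a ^ (2 * q) := by rw [pow_mul]; positivity
    positivity
  have h2 : 0 ≤ θ * |b| := by positivity
  rcases le_total |a| θ with h | h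
  · have h3 : |a| * |b| ≤ θ * |b| := mul_le_mul_of_nonneg_right h (abs_nonneg b)
    linarith
  · have h3 : |a| * |b| ≤ |a| := mul_le_of_le_one_right (abs_nonneg a) hb
    have h4 : 1 ≤ |a| / θ := by rw [le_div_iff₀ hθ]; linarith
    have h5 : |a| / θ ≤ (|a| / θ) ^ (2 * q) := le_self_pow₀ h4 (by omega)
    have h6 : |a| = θ * (|a| / θ) := by field_simp
    have h7 : θ * (|a| / θ) ^ (2 * q) = θ / θ ^ (2 * q) * a ^ (2 * q) := by
      rw [div_pow, pow_mul |a| 2 q, sq_abs, ← pow_mul]; ring
    have h8 : θ * (|a| / θ) ≤ θ * (|a| / θ) ^ (2 * q) := mul_le_mul_of_nonneg_left h5 hθ.le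
    rw [← h6, h7] at h8
    linarith

end TRU_

open TRU_ in
theorem tru_proof (h1 : Stmt_AND) (h2 : Stmt_DTL) (h3 : Stmt_XLB) (h4 : Stmt_AVE)
    (h5 : Stmt_LSE) : Stmt_TRU := by
  intro n q ι _ _ ε p w W T b θ hn hq hε hNF hws hθ hmom
  classical
  obtain ⟨hkap, -⟩ := h4 n hn
  obtain ⟨-, -, hwc, -, hw1, hwp, -⟩ := h5 n ι ε w T b hε
  have hn0 : (0 : ℝ) < n := by exact_mod_cast hn
  let g : EE n → EE n := fun x => ∑ i, ws ε w T b x i • w i
  have hg : Continuous g := continuous_finsetSum _ fun i _ => (hwc i).smul continuous_const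
  have hgl : ∀ x l, g x l = ∑ i, ws ε w T b x i * w i l := by
    intro x l
    show (∑ i, ws ε w T b x i • w i : EE n) l = _
    simp [Finset.sum_apply]
  have hGm : Gm ε w T b = Matrix.of fun k l : Fin n => ave (fun x => x k * g x l) := by
    ext k l
    show ave (fun x => ∑ i, ws ε w T b x i * (x k * w i l)) = ave (fun x => x k * g x l)
    have : (fun x : EE n => ∑ i, ws ε w T b x i * (x k * w i l)) = fun x => x k * g x l := by
      ext x
      rw [hgl, Finset.mul_sum]
      exact Finset.sum_congr rfl fun i _ => by ring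
    rw [this]
  rw [hGm, h1 n g hn hg, div_le_iff₀ (by positivity)]
  have hrow : ∀ x, ∑ l, |g x l| ≤ 1 := by
    intro x
    calc ∑ l, |g x l| ≤ ∑ l, ∑ i, ws ε w T b x i * |w i l| := by
          refine Finset.sum_le_sum fun l _ => ?_
          rw [hgl]
          refine (Finset.abs_sum_le_sum_abs _ _).trans ?_
          refine Finset.sum_le_sum fun i _ => ?_
          rw [abs_mul, abs_of_pos (hwp x i)]
      _ = ∑ i, ws ε w T b x i * ∑ l, |w i l| := by
          rw [Finset.sum_comm]
          exact Finset.sum_congr rfl fun i _ => by rw [Finset.mul_sum]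
      _ ≤ ∑ i, ws ε w T b x i * 1 := by
          refine Finset.sum_le_sum fun i _ => ?_
          exact mul_le_mul_of_nonneg_left (hNF.wl1 i) (hwp x i).le
      _ = 1 := by simp [hw1 x]
  have hb1 : ∀ x : Fin n → EE n, |dt (fun k => g (x k))| ≤ 1 := fun x =>
    h2 n _ fun k => hrow (x k)
  have habs : ∀ x : Fin n → EE n, |dt (fun k => g (x k))| ≤
      ∑ f : Fin n → ι, (∏ k, ws ε w T b (x k) (f k)) * |dt (fun k => w (f k))| := by
    intro x
    have := dt_sum (fun k i => ws ε w T b (x k) i) w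
    have h6 : dt (fun k => g (x k)) = ∑ f : Fin n → ι, (∏ k, ws ε w T b (x k) (f k)) *
        dt (fun k => w (f k)) := this
    rw [h6]
    refine (Finset.abs_sum_le_sum_abs _ _).trans ?_
    refine Finset.sum_le_sum fun f _ => ?_
    rw [abs_mul, abs_of_nonneg (Finset.prod_nonneg fun k _ => (hwp (x k) (f k)).le)]
  let S : (Fin n → EE n) → ℝ := fun x =>
    ∑ f : Fin n → ι, (∏ k, ws ε w T b (x k) (f k)) * |dt (fun k => w (f k))|
  have hpc : ∀ f : Fin n → ι, Continuous fun x : Fin n → EE n =>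
      ∏ k, ws ε w T b (x k) (f k) := fun f =>
    continuous_finsetProd _ fun k _ => (hwc (f k)).comp (continuous_apply k)
  have hSc : Continuous S := continuous_finsetSum _ fun f _ => (hpc f).mul continuous_const
  have hDc : Continuous fun x : Fin n → EE n => dt x ^ (2 * q) := cont_dt.pow _
  have hgc : Continuous fun x : Fin n → EE n => dt (fun k => g (x k)) :=
    cont_dt.comp (continuous_pi fun k => hg.comp (continuous_apply k))
  have hmono : ∫ x in Bp n, dt x * dt (fun k => g (x k)) ≤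
      ∫ x in Bp n, (θ * S x + θ / θ ^ (2 * q) * dt x ^ (2 * q)) := by
    refine integral_mono (int_on _ (cont_dt.mul hgc))
      (int_on _ ((continuous_const.mul hSc).add (continuous_const.mul hDc))) ?_
    intro x
    have h6 := pw (dt x) (dt (fun k => g (x k))) θ q hq hθ (hb1 x)
    have h7 := mul_le_mul_of_nonneg_left (habs x) hθ.le
    exact h6.trans (add_le_add h7 le_rfl)
  have hsplit : ∫ x in Bp n, (θ * S x + θ / θ ^ (2 * q) * dt x ^ (2 * q)) =
      θ * (∫ x in Bp n, S x) + θ / θ ^ (2 * q) * ∫ x in Bp n, dt x ^ (2 * q) := by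
    have hA : Continuous fun x : Fin n → EE n => θ * S x := continuous_const.mul hSc
    have hB : Continuous fun x : Fin n → EE n => θ / θ ^ (2 * q) * dt x ^ (2 * q) :=
      continuous_const.mul hDc
    rw [integral_add (int_on _ hA) (int_on _ hB), integral_const_mul, integral_const_mul]
  have hwint : ∀ i, ∫ x in Bn n, ws ε w T b x i = kap n * p i := by
    intro i
    have h6 := hws i
    unfold ave at h6
    rw [div_eq_iff hkap.ne'] at h6
    rw [h6]; ring
  have hSint : ∫ x in Bp n, S x = kap n ^ n * XT p w := by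
    have h6 : ∫ x in Bp n, S x = ∑ f : Fin n → ι,
        ∫ x in Bp n, (∏ k, ws ε w T b (x k) (f k)) * |dt (fun k => w (f k))| :=
      integral_finsetSum _ fun f _ => int_on _ ((hpc f).mul continuous_const)
    rw [h6]
    unfold XT
    rw [Finset.mul_sum]
    refine Finset.sum_congr rfl fun f _ => ?_
    rw [integral_mul_const, prod_int (fun k x => ws ε w T b x (f k))]
    have h7 : ∏ k, ∫ x in Bn n, ws ε w T b x (f k) = ∏ k, (kap n * p (f k)) :=
      Finset.prod_congr rfl fun k _ => hwint (f k)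
    rw [h7, Finset.prod_mul_distrib, Finset.prod_const, Finset.card_univ, Fintype.card_fin]
    ring
  have hX : 1 ≤ (n : ℝ) ^ n * XT p w := h3 n ι p w hNF.ppos hNF.au
  have hmi : ∫ x in Bp n, dt x ^ (2 * q) = mom n q * kap n ^ n := by
    unfold mom
    rw [div_mul_cancel₀ _ (by positivity)]
  have hθq : 0 < θ ^ (2 * q) := by positivity
  have hnn : 0 < (n : ℝ) ^ n := by positivity
  have hfin : θ / θ ^ (2 * q) * (mom n q * kap n ^ n) ≤ θ * kap n ^ n * XT p w := by
    have h6 : mom n q ≤ θ ^ (2 * q) * XT p w := by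
      have h7 : mom n q * (n : ℝ) ^ n ≤ θ ^ (2 * q) * ((n : ℝ) ^ n * XT p w) := by
        have := mul_le_mul_of_nonneg_left hX hθq.le
        linarith
      have h8 : mom n q * (n : ℝ) ^ n ≤ (θ ^ (2 * q) * XT p w) * (n : ℝ) ^ n := by
        linarith
      exact le_of_mul_le_mul_right h8 hnn
    have h9 : θ / θ ^ (2 * q) * (mom n q * kap n ^ n) ≤
        θ / θ ^ (2 * q) * ((θ ^ (2 * q) * XT p w) * kap n ^ n) := by
      refine mul_le_mul_of_nonneg_left ?_ (by positivity)
      exact mul_le_mul_of_nonneg_right h6 (by positivity)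
    have h10 : θ / θ ^ (2 * q) * ((θ ^ (2 * q) * XT p w) * kap n ^ n) =
        θ * kap n ^ n * XT p w := by
      field_simp
    linarith
  calc ∫ x in Bp n, dt x * dt (fun k => g (x k)) ≤
      θ * (kap n ^ n * XT p w) + θ / θ ^ (2 * q) * (mom n q * kap n ^ n) := by
        rw [← hSint, ← hmi, ← hsplit]; exact hmono
    _ ≤ 2 * θ * XT p w * kap n ^ n := by linarith

end PPI
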