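import Pool.Agent.PPI.Stmts

/-!
# PPI, module TRX: linear maps and `XT`
-/

set_option autoImplicit false

namespace PPI

open MeasureTheory Set Filter Topology
open scoped ENNReal Pointwise

namespace TRX_

variable {n : ℕ}

lemma dt_eq (x : Fin n → EE n) : dt x = (EuclideanSpace.basisFun (Fin n) ℝ).toBasis.det x := by
  unfold dt
  rw [Module.Basis.det_apply, ← Matrix.det_transpose]
  congr 1

lemma dt_map (A : EE n →L[ℝ] EE n) (x : Fin n → EE n) :
    dt (fun k => A (x k)) = A.det * dt x := by
  rw [dt_eq, dt_eq]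
  exact Module.Basis.det_comp _ (A : EE n →ₗ[ℝ] EE n) x

end TRX_

open TRX_ in
theorem trx_proof : Stmt_TRX := by
  intro n ι _ a v A
  unfold XT
  rw [Finset.mul_sum]
  refine Finset.sum_congr rfl fun f _ => ?_
  rw [dt_map A (fun k => v (f k)), abs_mul]
  ring

end PPI
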