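import Pool.Agent.PPI.Stmts

/-!
# PPI module XLB: lower bound for `XT` in Auerbach position
-/

set_option autoImplicit false

namespace PPI

namespace XLB_

/-- replacing the coordinates one after the other -/
lemma chain {E ι : Type} [Fintype ι] (p : ι → ℝ) (w : ι → E) (hp : ∀ i, 0 ≤ p i) (c : ℝ)
    (hc : 0 ≤ c) :
    ∀ (m : ℕ) (e : Fin m → E) (Ψ : (Fin m → E) → ℝ),
      (∀ (z : Fin m → E) (k : Fin m), Ψ (Function.update z k (e k)) ≤
        c * ∑ i, p i * Ψ (Function.update z k (w i))) →
      Ψ e ≤ c ^ m * ∑ f : Fin m → ι, (∏ k, p (f k)) * Ψ (fun k => w (f k)) := by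
  intro m
  induction m with
  | zero =>
    intro e Ψ _
    have h : ∀ z z' : Fin 0 → E, Ψ z = Ψ z' := fun z z' => by rw [Subsingleton.elim z z']
    simp only [pow_zero, one_mul, Finset.univ_eq_empty, Finset.prod_empty]
    rw [Fintype.sum_unique]
    exact (h _ _).le
  | succ m ih =>
    intro e Ψ hΨ
    have h1 : Ψ e ≤ c * ∑ i, p i * Ψ (Fin.cons (w i) (fun k : Fin m => e k.succ)) := by
      have h := hΨ e 0
      rw [Function.update_eq_self] at h
      refine h.trans (le_of_eq ?_)
      congr 1
      refine Finset.sum_congr rfl fun i _ => ?_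
      congr 2
      funext k
      refine Fin.cases ?_ (fun k => ?_) k
      · simp
      · rw [Function.update_of_ne (Fin.succ_ne_zero k), Fin.cons_succ]
    have h2 : ∀ i, Ψ (Fin.cons (w i) (fun k : Fin m => e k.succ)) ≤
        c ^ m * ∑ f : Fin m → ι, (∏ k, p (f k)) *
          Ψ (Fin.cons (w i) (fun k => w (f k))) := by
      intro i
      refine ih (fun k => e k.succ) (fun z => Ψ (Fin.cons (w i) z)) ?_
      intro z k
      have h := hΨ (Fin.cons (w i) z) k.succ
      simp only [Fin.cons_update]
      exact h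
    have h3 : ∑ f : Fin (m + 1) → ι, (∏ k, p (f k)) * Ψ (fun k => w (f k)) =
        ∑ i, p i * ∑ f : Fin m → ι, (∏ k, p (f k)) *
          Ψ (Fin.cons (w i) (fun k => w (f k))) := by
      rw [← (Fin.consEquiv (fun _ : Fin (m + 1) => ι)).sum_comp, Fintype.sum_prod_type]
      refine Finset.sum_congr rfl fun i _ => ?_
      rw [Finset.mul_sum]
      refine Finset.sum_congr rfl fun f _ => ?_
      have e1 : (fun k : Fin (m + 1) => w ((Fin.consEquiv (fun _ : Fin (m + 1) => ι)) (i, f) k)) =
          (Fin.cons (w i) (fun k => w (f k)) : Fin (m + 1) → E) := by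
        funext k
        refine Fin.cases ?_ (fun k => ?_) k
        · simp [Fin.consEquiv]
        · simp [Fin.consEquiv]
      rw [e1, Fin.prod_univ_succ]
      simp only [Fin.consEquiv, Equiv.coe_fn_mk, Fin.cons_zero, Fin.cons_succ]
      ring
    rw [h3]
    calc Ψ e ≤ c * ∑ i, p i * Ψ (Fin.cons (w i) (fun k : Fin m => e k.succ)) := h1
      _ ≤ c * ∑ i, p i * (c ^ m * ∑ f : Fin m → ι, (∏ k, p (f k)) *
          Ψ (Fin.cons (w i) (fun k => w (f k)))) := by
        refine mul_le_mul_of_nonneg_left ?_ hc
        exact Finset.sum_le_sum fun i _ => mul_le_mul_of_nonneg_left (h2 i) (hp i)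
      _ = c ^ (m + 1) * ∑ i, p i * ∑ f : Fin m → ι, (∏ k, p (f k)) *
          Ψ (Fin.cons (w i) (fun k => w (f k))) := by
        rw [Finset.mul_sum, Finset.mul_sum]
        refine Finset.sum_congr rfl fun i _ => ?_
        ring

/-- the cofactor vector -/
lemma dt_update {n : ℕ} (z : Fin n → EE n) (k : Fin n) :
    ∃ N : EE n, ∀ y : EE n, dt (Function.update z k y) = inner ℝ y N := by
  refine ⟨WithLp.toLp 2 fun j => (Matrix.of fun a j => z a j).transpose.adjugate k j, fun y => ?_⟩
  have h1 : dt (Function.update z k y) =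
      ((Matrix.of fun a j => z a j).updateRow k (fun j => y j)).det := by
    unfold dt
    congr 1
    ext a j
    by_cases h : a = k
    · subst h
      simp
    · simp [Matrix.updateRow_ne h, Function.update_of_ne h]
  rw [h1, ← Matrix.cramer_transpose_apply, Matrix.cramer_eq_adjugate_mulVec]
  simp only [Matrix.mulVec, dotProduct, PiLp.inner_apply, RCLike.inner_apply, conj_trivial]

end XLB_

theorem xlb_proof : Stmt_XLB := by
  intro n ι _ p w hp hau
  have h := XLB_.chain p w (fun i => (hp i).le) (n : ℝ) (Nat.cast_nonneg n) n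
    (fun k => EuclideanSpace.single k (1 : ℝ)) (fun z => |dt z|) ?_
  · have h1 : dt (fun k : Fin n => (EuclideanSpace.single k (1 : ℝ) : EE n)) = 1 := by
      unfold dt
      have : (Matrix.of fun k j : Fin n => (EuclideanSpace.single k (1 : ℝ) : EE n) j) =
          (1 : Matrix (Fin n) (Fin n) ℝ) := by
        ext k j
        simp [Matrix.one_apply, Pi.single_apply, eq_comm]
      rw [this, Matrix.det_one]
    rw [h1, abs_one] at h
    exact h
  · intro z k
    obtain ⟨N, hN⟩ := XLB_.dt_update z k
    simp only [hN]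
    have h2 := hau N k
    have h3 : inner ℝ (EuclideanSpace.single k (1 : ℝ) : EE n) N = N k := by
      simp [EuclideanSpace.inner_single_left]
    rw [h3]
    exact h2

end PPI
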