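import Pool.Agent.PPI.Stmts

/-!
# PPI / ZON: lower bound for the volume of a zonotope (arctan map)
-/

set_option autoImplicit false

namespace PPI

open MeasureTheory Set Filter Topology
open scoped ENNReal Pointwise

namespace ZON_

noncomputable section

variable {n : ℕ} {ι : Type} [Fintype ι]

/-- the arctan map -/
def Fm (a : ι → ℝ) (v : ι → EE n) (x : EE n) : EE n :=
  ∑ i, (a i / Real.pi * Real.arctan (inner ℝ (v i) x)) • v i

/-- its derivative -/
def Fd (a : ι → ℝ) (v : ι → EE n) (x : EE n) : EE n →L[ℝ] EE n :=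
  ∑ i, (a i / Real.pi * (1 / (1 + (inner ℝ (v i) x) ^ 2))) •
    (innerSL ℝ (v i)).smulRight (v i)

lemma hasF (a : ι → ℝ) (v : ι → EE n) (x : EE n) :
    HasFDerivAt (Fm a v) (Fd a v x) x := by
  unfold Fm Fd
  have h : ∀ i ∈ (Finset.univ : Finset ι),
      HasFDerivAt (fun x : EE n => (a i / Real.pi * Real.arctan (inner ℝ (v i) x)) • v i)
        ((a i / Real.pi * (1 / (1 + (inner ℝ (v i) x) ^ 2))) •
          (innerSL ℝ (v i)).smulRight (v i)) x := by
    intro i _
    have h1 : HasFDerivAt (fun x : EE n => inner ℝ (v i) x) (innerSL ℝ (v i)) x :=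
      (innerSL ℝ (v i)).hasFDerivAt
    have h2 := h1.arctan
    have h3 := (h2.const_mul (a i / Real.pi)).smul_const (v i)
    refine h3.congr_fderiv ?_
    ext y
    simp [smul_smul, mul_assoc]
  have := HasFDerivAt.fun_sum h
  simpa using this

lemma detF (a : ι → ℝ) (v : ι → EE n) (x : EE n) :
    (Fd a v x).det = Matrix.det (Matrix.of fun j l : Fin n =>
      ∑ i, (a i / Real.pi * (1 / (1 + (inner ℝ (v i) x) ^ 2))) * (v i j * v i l)) := by
  have hb := (EuclideanSpace.basisFun (Fin n) ℝ).toBasis
  rw [ContinuousLinearMap.det]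
  rw [← LinearMap.det_toMatrix (EuclideanSpace.basisFun (Fin n) ℝ).toBasis]
  congr 1
  ext j l
  rw [LinearMap.toMatrix_apply]
  simp only [Fd, OrthonormalBasis.coe_toBasis, EuclideanSpace.basisFun_apply,
    OrthonormalBasis.coe_toBasis_repr_apply, EuclideanSpace.basisFun_repr, Matrix.of_apply]
  simp only [ContinuousLinearMap.coe_coe, _root_.sum_apply,
    _root_.smul_apply, ContinuousLinearMap.smulRight_apply, innerSL_apply_apply,
    EuclideanSpace.inner_single_right]
  simp [mul_comm, mul_assoc, mul_left_comm]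

omit [Fintype ι] in
/-- a vector orthogonal to all `v i` vanishes, if some determinant is not zero -/
lemma span0 (v : ι → EE n) (f : Fin n → ι) (hf : dt (fun k => v (f k)) ≠ 0) (y : EE n)
    (hy : ∀ i, inner ℝ (v i) y = 0) : y = 0 := by
  have h1 : (Matrix.of fun k j => v (f k) j : Matrix (Fin n) (Fin n) ℝ).mulVec (fun j => y j) = 0 := by
    funext k
    have := hy (f k)
    rw [PiLp.inner_apply] at this
    simp only [RCLike.inner_apply, conj_trivial] at this
    simp only [Matrix.mulVec, dotProduct, Matrix.of_apply, Pi.zero_apply]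
    rw [← this]
    exact Finset.sum_congr rfl fun j _ => mul_comm _ _
  have h2 := Matrix.eq_zero_of_mulVec_eq_zero hf h1
  ext j
  exact congrFun h2 j

lemma inj (a : ι → ℝ) (v : ι → EE n) (ha : ∀ i, 0 < a i) (f : Fin n → ι)
    (hf : dt (fun k => v (f k)) ≠ 0) : Function.Injective (Fm a v) := by
  intro x y hxy
  have h1 : inner ℝ (Fm a v x - Fm a v y) (x - y) = 0 := by
    rw [hxy, sub_self, inner_zero_left]
  have h2 : inner ℝ (Fm a v x - Fm a v y) (x - y) =
      ∑ i, a i / Real.pi * ((Real.arctan (inner ℝ (v i) x) - Real.arctan (inner ℝ (v i) y)) *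
        (inner ℝ (v i) x - inner ℝ (v i) y)) := by
    unfold Fm
    rw [← Finset.sum_sub_distrib, sum_inner]
    refine Finset.sum_congr rfl fun i _ => ?_
    rw [← sub_smul, real_inner_smul_left, inner_sub_right]
    ring
  have hmono : ∀ s t : ℝ, 0 ≤ (Real.arctan s - Real.arctan t) * (s - t) := by
    intro s t
    rcases le_total s t with h | h
    · exact mul_nonneg_of_nonpos_of_nonpos (by linarith [Real.arctan_strictMono.monotone h])
        (by linarith)
    · exact mul_nonneg (by linarith [Real.arctan_strictMono.monotone h]) (by linarith)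
  have hzero : ∀ s t : ℝ, (Real.arctan s - Real.arctan t) * (s - t) = 0 → s = t := by
    intro s t h
    rcases mul_eq_zero.1 h with h | h
    · exact Real.arctan_injective (by linarith)
    · linarith
  rw [h2] at h1
  have h3 := (Finset.sum_eq_zero_iff_of_nonneg (fun i _ =>
    mul_nonneg (div_nonneg (ha i).le Real.pi_pos.le) (hmono _ _))).1 h1
  have h4 : x - y = 0 := by
    apply span0 v f hf
    intro i
    have h5 := h3 i (Finset.mem_univ i)
    have h6 : (0 : ℝ) < a i / Real.pi := div_pos (ha i) Real.pi_pos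
    have h7 := (mul_eq_zero.1 h5).resolve_left h6.ne'
    rw [inner_sub_right, hzero _ _ h7, sub_self]
  exact sub_eq_zero.1 h4

lemma image_sub (a : ι → ℝ) (v : ι → EE n) (ha : ∀ i, 0 < a i) (x : EE n) :
    Fm a v x ∈ zon a v := by
  intro u hu
  unfold Fm
  rw [inner_sum, Finset.mul_sum]
  refine Finset.sum_le_sum fun i _ => ?_
  rw [real_inner_smul_right, real_inner_comm (v i) u]
  have h1 : |Real.arctan (inner ℝ (v i) x)| ≤ Real.pi / 2 := by
    rw [abs_le]
    exact ⟨by linarith [Real.neg_pi_div_two_lt_arctan (inner ℝ (v i) x)],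
      (Real.arctan_lt_pi_div_two _).le⟩
  have h2 : Real.arctan (inner ℝ (v i) x) * inner ℝ (v i) u ≤ Real.pi / 2 * |inner ℝ (v i) u| := by
    calc Real.arctan (inner ℝ (v i) x) * inner ℝ (v i) u
        ≤ |Real.arctan (inner ℝ (v i) x) * inner ℝ (v i) u| := le_abs_self _
      _ = |Real.arctan (inner ℝ (v i) x)| * |inner ℝ (v i) u| := abs_mul _ _
      _ ≤ _ := mul_le_mul_of_nonneg_right h1 (abs_nonneg _)
  have h3 : (0 : ℝ) < a i / Real.pi := div_pos (ha i) Real.pi_pos
  calc 2 * (a i / Real.pi * Real.arctan (inner ℝ (v i) x) * inner ℝ (v i) u)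
      = 2 * (a i / Real.pi) * (Real.arctan (inner ℝ (v i) x) * inner ℝ (v i) u) := by ring
    _ ≤ 2 * (a i / Real.pi) * (Real.pi / 2 * |inner ℝ (v i) u|) :=
        mul_le_mul_of_nonneg_left h2 (by positivity)
    _ = a i * |inner ℝ (v i) u| := by
        field_simp

lemma zon_bdd (a : ι → ℝ) (v : ι → EE n) (ha : ∀ i, 0 < a i) :
    zon a v ⊆ Metric.closedBall 0 (∑ i, a i * ‖v i‖) := by
  intro y hy
  rw [mem_closedBall_zero_iff]
  have hR : 0 ≤ ∑ i, a i * ‖v i‖ :=
    Finset.sum_nonneg fun i _ => mul_nonneg (ha i).le (norm_nonneg _)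
  by_cases h0 : y = 0
  · simp [h0, hR]
  have hn : 0 < ‖y‖ := norm_pos_iff.2 h0
  have hu : ‖(‖y‖⁻¹ • y)‖ = 1 := by
    rw [norm_smul, norm_inv, norm_norm, inv_mul_cancel₀ hn.ne']
  have h1 := hy _ hu
  have h2 : inner ℝ (‖y‖⁻¹ • y) y = ‖y‖ := by
    rw [real_inner_smul_left, real_inner_self_eq_norm_sq]
    field_simp
  rw [h2] at h1
  have h3 : ∑ i, a i * |inner ℝ (v i) (‖y‖⁻¹ • y)| ≤ ∑ i, a i * ‖v i‖ := by
    refine Finset.sum_le_sum fun i _ => mul_le_mul_of_nonneg_left ?_ (ha i).le
    have := abs_real_inner_le_norm (v i) (‖y‖⁻¹ • y)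
    rwa [hu, mul_one] at this
  linarith

lemma zon_fin (a : ι → ℝ) (v : ι → EE n) (ha : ∀ i, 0 < a i) : volume (zon a v) ≠ ⊤ :=
  ((measure_mono (zon_bdd a v ha)).trans_lt Metric.isBounded_closedBall.measure_lt_top).ne

end

end ZON_

open ZON_ in
theorem zon_proof (h1 : Stmt_CBS) (h2 : Stmt_INT) : Stmt_ZON := by
  intro n ι _ a v hn ha
  by_cases hex : ∃ f : Fin n → ι, dt (fun k => v (f k)) ≠ 0
  swap
  · push Not at hex
    have : XT a v = 0 := by
      unfold XT
      refine Finset.sum_eq_zero fun f _ => ?_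
      rw [hex f]; simp
    rw [this]
    exact mul_nonneg (Nat.cast_nonneg _) ENNReal.toReal_nonneg
  obtain ⟨f0, hf0⟩ := hex
  have hinj := inj a v ha f0 hf0
  have hpi := Real.pi_pos
  have key := lintegral_abs_det_fderiv_eq_addHaar_image (volume : Measure (EE n))
    (s := univ) MeasurableSet.univ (fun x _ => (hasF a v x).hasFDerivWithinAt) (hinj.injOn)
  -- the determinant
  have hdet : ∀ x, ENNReal.ofReal |(Fd a v x).det| =
      ∑ f : Fin n → ι, ENNReal.ofReal ((∏ k, (a (f k) / Real.pi)) * dt (fun k => v (f k)) ^ 2 /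
        n.factorial) * ∏ k, ENNReal.ofReal (1 / (1 + (inner ℝ (v (f k)) x) ^ 2)) := by
    intro x
    rw [detF, h1, abs_of_nonneg, Finset.sum_div, ENNReal.ofReal_sum_of_nonneg]
    · refine Finset.sum_congr rfl fun f _ => ?_
      rw [← ENNReal.ofReal_prod_of_nonneg (fun k _ => by positivity), ← ENNReal.ofReal_mul]
      · congr 1
        rw [Finset.prod_mul_distrib]
        ring
      · have := Finset.prod_nonneg (s := Finset.univ) (f := fun k => a (f k) / Real.pi)
          fun k _ => div_nonneg (ha _).le hpi.le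
        positivity
    · intro f _
      have := Finset.prod_nonneg (s := Finset.univ)
        (f := fun k => a (f k) / Real.pi * (1 / (1 + (inner ℝ (v (f k)) x) ^ 2)))
        fun k _ => mul_nonneg (div_nonneg (ha _).le hpi.le) (by positivity)
      positivity
    · refine div_nonneg (Finset.sum_nonneg fun f _ => ?_) (Nat.cast_nonneg _)
      have := Finset.prod_nonneg (s := Finset.univ)
        (f := fun k => a (f k) / Real.pi * (1 / (1 + (inner ℝ (v (f k)) x) ^ 2)))
        fun k _ => mul_nonneg (div_nonneg (ha _).le hpi.le) (by positivity)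
      positivity
  have hmeas : ∀ f : Fin n → ι, Measurable
      (fun x : EE n => ∏ k, ENNReal.ofReal (1 / (1 + (inner ℝ (v (f k)) x) ^ 2))) := by
    intro f
    refine Finset.measurable_prod _ fun k _ => ?_
    refine Measurable.ennreal_ofReal ?_
    have hc : Continuous (fun x : EE n => 1 / (1 + (inner ℝ (v (f k)) x) ^ 2)) := by
      refine Continuous.div continuous_const (by fun_prop) fun x => ?_
      positivity
    exact hc.measurable
  have hint : ∫⁻ x in (univ : Set (EE n)), ENNReal.ofReal |(Fd a v x).det| =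
      ∑ f : Fin n → ι, ENNReal.ofReal ((∏ k, a (f k)) * |dt (fun k => v (f k))| / n.factorial) := by
    rw [Measure.restrict_univ]
    simp only [hdet]
    rw [lintegral_finsetSum _ (fun f _ => (hmeas f).const_mul _)]
    refine Finset.sum_congr rfl fun f _ => ?_
    rw [lintegral_const_mul _ (hmeas f)]
    by_cases hf : dt (fun k => v (f k)) = 0
    · rw [hf]; simp
    rw [h2 n (fun k => v (f k)) hf, ← ENNReal.ofReal_mul]
    · congr 1
      rw [Finset.prod_div_distrib, Finset.prod_const, Finset.card_univ, Fintype.card_fin]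
      have h3 : dt (fun k => v (f k)) ^ 2 = |dt (fun k => v (f k))| * |dt (fun k => v (f k))| := by
        rw [← sq, sq_abs]
      rw [h3]
      have h4 : |dt (fun k => v (f k))| ≠ 0 := abs_ne_zero.2 hf
      field_simp
    · have := Finset.prod_nonneg (s := Finset.univ) (f := fun k => a (f k) / Real.pi)
          fun k _ => div_nonneg (ha _).le hpi.le
      positivity
  rw [hint] at key
  have hle : ∑ f : Fin n → ι, ENNReal.ofReal
      ((∏ k, a (f k)) * |dt (fun k => v (f k))| / n.factorial) ≤ volume (zon a v) := by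
    rw [key]
    refine measure_mono ?_
    rintro _ ⟨x, _, rfl⟩
    exact image_sub a v ha x
  rw [← ENNReal.ofReal_sum_of_nonneg] at hle
  · have h5 := ENNReal.ofReal_le_iff_le_toReal (zon_fin a v ha) |>.1 hle
    rw [← Finset.sum_div] at h5
    have h6 : (0 : ℝ) < n.factorial := by exact_mod_cast Nat.factorial_pos n
    rw [div_le_iff₀ h6] at h5
    unfold XT vl
    linarith
  · intro f _
    have := Finset.prod_nonneg (s := Finset.univ) (f := fun k => a (f k)) fun k _ => (ha _).le
    positivity

end PPI
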