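import Pool.Agent.SBA.BMF
import Pool.Agent.SBA.PLF
import Pool.Agent.SBA.BLF
import Pool.Agent.SBA.BL1
import Pool.Agent.SBA.BLB
import Pool.Agent.SBA.BM1
import Pool.Agent.SBA.BMP
import Pool.Agent.SBA.HOL
import Pool.Agent.SBA.BLPx
import Pool.Agent.SBA.BLT
import Pool.Agent.SBA.DEC
import Pool.Agent.PPI.APX
import Pool.Agent.PPI.CEL
import Pool.Agent.PPI.MKI
import Pool.Agent.PPI.SHD
import Pool.Agent.PPI.PRJ
import Pool.Agent.PPI.MON
import Pool.Agent.PPI.CBS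
import Pool.Agent.PPI.INT
import Pool.Agent.PPI.ZON
import Pool.Agent.PPI.GEO
import Pool.Agent.PPI.SPN
import Pool.Agent.PPI.AUE
import Pool.Agent.PPI.TRX
import Pool.Agent.PPI.TRM
import Pool.Agent.PPI.XLB
import Pool.Agent.PPI.RED
import Pool.Agent.PPI.AVE
import Pool.Agent.PPI.LSE
import Pool.Agent.PPI.PHC
import Pool.Agent.PPI.COE
import Pool.Agent.PPI.PEX
import Pool.Agent.PPI.DER
import Pool.Agent.PPI.FOC
import Pool.Agent.PPI.PLA
import Pool.Agent.PPI.LEV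
import Pool.Agent.PPI.AND
import Pool.Agent.PPI.DTL
import Pool.Agent.PPI.TRU
import Pool.Agent.PPI.MGR
import Pool.Agent.PPI.MGE
import Pool.Agent.PPI.MGI
import Pool.Agent.PPI.MGF
import Pool.Agent.PPI.MGA
import Pool.Agent.PPI.MGC
import Pool.Agent.PPI.MGT
import Pool.Agent.PPI.MCC
import Pool.Agent.PPI.MOM
import Pool.Agent.PPI.NUA
import Pool.Agent.PPI.NUB
import Pool.Agent.PPI.NFM
import Pool.Agent.PPI.BOD
import Pool.Agent.PPI.FIN

/-!
# Squad PPI (MP_0bf616_gt): assembly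
-/

set_option autoImplicit false

namespace PPI

theorem s_BMP : SBA.Stmt_BMP := SBA.bmp_proof
theorem s_BM1 : SBA.Stmt_BM1 := SBA.bm1_proof
theorem s_HOL : SBA.Stmt_HOL := SBA.hol_proof
theorem s_BLB : SBA.Stmt_BLB := SBA.blb_proof s_BM1 s_BMP s_HOL
theorem s_BL1 : SBA.Stmt_BL1 := SBA.bl1_proof s_BLB s_BMP
theorem s_BLP : SBA.Stmt_BLP := SBA.blpx_proof
theorem s_BLT : SBA.Stmt_BLT := SBA.blt_proof
theorem s_BLF : SBA.Stmt_BLF := SBA.blf_proof s_BL1 s_BLP s_BLT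
theorem s_PLF : SBA.Stmt_PLF := SBA.plf_proof s_BLF s_BMP
theorem s_BMF : SBA.Stmt_BMF := SBA.bmf_proof s_PLF
theorem s_DEC : SBA.Stmt_DEC := SBA.dec_proof

theorem t_APX : Stmt_APX := apx_proof
theorem t_CEL : Stmt_CEL := cel_proof
theorem t_MKI : Stmt_MKI := mki_proof t_CEL s_BMF
theorem t_SHD : Stmt_SHD := shd_proof s_DEC
theorem t_PRJ : Stmt_PRJ := prj_proof t_CEL t_SHD
theorem t_MON : Stmt_MON := mon_proof
theorem t_CBS : Stmt_CBS := cbs_proof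
theorem t_INT : Stmt_INT := int_proof
theorem t_ZON : Stmt_ZON := zon_proof t_CBS t_INT
theorem t_GEO : Stmt_GEO := geo_proof t_CEL t_MKI t_PRJ t_ZON t_MON
theorem t_SPN : Stmt_SPN := spn_proof
theorem t_AUE : Stmt_AUE := aue_proof
theorem t_TRX : Stmt_TRX := trx_proof
theorem t_TRM : Stmt_TRM := trm_proof
theorem t_XLB : Stmt_XLB := xlb_proof
theorem t_RED : Stmt_RED := red_proof t_SPN t_AUE t_TRX t_TRM
theorem t_AVE : Stmt_AVE := ave_proof
theorem t_LSE : Stmt_LSE := lse_proof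
theorem t_PHC : Stmt_PHC := phc_proof
theorem t_COE : Stmt_COE := coe_proof t_AVE t_LSE
theorem t_PEX : Stmt_PEX := pex_proof t_PHC t_COE t_LSE t_AVE
theorem t_DER : Stmt_DER := der_proof t_AVE
theorem t_FOC : Stmt_FOC := foc_proof t_DER t_AVE t_LSE
theorem t_PLA : Stmt_PLA := pla_proof t_LSE t_AVE
theorem t_LEV : Stmt_LEV := lev_proof t_LSE t_AVE
theorem t_AND : Stmt_AND := and_proof
theorem t_DTL : Stmt_DTL := dtl_proof
theorem t_TRU : Stmt_TRU := tru_proof t_AND t_DTL t_XLB t_AVE t_LSE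
theorem t_MGR : Stmt_MGR := mgr_proof
theorem t_MGE : Stmt_MGE := mge_proof
theorem t_MGI : Stmt_MGI := mgi_proof
theorem t_MGF : Stmt_MGF := mgf_proof t_MGR t_MGE t_MGI
theorem t_MGA : Stmt_MGA := mga_proof
theorem t_MGC : Stmt_MGC := mgc_proof t_MGF t_MGA
theorem t_MGT : Stmt_MGT := mgt_proof t_MGI
theorem t_MCC : Stmt_MCC := mcc_proof
theorem t_MOM : Stmt_MOM := mom_proof t_MGC t_MGT t_MCC
theorem t_NUA : Stmt_NUA := nua_proof
theorem t_NUB : Stmt_NUB := nub_proof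
theorem t_NFM : Stmt_NFM := nfm_proof t_AVE t_PEX t_FOC t_PLA t_LEV t_TRU t_MOM
theorem t_BOD : Stmt_BOD := bod_proof t_AVE t_NFM t_RED t_GEO t_APX t_MON
theorem t_FIN : Stmt_FIN := fin_proof t_AVE t_BOD t_NUA t_NUB

end PPI
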