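import Pool.Agent.PPI.Stmts

/-!
# PPI, module LEV: the level set of the softmax potential
-/

set_option autoImplicit false

namespace PPI

open MeasureTheory Set Filter Topology
open scoped ENNReal Pointwise

namespace LEV_

/-- the linear map with matrix `Tᵗ` -/
noncomputable def A {n : ℕ} (T : Matrix (Fin n) (Fin n) ℝ) : EE n →ₗ[ℝ] EE n :=
  Matrix.toEuclideanLin T.transpose

lemma A_inner {n : ℕ} (T : Matrix (Fin n) (Fin n) ℝ) (x y : EE n) :
    inner ℝ y (A T x) = bil T x y := by
  unfold A bil
  rw [PiLp.inner_apply]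
  simp only [Matrix.toEuclideanLin_apply, Matrix.mulVec, dotProduct,
    Matrix.transpose_apply, RCLike.inner_apply, conj_trivial]
  rw [Finset.sum_comm]
  apply Finset.sum_congr rfl
  intro l _
  rw [Finset.sum_mul]
  apply Finset.sum_congr rfl
  intro k _
  ring

lemma A_det {n : ℕ} {T : Matrix (Fin n) (Fin n) ℝ} (hT : T.det = 1) :
    LinearMap.det (A T) = 1 := by
  unfold A
  rw [Matrix.toEuclideanLin_eq_toLin, LinearMap.det_toLin, Matrix.det_transpose, hT]

lemma A_vl {n : ℕ} {T : Matrix (Fin n) (Fin n) ℝ} (hT : T.det = 1) (L : Set (EE n)) :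
    vl (A T '' L) = vl L := by
  unfold vl
  rw [Measure.addHaar_image_linearMap, A_det hT]
  simp

/-- the number estimate at the end -/
lemma num {n : ℕ} {W κ F : ℝ} (hn : 1 ≤ n) (hW : 0 < W * κ) (hF : 0 ≤ F)
    (h : ∀ t : ℝ, 0 < t → W * κ * t ≤ (F + t) * (2 * (F + t)) ^ n) :
    0 < F ∧ W * κ ≤ Real.exp 1 * (n + 1) * (2 * F) ^ n := by
  have hnr : (0 : ℝ) < n := by exact_mod_cast hn
  have hF0 : 0 < F := by
    rcases hF.lt_or_eq with h1 | h1
    · exact h1
    exfalso
    subst h1
    set t := min (1 / 2) (W * κ / 4) with ht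
    have ht0 : 0 < t := by
      rw [ht]
      exact lt_min (by norm_num) (by linarith)
    have h2 := h t ht0
    rw [zero_add] at h2
    have h3 : W * κ ≤ (2 * t) ^ n := by
      rw [mul_comm (W * κ) t] at h2
      exact le_of_mul_le_mul_left h2 ht0
    have h4 : 2 * t ≤ 1 := by
      have := min_le_left (1 / 2) (W * κ / 4)
      linarith
    have h5 : (2 * t) ^ n ≤ 2 * t := pow_le_of_le_one (by linarith) h4 (by omega)
    have h6 : t ≤ W * κ / 4 := min_le_right _ _
    linarith
  refine ⟨hF0, ?_⟩
  have h1 := h (F / n) (div_pos hF0 hnr)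
  have h2 : F + F / n = F * (1 + 1 / n) := by
    field_simp
  rw [h2] at h1
  have h3 : W * κ * (F / n) ≤ (F / n) * ((n + 1) * ((2 * F) ^ n * (1 + 1 / n) ^ n)) := by
    refine h1.trans (le_of_eq ?_)
    rw [show 2 * (F * (1 + 1 / (n : ℝ))) = (2 * F) * (1 + 1 / n) by ring, mul_pow]
    field_simp
  have h4 : W * κ ≤ (n + 1) * ((2 * F) ^ n * (1 + 1 / n) ^ n) := by
    rw [mul_comm (W * κ)] at h3
    exact le_of_mul_le_mul_left h3 (div_pos hF0 hnr)
  have h5 : (1 + 1 / (n : ℝ)) ^ n ≤ Real.exp 1 := by
    have h6 : 1 + 1 / (n : ℝ) ≤ Real.exp (1 / n) := by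
      have := Real.add_one_le_exp (1 / (n : ℝ))
      linarith
    calc (1 + 1 / (n : ℝ)) ^ n ≤ Real.exp (1 / n) ^ n := pow_le_pow_left₀ (by positivity) h6 n
      _ = Real.exp 1 := by
        rw [← Real.exp_nat_mul]
        congr 1
        field_simp
  calc W * κ ≤ (n + 1) * ((2 * F) ^ n * (1 + 1 / n) ^ n) := h4
    _ ≤ (n + 1) * ((2 * F) ^ n * Real.exp 1) := by gcongr
    _ = Real.exp 1 * (n + 1) * (2 * F) ^ n := by ring

end LEV_

open LEV_ in
/-- the level set of the potential -/
theorem lev_proof (hLSE : Stmt_LSE) (hAVE : Stmt_AVE) : Stmt_LEV := by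
  intro n ι _ _ ε p w W T b hn hε hT hNF hW
  obtain ⟨hge, hcont, -, hconv, -, -, -, -⟩ := hLSE n ι ε w T b hε
  obtain ⟨hkap, hint, -, -, hconst, hmono, -, -⟩ := hAVE n hn
  set φ := ph ε w T b with hφ
  have hBc : IsCompact (Bn n) := isCompact_closedBall 0 1
  have hBne : (Bn n).Nonempty := ⟨0, Metric.mem_closedBall_self zero_le_one⟩
  obtain ⟨x0, hx0, hmin⟩ := hBc.exists_isMinOn hBne hcont.continuousOn
  set c := φ x0 with hc
  have hmin' : ∀ x ∈ Bn n, c ≤ φ x := fun x hx => hmin hx
  set m := ave φ with hm
  set F := Fn ε p w T b with hFdef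
  have hFm : F = m + ∑ i, p i * b i := rfl
  have hcm : c ≤ m := by
    rw [← hconst c]
    exact hmono _ _ continuous_const hcont hmin'
  have hsum : -c ≤ ∑ i, p i * b i := by
    have h1 : ∑ i, p i * (bil T x0 (w i) - c) ≤ ∑ i, p i * b i := by
      apply Finset.sum_le_sum
      intro i _
      apply mul_le_mul_of_nonneg_left _ (hNF.ppos i).le
      have := hge x0 i
      linarith
    have h2 : ∑ i, p i * (bil T x0 (w i) - c) = -c := by
      have h3 : ∑ i, p i * bil T x0 (w i) = 0 := by
        unfold bil
        have : ∀ i, p i * ∑ k, ∑ l, x0 k * T k l * w i l =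
            ∑ k, ∑ l, x0 k * T k l * (p i * w i l) := by
          intro i
          rw [Finset.mul_sum]
          apply Finset.sum_congr rfl
          intro k _
          rw [Finset.mul_sum]
          apply Finset.sum_congr rfl
          intro l _
          ring
        simp only [this]
        rw [Finset.sum_comm]
        apply Finset.sum_eq_zero
        intro k _
        rw [Finset.sum_comm]
        apply Finset.sum_eq_zero
        intro l _
        rw [← Finset.mul_sum, hNF.cen l, mul_zero]
      simp only [mul_sub, Finset.sum_sub_distrib, h3, ← Finset.sum_mul, hNF.psum]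
      ring
    linarith
  have hFc : m - c ≤ F := by linarith
  have hF0 : 0 ≤ F := by linarith
  apply num hn (mul_pos hW hkap) hF0
  intro t ht
  -- the level set
  set L : Set (EE n) := Bn n ∩ {x | φ x ≤ m + t} with hL
  have hLclosed : IsClosed {x | φ x ≤ m + t} := isClosed_le hcont continuous_const
  have hLc : IsCompact L := hBc.inter_right hLclosed
  have hLconv : Convex ℝ L := by
    apply (convex_closedBall 0 1).inter
    have := hconv.convex_le (m + t)
    simpa using this
  have hLne : L.Nonempty := ⟨x0, hx0, by show φ x0 ≤ m + t; linarith⟩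
  -- Minkowski
  have hmink : W * vl L ≤ (2 * (F + t)) ^ n := by
    have h1 := hNF.mink (A T '' L) (fun i => m + t + b i)
      (hLc.image (LinearMap.continuous_of_finiteDimensional _)) (hLconv.linear_image _)
      (hLne.image _) (by
        rintro i _ ⟨x, hx, rfl⟩
        rw [A_inner]
        have h2 := hge x i
        have h3 : φ x ≤ m + t := hx.2
        linarith)
    rw [A_vl hT] at h1
    have h4 : ∑ i, p i * (m + t + b i) = F + t := by
      simp only [mul_add, Finset.sum_add_distrib, ← Finset.sum_mul, hNF.psum]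
      rw [hFm]
      ring
    rwa [h4] at h1
  -- Markov
  have hmark : t * kap n ≤ (F + t) * vl L := by
    have hfin : volume (Bn n) ≠ ⊤ := hBc.measure_lt_top.ne
    have hi : Integrable (fun x => φ x - c) (volume.restrict (Bn n)) :=
      (hint _ (hcont.sub continuous_const))
    have hnn : 0 ≤ᵐ[volume.restrict (Bn n)] fun x => φ x - c := by
      filter_upwards [ae_restrict_mem hBc.isClosed.measurableSet] with x hx
      have := hmin' x hx
      show (0 : ℝ) ≤ φ x - c
      linarith
    have h1 := mul_meas_ge_le_integral_of_nonneg hnn hi (m + t - c)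
    have h2 : ∫ x in Bn n, (φ x - c) = (m - c) * kap n := by
      rw [integral_sub (hint _ hcont) (hint _ continuous_const)]
      have h3 : ∫ x in Bn n, φ x = m * kap n := by
        rw [hm]
        unfold ave
        rw [div_mul_cancel₀ _ hkap.ne']
      rw [h3]
      simp only [integral_const, smul_eq_mul]
      unfold kap vl
      rw [measureReal_restrict_apply_univ, Measure.real]
      ring
    rw [h2] at h1
    have h4 : kap n ≤ vl L + (volume.restrict (Bn n)).real {x | m + t - c ≤ φ x - c} := by
      have hms : MeasurableSet {x | m + t - c ≤ φ x - c} :=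
        (isClosed_le continuous_const (hcont.sub continuous_const)).measurableSet
      rw [measureReal_restrict_apply hms]
      have hsub : Bn n ⊆ L ∪ ({x | m + t - c ≤ φ x - c} ∩ Bn n) := by
        intro x hx
        by_cases h5 : φ x ≤ m + t
        · exact Or.inl ⟨hx, h5⟩
        · refine Or.inr ⟨?_, hx⟩
          show m + t - c ≤ φ x - c
          linarith [not_le.1 h5]
      have hLfin : volume L ≠ ⊤ := hLc.measure_lt_top.ne
      have hRfin : volume ({x | m + t - c ≤ φ x - c} ∩ Bn n) ≠ ⊤ :=
        ((measure_mono inter_subset_right).trans_lt hBc.measure_lt_top).ne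
      unfold kap vl
      rw [Measure.real, ← ENNReal.toReal_add hLfin hRfin]
      apply ENNReal.toReal_mono (ENNReal.add_ne_top.2 ⟨hLfin, hRfin⟩)
      exact (measure_mono hsub).trans (measure_union_le _ _)
    have h6 : 0 ≤ vl L := ENNReal.toReal_nonneg
    have h7 : 0 ≤ m + t - c := by linarith
    have h8 := mul_le_mul_of_nonneg_left h4 h7
    have h9 : (m + t - c) * vl L ≤ (F + t) * vl L := by
      apply mul_le_mul_of_nonneg_right _ h6
      linarith
    nlinarith
  have hFt : 0 ≤ F + t := by linarith
  calc W * kap n * t = W * (t * kap n) := by ring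
    _ ≤ W * ((F + t) * vl L) := mul_le_mul_of_nonneg_left hmark hW.le
    _ = (F + t) * (W * vl L) := by ring
    _ ≤ (F + t) * (2 * (F + t)) ^ n := mul_le_mul_of_nonneg_left hmink hFt

end PPI
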