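import Pool.Agent.PPI.Defs
import Pool.Agent.SBA.Stmts

/-!
# Squad PPI (MP_0bf616_gt): statements of the modules.  Recipes: /team-store/MP_0bf616_PPI.md
-/

set_option autoImplicit false

namespace PPI

open MeasureTheory Set Filter Topology
open scoped ENNReal Pointwise

/-! ## Part A: geometry -/

/-- inner approximation by polytopes `Pol v` -/
def Stmt_APX : Prop :=
  ∀ (n : ℕ) (K : Set (EE n)) (δ : ℝ), 1 ≤ n → Convex ℝ K → IsCompact K → 0 ∈ interior K →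
    0 < δ → δ < 1 → ∃ (N : ℕ) (v : Fin N → EE n), IsCompact (Pol v) ∧ Pol v ⊆ K ∧
      (1 - δ) ^ n * vl K ≤ vl (Pol v)

/-- the cells of a polytope -/
def Stmt_CEL : Prop :=
  ∀ (n N : ℕ) (v : Fin N → EE n), 1 ≤ n → IsCompact (Pol v) →
    (∀ i, MeasurableSet (cn v i)) ∧ (∀ i j, i ≠ j → Disjoint (cn v i) (cn v j)) ∧
    (∀ x, ∃ i, x ∈ cn v i) ∧
    (∀ i s, 0 ≤ s → volume (cell v i s) = ENNReal.ofReal (s ^ n) * volume (cell v i 1)) ∧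
    (∀ i, cell v i 1 ⊆ Pol v) ∧ (∀ i, volume (cell v i 1) ≠ ⊤) ∧
    (∑ i, fa v i = n * vl (Pol v)) ∧ (∀ i, 0 ≤ fa v i) ∧ (∀ i, 0 < fa v i → v i ≠ 0)

/-- Minkowski's inequality for polytopes. Uses CEL, SBA.BMF -/
def Stmt_MKI : Prop :=
  ∀ (n N : ℕ) (v : Fin N → EE n), 1 ≤ n → IsCompact (Pol v) →
    ∀ (L : Set (EE n)) (c : Fin N → ℝ), IsCompact L → Convex ℝ L → L.Nonempty →
    (∀ i, ∀ x ∈ L, inner ℝ (v i) x ≤ c i) →
    0 ≤ ∑ i, fa v i * c i ∧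
    (n : ℝ) ^ n * vl (Pol v) ^ (n - 1) * vl L ≤ (∑ i, fa v i * c i) ^ n

/-- volume gained by a translation. Uses SBA.DEC -/
def Stmt_SHD : Prop :=
  ∀ (n : ℕ) (K : Set (EE n)) (u : EE n) (t : ℝ), 2 ≤ n → Convex ℝ K → IsCompact K → ‖u‖ = 1 →
    0 ≤ t → vl (((fun x => x + t • u) '' K) \ K) ≤ t * shadow K u

/-- lower bound for the shadows of a polytope. Uses CEL, SHD -/
def Stmt_PRJ : Prop :=
  ∀ (n N : ℕ) (v : Fin N → EE n) (u : EE n), 2 ≤ n → IsCompact (Pol v) → ‖u‖ = 1 →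
    ∑ i, fa v i * |inner ℝ (v i) u| ≤ 2 * shadow (Pol v) u

/-- projection bodies: finite volume, monotone, invariant under translations -/
def Stmt_MON : Prop :=
  ∀ (n : ℕ), 2 ≤ n →
    (∀ K : Set (EE n), IsCompact K → volume (projBody K) ≠ ⊤) ∧
    (∀ K K' : Set (EE n), IsCompact K → IsCompact K' → K ⊆ K' → projBody K ⊆ projBody K') ∧
    (∀ (K : Set (EE n)) (z : EE n), projBody ((fun x => x + z) '' K) = projBody K)

/-- Cauchy-Binet for a sum of matrices of rank one -/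
def Stmt_CBS : Prop :=
  ∀ (n : ℕ) (ι : Type) [Fintype ι] (α : ι → ℝ) (v : ι → EE n),
    Matrix.det (Matrix.of fun j l : Fin n => ∑ i, α i * (v i j * v i l)) =
      (∑ f : Fin n → ι, (∏ k, α (f k)) * dt (fun k => v (f k)) ^ 2) / n.factorial

/-- an integral over `R^n` -/
def Stmt_INT : Prop :=
  ∀ (n : ℕ) (w : Fin n → EE n), dt w ≠ 0 →
    ∫⁻ x : EE n, ∏ k, ENNReal.ofReal (1 / (1 + (inner ℝ (w k) x) ^ 2)) =
      ENNReal.ofReal (Real.pi ^ n / |dt w|)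

/-- lower bound for the volume of a zonotope. Uses CBS, INT -/
def Stmt_ZON : Prop :=
  ∀ (n : ℕ) (ι : Type) [Fintype ι] (a : ι → ℝ) (v : ι → EE n), 1 ≤ n → (∀ i, 0 < a i) →
    XT a v ≤ n.factorial * vl (zon a v)

/-- polytopes: the family of the facets. Uses CEL, MKI, PRJ, ZON, MON -/
def Stmt_GEO : Prop :=
  ∀ (n N : ℕ) (v : Fin N → EE n), 2 ≤ n → IsCompact (Pol v) → 0 < vl (Pol v) →
    ∃ (ι : Type) (_ : Fintype ι) (a : ι → ℝ) (w : ι → EE n), MK a w (vl (Pol v) ^ (n - 1)) ∧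
      XT a w ≤ n.factorial * vl (projBody (Pol v))

/-! ## Part B: Auerbach position -/

/-- the vectors span -/
def Stmt_SPN : Prop :=
  ∀ (n : ℕ) (ι : Type) [Fintype ι] (a : ι → ℝ) (v : ι → EE n) (W : ℝ), 1 ≤ n → MK a v W → 0 < W →
    ∀ y : EE n, y ≠ 0 → ∃ i, inner ℝ (v i) y ≠ 0

/-- Auerbach basis of the norm `∑ a_i |⟪v_i, y⟫| / 2` -/
def Stmt_AUE : Prop :=
  ∀ (n : ℕ) (ι : Type) [Fintype ι] (a : ι → ℝ) (v : ι → EE n), 1 ≤ n → (∀ i, 0 < a i) →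
    (∀ y : EE n, y ≠ 0 → ∃ i, inner ℝ (v i) y ≠ 0) →
    ∃ A : EE n →L[ℝ] EE n, A.det ≠ 0 ∧ (∀ k, ∑ i, a i * |A (v i) k| = 2) ∧
      ∀ (y : EE n) (k : Fin n), 2 * |y k| ≤ ∑ i, a i * |inner ℝ (A (v i)) y|

/-- linear maps and `XT` -/
def Stmt_TRX : Prop :=
  ∀ (n : ℕ) (ι : Type) [Fintype ι] (a : ι → ℝ) (v : ι → EE n) (A : EE n →L[ℝ] EE n),
    XT a (fun i => A (v i)) = |A.det| * XT a v

/-- linear maps and `MK` -/
def Stmt_TRM : Prop :=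
  ∀ (n : ℕ) (ι : Type) [Fintype ι] (a : ι → ℝ) (v : ι → EE n) (W : ℝ) (A : EE n →L[ℝ] EE n),
    A.det ≠ 0 → MK a v W → MK a (fun i => A (v i)) (|A.det| * W)

/-- lower bound for `XT` in Auerbach position -/
def Stmt_XLB : Prop :=
  ∀ (n : ℕ) (ι : Type) [Fintype ι] (p : ι → ℝ) (w : ι → EE n), (∀ i, 0 < p i) →
    (∀ (y : EE n) (k : Fin n), |y k| ≤ n * ∑ i, p i * |inner ℝ (w i) y|) →
    1 ≤ (n : ℝ) ^ n * XT p w

/-- reduction to the normal form. Uses SPN, AUE, TRX, TRM -/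
def Stmt_RED : Prop :=
  ∀ (n : ℕ) (C : ℝ), 1 ≤ n →
    (∀ (ι : Type) [Fintype ι] (p : ι → ℝ) (w : ι → EE n) (W : ℝ), NF p w W → 0 < W →
      W ≤ C * XT p w) →
    ∀ (ι : Type) [Fintype ι] (a : ι → ℝ) (v : ι → EE n) (W : ℝ), MK a v W → 0 < W →
      (2 * n : ℝ) ^ n * W ≤ C * XT a v

/-! ## Part C: the coupling -/

/-- averages over the ball -/
def Stmt_AVE : Prop :=
  ∀ (n : ℕ), 1 ≤ n →
    0 < kap n ∧
    (∀ f : EE n → ℝ, Continuous f → IntegrableOn f (Bn n)) ∧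
    (∀ f g : EE n → ℝ, Continuous f → Continuous g →
      ave (fun x => f x + g x) = ave f + ave g) ∧
    (∀ (c : ℝ) (f : EE n → ℝ), ave (fun x => c * f x) = c * ave f) ∧
    (∀ c : ℝ, ave (fun _ : EE n => c) = c) ∧
    (∀ f g : EE n → ℝ, Continuous f → Continuous g → (∀ x ∈ Bn n, f x ≤ g x) →
      ave f ≤ ave g) ∧
    (∀ k : Fin n, ave (fun x : EE n => x k) = 0) ∧
    ∃ c : ℝ, 0 < c ∧ ∀ k l : Fin n, ave (fun x : EE n => x k * x l) = if k = l then c else 0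

/-- properties of the softmax potential -/
def Stmt_LSE : Prop :=
  ∀ (n : ℕ) (ι : Type) [Fintype ι] [Nonempty ι] (ε : ℝ) (w : ι → EE n)
    (T : Matrix (Fin n) (Fin n) ℝ) (b : ι → ℝ), 0 < ε →
    (∀ x i, bil T x (w i) - b i ≤ ph ε w T b x) ∧
    Continuous (ph ε w T b) ∧ (∀ i, Continuous fun x => ws ε w T b x i) ∧
    ConvexOn ℝ univ (ph ε w T b) ∧
    (∀ x, ∑ i, ws ε w T b x i = 1) ∧ (∀ x i, 0 < ws ε w T b x i) ∧
    (∀ x, ph ε w T b x - ε * Real.log (Fintype.card ι) ≤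
      ∑ i, ws ε w T b x i * (bil T x (w i) - b i)) ∧
    (∀ (x : EE n) (c : ℝ), ph ε w T (fun i => b i - c) x = ph ε w T b x + c)

/-- joint continuity of the functional. Uses AVE -/
def Stmt_PHC : Prop :=
  ∀ (n : ℕ) (ι : Type) [Fintype ι] [Nonempty ι] (ε : ℝ) (p : ι → ℝ) (w : ι → EE n), 1 ≤ n →
    0 < ε →
    Continuous (fun z : Matrix (Fin n) (Fin n) ℝ × (ι → ℝ) => Fn ε p w z.1 z.2)

/-- coercivity of the functional. Uses AVE, LSE -/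
def Stmt_COE : Prop :=
  ∀ (n : ℕ) (ι : Type) [Fintype ι] [Nonempty ι] (ε : ℝ) (p : ι → ℝ) (w : ι → EE n) (W : ℝ),
    1 ≤ n → 0 < ε → NF p w W →
    (∃ c : ℝ, 0 < c ∧ ∀ (T : Matrix (Fin n) (Fin n) ℝ) (b : ι → ℝ) (k l : Fin n),
      c * |T k l| ≤ Fn ε p w T b) ∧
    ∀ (T : Matrix (Fin n) (Fin n) ℝ) (b : ι → ℝ), ∑ i, p i * b i = 0 →
      ∀ j, -(Fn ε p w T b) ≤ b j ∧ p j * b j ≤ Fn ε p w T b

/-- existence of a minimiser. Uses PHC, COE, LSE, AVE -/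
def Stmt_PEX : Prop :=
  ∀ (n : ℕ) (ι : Type) [Fintype ι] [Nonempty ι] (ε : ℝ) (p : ι → ℝ) (w : ι → EE n) (W : ℝ),
    1 ≤ n → 0 < ε → NF p w W →
    ∃ (T : Matrix (Fin n) (Fin n) ℝ) (b : ι → ℝ), T.det = 1 ∧
      ∀ (T' : Matrix (Fin n) (Fin n) ℝ) (b' : ι → ℝ), T'.det = 1 →
        Fn ε p w T b ≤ Fn ε p w T' b'

/-- derivative of the functional along a line. Uses AVE -/
def Stmt_DER : Prop :=
  ∀ (n : ℕ) (ι : Type) [Fintype ι] [Nonempty ι] (ε : ℝ) (p : ι → ℝ) (w : ι → EE n)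
    (T M : Matrix (Fin n) (Fin n) ℝ) (b d : ι → ℝ), 1 ≤ n → 0 < ε →
    HasDerivAt (fun t : ℝ => Fn ε p w (T + t • M) (b + t • d))
      (ave (fun x => ∑ i, ws ε w T b x i * (bil M x (w i) - d i)) + ∑ i, p i * d i) 0

/-- first order conditions. Uses DER, AVE, LSE -/
def Stmt_FOC : Prop :=
  ∀ (n : ℕ) (ι : Type) [Fintype ι] [Nonempty ι] (ε : ℝ) (p : ι → ℝ) (w : ι → EE n)
    (T : Matrix (Fin n) (Fin n) ℝ) (b : ι → ℝ), 1 ≤ n → 0 < ε → T.det = 1 →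
    (∀ (T' : Matrix (Fin n) (Fin n) ℝ) (b' : ι → ℝ), T'.det = 1 →
        Fn ε p w T b ≤ Fn ε p w T' b') →
    (∀ i, ave (fun x => ws ε w T b x i) = p i) ∧
    ∃ lam : ℝ, T.transpose * Gm ε w T b = lam • (1 : Matrix (Fin n) (Fin n) ℝ)

/-- the size of `lam`. Uses LSE, AVE -/
def Stmt_PLA : Prop :=
  ∀ (n : ℕ) (ι : Type) [Fintype ι] [Nonempty ι] (ε : ℝ) (p : ι → ℝ) (w : ι → EE n)
    (T : Matrix (Fin n) (Fin n) ℝ) (b : ι → ℝ) (lam : ℝ), 1 ≤ n → 0 < ε → T.det = 1 →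
    (∀ i, ave (fun x => ws ε w T b x i) = p i) →
    T.transpose * Gm ε w T b = lam • (1 : Matrix (Fin n) (Fin n) ℝ) →
    (Gm ε w T b).det = lam ^ n ∧ Fn ε p w T b - ε * Real.log (Fintype.card ι) ≤ n * lam

/-- the level set of the potential. Uses LSE, AVE -/
def Stmt_LEV : Prop :=
  ∀ (n : ℕ) (ι : Type) [Fintype ι] [Nonempty ι] (ε : ℝ) (p : ι → ℝ) (w : ι → EE n) (W : ℝ)
    (T : Matrix (Fin n) (Fin n) ℝ) (b : ι → ℝ), 1 ≤ n → 0 < ε → T.det = 1 → NF p w W → 0 < W →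
    0 < Fn ε p w T b ∧
      W * kap n ≤ Real.exp 1 * (n + 1) * (2 * Fn ε p w T b) ^ n

/-! ## Part D: determinants -/

/-- Andréief's identity -/
def Stmt_AND : Prop :=
  ∀ (n : ℕ) (g : EE n → EE n), 1 ≤ n → Continuous g →
    (n.factorial : ℝ) * Matrix.det (Matrix.of fun k l : Fin n => ave (fun x => x k * g x l)) =
      (∫ x in Bp n, dt x * dt (fun k => g (x k))) / kap n ^ n

/-- rows of `ℓ¹`-norm at most one -/
def Stmt_DTL : Prop :=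
  ∀ (n : ℕ) (x : Fin n → EE n), (∀ k, ∑ l, |x k l| ≤ 1) → |dt x| ≤ 1

/-- the truncation argument. Uses AND, DTL, XLB, AVE, LSE -/
def Stmt_TRU : Prop :=
  ∀ (n q : ℕ) (ι : Type) [Fintype ι] [Nonempty ι] (ε : ℝ) (p : ι → ℝ) (w : ι → EE n) (W : ℝ)
    (T : Matrix (Fin n) (Fin n) ℝ) (b : ι → ℝ) (θ : ℝ), 1 ≤ n → 1 ≤ q → 0 < ε → NF p w W →
    (∀ i, ave (fun x => ws ε w T b x i) = p i) → 0 < θ →
    mom n q * (n : ℝ) ^ n ≤ θ ^ (2 * q) →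
    (n.factorial : ℝ) * (Gm ε w T b).det ≤ 2 * θ * XT p w

/-- rotation invariance -/
def Stmt_MGR : Prop :=
  ∀ (n q : ℕ) (x₀ : EE (n + 1)),
    ∫ x : Fin n → EE (n + 1), dt (Fin.cons x₀ x : Fin (n + 1) → EE (n + 1)) ^ (2 * q) *
        ∏ k, Real.exp (-(‖x k‖ ^ 2 / 2)) =
      ‖x₀‖ ^ (2 * q) *
        ∫ x : Fin n → EE (n + 1),
          dt (Fin.cons (EuclideanSpace.single 0 1) x : Fin (n + 1) → EE (n + 1)) ^ (2 * q) *
            ∏ k, Real.exp (-(‖x k‖ ^ 2 / 2))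

/-- the first column is `e_0` -/
def Stmt_MGE : Prop :=
  ∀ (n q : ℕ),
    ∫ x : Fin n → EE (n + 1),
        dt (Fin.cons (EuclideanSpace.single 0 1) x : Fin (n + 1) → EE (n + 1)) ^ (2 * q) *
          ∏ k, Real.exp (-(‖x k‖ ^ 2 / 2)) =
      √(2 * Real.pi) ^ n * gm n q

/-- integrability -/
def Stmt_MGI : Prop :=
  ∀ (n q : ℕ), Integrable
    (fun x : Fin n → EE n => dt x ^ (2 * q) * ∏ k, Real.exp (-(‖x k‖ ^ 2 / 2)))

/-- recursion for the Gaussian moments. Uses MGR, MGE, MGI -/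
def Stmt_MGF : Prop :=
  ∀ (n q : ℕ), gm (n + 1) q = ga (n + 1) q * (√(2 * Real.pi) ^ n * gm n q)

/-- moments of the norm -/
def Stmt_MGA : Prop :=
  ∀ (m q : ℕ), 1 ≤ m → ga m q = √(2 * Real.pi) ^ m * ∏ j ∈ Finset.range q, ((m : ℝ) + 2 * j)

/-- Gaussian moments of the determinant. Uses MGF, MGA -/
def Stmt_MGC : Prop :=
  ∀ (n q : ℕ), gm n q = √(2 * Real.pi) ^ (n ^ 2) *
    ∏ m ∈ Finset.range n, ∏ j ∈ Finset.range q, ((m : ℝ) + 1 + 2 * j)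

/-- from the Gaussian measure to the ball. Uses MGI -/
def Stmt_MGT : Prop :=
  ∀ (n q : ℕ), 1 ≤ n → gm n q = cc n q ^ n * ∫ x in Bp n, dt x ^ (2 * q)

/-- the constant -/
def Stmt_MCC : Prop :=
  ∀ (n q : ℕ), 1 ≤ n → cc n q * kap n =
    √(2 * Real.pi) ^ n * ∏ j ∈ Finset.range q, ((n : ℝ) + 2 + 2 * j)

/-- the moment bound. Uses MGC, MGT, MCC -/
def Stmt_MOM : Prop :=
  ∀ (n q : ℕ), 1 ≤ n → 1 ≤ q → mom n q * (n : ℝ) ^ n ≤ th n q ^ (2 * q)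

/-! ## Part E: constants -/

/-- the value of the ball -/
def Stmt_NUA : Prop :=
  ∀ n : ℕ, 2 ≤ n → kap (n - 1) ^ n / kap n ^ (n - 2) ≤
    √(Real.exp 1) * kap n * √((n : ℝ) ^ n / n.factorial)

/-- the choice of `q` -/
def Stmt_NUB : Prop :=
  ∃ C : ℝ, 0 < C ∧ ∀ n : ℕ, 2 ≤ n → ∃ q : ℕ, 1 ≤ q ∧
    √(Real.exp 1) * (8 * Real.exp 1 * (n + 1)) *
      Real.exp (q * (1 + Real.log n) + n * Real.log n / (2 * q)) ≤
    Real.exp (C * √n * Real.log n)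

/-! ## Assembly (helper32) -/

/-- the theorem in normal form. Uses PEX, FOC, PLA, LEV, TRU, MOM -/
def Stmt_NFM : Prop :=
  ∀ (n q : ℕ) (ι : Type) [Fintype ι] (p : ι → ℝ) (w : ι → EE n) (W : ℝ), 2 ≤ n → 1 ≤ q →
    NF p w W → 0 < W →
    W * (kap n * n.factorial) ≤ 8 * Real.exp 1 * (n + 1) * th n q * (2 * n) ^ n * XT p w

/-- the theorem for bodies. Uses NFM, RED, GEO, APX, MON -/
def Stmt_BOD : Prop :=
  ∀ (n q : ℕ) (K : Set (EE n)), 2 ≤ n → 1 ≤ q → Convex ℝ K → IsCompact K →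
    (interior K).Nonempty →
    kap n * vl K ^ (n - 1) ≤ 8 * Real.exp 1 * (n + 1) * th n q * vl (projBody K)

/-- final theorem. Uses BOD, NUA, NUB -/
def Stmt_FIN : Prop :=
  ∃ C : ℝ, ∀ n : ℕ, 2 ≤ n → ∀ K : Set (EE n), Convex ℝ K → IsCompact K →
    (interior K).Nonempty →
    Real.exp (-(C * √n * Real.log n)) * (kap (n - 1) ^ n / kap n ^ (n - 2)) * vl K ^ (n - 1) ≤
      vl (projBody K)

end PPI
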